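import Pool.Agent.Helper26K9.QT.StmR

/-!
# Leaf R1: the descent by `1 + i` on `y² = x³ - D ^ j x`
-/

set_option autoImplicit false

open Finset

namespace Pool.Agent.Helper26K9.QT

open Pool.Agent.Y690.PP Pool.Agent.Y690.PP.Fn Pool.Agent.Helper26K9.DN
open Pool.Agent.Y547.PP

namespace R1L

section field
variable {F : Type} [Field F] [Algebra G F] [IsFractionRing G F]

/-- the squarefree part of `x` -/
theorem decomp {c : G} {x y : F} (hx : x ≠ 0)
    (hxy : y ^ 2 = x ^ 3 - algebraMap G F c * x) :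
    ∃ (d f b Y : G), Squarefree d ∧ (∀ ρ : G, Prime ρ → ρ ∣ d → ρ ∣ c) ∧ IsCoprime f b ∧
      f ≠ 0 ∧ b ≠ 0 ∧ x = algebraMap G F d * (algebraMap G F f / algebraMap G F b) ^ 2 ∧
      Y ^ 2 = d * (d ^ 2 * f ^ 4 - c * b ^ 4) := by
  classical
  obtain ⟨a, m, hm, hxa⟩ := IsFractionRing.div_surjective (A := G) x
  have hm0 : m ≠ 0 := nonZeroDivisors.ne_zero hm
  have ha0 : a ≠ 0 := by
    rintro rfl
    apply hx
    rw [← hxa, map_zero, zero_div]
  have hc0 : a * m ≠ 0 := mul_ne_zero ha0 hm0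
  obtain ⟨d, h, hdh, hd⟩ := sqf_decomp _ (a * m) hc0 le_rfl
  have hh0 : h ≠ 0 := by
    rintro rfl
    apply hc0
    rw [hdh]; ring
  have hd0 : d ≠ 0 := hd.ne_zero
  obtain ⟨f, b', hfb, hfb'⟩ := IsFractionRing.exists_reduced_fraction (A := G)
    (algebraMap G F h / algebraMap G F m)
  set b : G := (b' : G) with hb
  have hb0 : b ≠ 0 := nonZeroDivisors.ne_zero b'.2
  have hw : algebraMap G F h / algebraMap G F m = algebraMap G F f / algebraMap G F b := by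
    rw [← hfb', IsFractionRing.mk'_eq_div]
  have hcop : IsCoprime f b := hfb.isCoprime
  have hAm := Pool.Agent.Y547.PP.A_ne (F := F) hm0
  have hAb := Pool.Agent.Y547.PP.A_ne (F := F) hb0
  have hAh := Pool.Agent.Y547.PP.A_ne (F := F) hh0
  have hf0 : f ≠ 0 := by
    rintro rfl
    rw [map_zero, zero_div] at hw
    exact (div_ne_zero hAh hAm) hw
  have hAf := Pool.Agent.Y547.PP.A_ne (F := F) hf0
  have hxd : x = algebraMap G F d * (algebraMap G F f / algebraMap G F b) ^ 2 := by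
    rw [← hw, ← hxa]
    have h1 := congrArg (algebraMap G F) hdh
    rw [map_mul, map_mul, map_pow] at h1
    field_simp
    linear_combination h1
  obtain ⟨Y, hY⟩ : ∃ Y : G, Y ^ 2 = d * (d ^ 2 * f ^ 4 - c * b ^ 4) := by
    have h1 : (y * (algebraMap G F b) ^ 3 / algebraMap G F f) ^ 2 =
        algebraMap G F (d * (d ^ 2 * f ^ 4 - c * b ^ 4)) := by
      rw [div_pow, mul_pow, hxy, hxd]
      simp only [map_mul, map_sub, map_pow]
      field_simp
    obtain ⟨Y, hY⟩ := sq_int h1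
    refine ⟨Y, ?_⟩
    apply Pool.Agent.Y547.PP.A_inj (F := F)
    rw [map_pow, hY, h1]
  refine ⟨d, f, b, Y, hd, ?_, hcop, hf0, hb0, hxd, hY⟩
  intro ρ hρ hρd
  by_contra hρD
  obtain ⟨d', hd'⟩ := hρd
  have hnd : ¬ ρ ∣ d' := by
    rintro ⟨e, he⟩
    exact hρ.not_isUnit (hd ρ ⟨e, by rw [hd', he]; ring⟩)
  have h1 : ρ ∣ Y := by
    apply hρ.dvd_of_dvd_pow (n := 2)
    rw [hY, hd']
    exact (dvd_mul_right _ _).mul_right _
  obtain ⟨Y1, hY1⟩ := h1
  have h2 : ρ * Y1 ^ 2 = d' * (d ^ 2 * f ^ 4 - c * b ^ 4) := by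
    apply mul_left_cancel₀ hρ.ne_zero
    have : ρ * (d' * (d ^ 2 * f ^ 4 - c * b ^ 4)) = Y ^ 2 := by rw [hY, hd']; ring
    rw [this, hY1]
    ring
  have h3 : ρ ∣ b := by
    have h4 : ρ ∣ d' * (d ^ 2 * f ^ 4 - c * b ^ 4) := by rw [← h2]; exact dvd_mul_right _ _
    have h5 := (hρ.dvd_or_dvd h4).resolve_left hnd
    have h6 : ρ ∣ c * b ^ 4 := by
      have h7 : ρ ∣ d ^ 2 * f ^ 4 := by
        rw [hd']
        exact (dvd_pow (dvd_mul_right ρ d') (by norm_num)).mul_right _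
      have h8 := dvd_sub h7 h5
      rwa [sub_sub_cancel] at h8
    rcases hρ.dvd_or_dvd h6 with h7 | h7
    · exact absurd h7 hρD
    · exact hρ.dvd_of_dvd_pow h7
  obtain ⟨b1, hb1⟩ := h3
  have hnf : ¬ ρ ∣ f := by
    intro h4
    exact hρ.not_isUnit (hcop.isUnit_of_dvd' h4 ⟨b1, hb1⟩)
  have h4 : Y1 ^ 2 = ρ * (d' * (d' ^ 2 * f ^ 4 - ρ ^ 2 * (c * b1 ^ 4))) := by
    apply mul_left_cancel₀ hρ.ne_zero
    rw [h2, hd', hb1]
    ring
  have h5 : ρ ∣ Y1 := hρ.dvd_of_dvd_pow (n := 2) (by rw [h4]; exact dvd_mul_right _ _)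
  obtain ⟨Y2, hY2⟩ := h5
  have h6 : ρ ∣ d' * (d' ^ 2 * f ^ 4 - ρ ^ 2 * (c * b1 ^ 4)) := by
    refine ⟨Y2 ^ 2, ?_⟩
    apply mul_left_cancel₀ hρ.ne_zero
    rw [← h4, hY2]
    ring
  have h7 := (hρ.dvd_or_dvd h6).resolve_left hnd
  have h8 : ρ ∣ d' ^ 2 * f ^ 4 := by
    have h9 : ρ ∣ ρ ^ 2 * (c * b1 ^ 4) := (dvd_pow_self ρ (by norm_num)).mul_right _
    have := dvd_add h7 h9
    rwa [sub_add_cancel] at this
  rcases hρ.dvd_or_dvd h8 with h9 | h9
  · exact hnd (hρ.dvd_of_dvd_pow h9)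
  · exact hnf (hρ.dvd_of_dvd_pow h9)

end field

theorem qs_neg' (p : Pr) (a : G) : qs p.1 (-a) = qs p.1 a := by
  have e : -a = (-1 : G) * a := by ring
  rw [e, qs_mul p.2.1 p.2.2, qs_neg_one p.2.1, one_mul]

/-- the local condition, `j = 1` -/
theorem half1 {d D' f b Z : G} (hE : Z ^ 2 = d * f ^ 4 - D' * b ^ 4) (hcop : IsCoprime f b)
    (p : Pr) (hsq : ¬ p.1 * p.1 ∣ d * D') (hpD : p.1 ∣ D') : qs p.1 d = 1 := by
  have hP := p.2.1
  have hm := qs_mul p.2.1 p.2.2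
  have hnd : ¬ p.1 ∣ d := fun h => hsq (mul_dvd_mul h hpD)
  obtain ⟨D'', hD''⟩ := hpD
  by_cases hf : p.1 ∣ f
  · exfalso
    obtain ⟨f1, hf1⟩ := hf
    have hnb : ¬ p.1 ∣ b := fun h => hP.not_isUnit (hcop.isUnit_of_dvd' ⟨f1, hf1⟩ h)
    have h1 : p.1 ∣ Z := by
      refine hP.dvd_of_dvd_pow (n := 2) ?_
      rw [hE, hf1, hD'']
      exact ⟨d * p.1 ^ 3 * f1 ^ 4 - D'' * b ^ 4, by ring⟩
    obtain ⟨Z1, hZ1⟩ := h1
    have h2 : p.1 ∣ D'' * b ^ 4 := by
      refine ⟨d * p.1 ^ 2 * f1 ^ 4 - Z1 ^ 2, ?_⟩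
      apply mul_left_cancel₀ hP.ne_zero
      rw [hZ1, hf1, hD''] at hE
      linear_combination hE
    rcases hP.dvd_or_dvd h2 with h3 | h3
    · apply hsq
      rw [hD'']
      exact (mul_dvd_mul_left _ h3).mul_left _
    · exact hnb (hP.dvd_of_dvd_pow h3)
  · have h3 : p.1 ∣ d * (f ^ 2) ^ 2 - Z ^ 2 := by
      rw [hE, hD'']
      exact ⟨D'' * b ^ 4, by ring⟩
    have h5 := qs_per h3
    have h4 : ¬ p.1 ∣ f ^ 2 := fun h => hf (hP.dvd_of_dvd_pow h)
    have h6 : ¬ p.1 ∣ Z := by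
      intro h
      have h7 : p.1 ∣ d * (f ^ 2) ^ 2 := by
        have := dvd_add h3 (dvd_pow h (two_ne_zero))
        rwa [sub_add_cancel] at this
      rcases hP.dvd_or_dvd h7 with h8 | h8
      · exact hnd h8
      · exact h4 (hP.dvd_of_dvd_pow h8)
    rwa [hm, qs_sq hP h4, qs_sq hP h6, mul_one] at h5

/-- the local conditions, `j = 1` -/
theorem loc1 {d D' f b Z : G} (hE : Z ^ 2 = d * f ^ 4 - D' * b ^ 4) (hcop : IsCoprime f b)
    (p : Pr) (hsq : ¬ p.1 * p.1 ∣ d * D') :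
    (p.1 ∣ d → qs p.1 D' = 1) ∧ (p.1 ∣ D' → qs p.1 d = 1) := by
  refine ⟨fun h => ?_, half1 hE hcop p hsq⟩
  have h1 := half1 (d := -D') (D' := -d) (f := b) (b := f) (Z := Z) (by rw [hE]; ring)
    hcop.symm p (by rw [neg_mul_neg, mul_comm D' d]; exact hsq) (by rwa [dvd_neg])
  rwa [qs_neg'] at h1

/-- the local conditions, `j = 3` -/
theorem loc3 {d D' f b Y : G} (hE : d * Y ^ 2 = f ^ 4 - d * D' ^ 3 * b ^ 4) (hcop : IsCoprime f b)
    (p : Pr) (hsq : ¬ p.1 * p.1 ∣ d * D') :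
    (p.1 ∣ d → qs p.1 D' = 1) ∧ (p.1 ∣ D' → qs p.1 d = 1) := by
  have hP := p.2.1
  have hm := qs_mul p.2.1 p.2.2
  constructor
  · intro hpd
    have hnD : ¬ p.1 ∣ D' := fun h => hsq (mul_dvd_mul hpd h)
    have hpf : p.1 ∣ f := by
      refine hP.dvd_of_dvd_pow (n := 4) ?_
      have e : f ^ 4 = d * (Y ^ 2 + D' ^ 3 * b ^ 4) := by linear_combination -hE
      rw [e]
      exact hpd.mul_right _
    have hnb : ¬ p.1 ∣ b := fun h => hP.not_isUnit (hcop.isUnit_of_dvd' hpf h)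
    obtain ⟨f1, hf1⟩ := hpf
    obtain ⟨d1, hd1⟩ := hpd
    have hnd1 : ¬ p.1 ∣ d1 := by
      intro h
      apply hsq
      rw [hd1]
      exact (mul_dvd_mul_left _ h).mul_right _
    have h2 : d1 * Y ^ 2 = p.1 ^ 3 * f1 ^ 4 - d1 * D' ^ 3 * b ^ 4 := by
      apply mul_left_cancel₀ hP.ne_zero
      rw [hf1, hd1] at hE
      linear_combination hE
    have h3 : p.1 ∣ Y ^ 2 - (-(D' * (D' * b ^ 2) ^ 2)) := by
      refine (hP.dvd_or_dvd (a := d1) ?_).resolve_left hnd1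
      refine ⟨p.1 ^ 2 * f1 ^ 4, ?_⟩
      linear_combination h2
    have h4 : ¬ p.1 ∣ D' * b ^ 2 := by
      intro h
      rcases hP.dvd_or_dvd h with h5 | h5
      · exact hnD h5
      · exact hnb (hP.dvd_of_dvd_pow h5)
    have h5 := qs_per h3
    rw [qs_neg', hm, qs_sq hP h4, mul_one] at h5
    have h6 : ¬ p.1 ∣ Y := by
      intro h
      have h7 : qs p.1 (Y ^ 2) = 0 := qs_zero.2 (dvd_pow h (by norm_num))
      rw [h7] at h5
      exact hnD (qs_zero.1 h5.symm)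
    rw [qs_sq hP h6] at h5
    exact h5.symm
  · intro hpD
    have hnd : ¬ p.1 ∣ d := fun h => hsq (mul_dvd_mul h hpD)
    by_cases hf : p.1 ∣ f
    · exfalso
      obtain ⟨f1, hf1⟩ := hf
      obtain ⟨D'', hD''⟩ := hpD
      have hnD'' : ¬ p.1 ∣ D'' := by
        intro h
        apply hsq
        rw [hD'']
        exact (mul_dvd_mul_left _ h).mul_left _
      have hnb : ¬ p.1 ∣ b := fun h => hP.not_isUnit (hcop.isUnit_of_dvd' ⟨f1, hf1⟩ h)
      have h1 : p.1 ∣ Y := by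
        have h2 : p.1 ∣ d * Y ^ 2 := by
          rw [hE, hf1, hD'']
          exact ⟨p.1 ^ 3 * f1 ^ 4 - p.1 ^ 2 * (d * D'' ^ 3 * b ^ 4), by ring⟩
        exact hP.dvd_of_dvd_pow ((hP.dvd_or_dvd h2).resolve_left hnd)
      obtain ⟨Y1, hY1⟩ := h1
      have h2 : d * Y1 ^ 2 = p.1 ^ 2 * f1 ^ 4 - p.1 * (d * D'' ^ 3 * b ^ 4) := by
        apply mul_left_cancel₀ (pow_ne_zero 2 hP.ne_zero)
        rw [hY1, hf1, hD''] at hE
        linear_combination hE
      have h3 : p.1 ∣ Y1 := by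
        have h4 : p.1 ∣ d * Y1 ^ 2 := by
          rw [h2]
          exact ⟨p.1 * f1 ^ 4 - d * D'' ^ 3 * b ^ 4, by ring⟩
        exact hP.dvd_of_dvd_pow ((hP.dvd_or_dvd h4).resolve_left hnd)
      obtain ⟨Y2, hY2⟩ := h3
      have h4 : p.1 ∣ d * D'' ^ 3 * b ^ 4 := by
        refine ⟨f1 ^ 4 - d * Y2 ^ 2, ?_⟩
        apply mul_left_cancel₀ hP.ne_zero
        rw [hY2] at h2
        linear_combination h2
      rcases hP.dvd_or_dvd h4 with h5 | h5
      · rcases hP.dvd_or_dvd h5 with h6 | h6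
        · exact hnd h6
        · exact hnD'' (hP.dvd_of_dvd_pow h6)
      · exact hnb (hP.dvd_of_dvd_pow h5)
    · have h3 : p.1 ∣ d * Y ^ 2 - (f ^ 2) ^ 2 := by
        obtain ⟨D'', hD''⟩ := hpD
        rw [hE, hD'']
        exact ⟨-(p.1 ^ 2 * (d * D'' ^ 3 * b ^ 4)), by ring⟩
      have h5 := qs_per h3
      have h4 : ¬ p.1 ∣ f ^ 2 := fun h => hf (hP.dvd_of_dvd_pow h)
      rw [hm, qs_sq hP h4] at h5
      have h6 : ¬ p.1 ∣ Y := by
        intro h
        have : qs p.1 (Y ^ 2) = 0 := qs_zero.2 (dvd_pow h (by norm_num))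
        rw [this, mul_zero] at h5
        exact zero_ne_one h5
      rwa [qs_sq hP h6, mul_one] at h5

/-- both local conditions from the equation of the torsor -/
theorem locj {d D' f b Y : G} (hd : Squarefree d) {j : ℕ} (hj : j = 1 ∨ j = 3)
    (hY : Y ^ 2 = d * (d ^ 2 * f ^ 4 - (d * D') ^ j * b ^ 4)) (hcop : IsCoprime f b)
    (p : Pr) (hsq : ¬ p.1 * p.1 ∣ d * D') :
    (p.1 ∣ d → qs p.1 D' = 1) ∧ (p.1 ∣ D' → qs p.1 d = 1) := by
  have hd0 : d ≠ 0 := hd.ne_zero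
  have h1 : d ∣ Y := by
    rw [← hd.dvd_pow_iff_dvd (n := 2) (by norm_num), hY]
    exact dvd_mul_right _ _
  obtain ⟨Y1, rfl⟩ := h1
  rcases hj with rfl | rfl
  · have h2 : Y1 ^ 2 = d * f ^ 4 - D' * b ^ 4 := by
      apply mul_left_cancel₀ (pow_ne_zero 2 hd0)
      linear_combination hY
    exact loc1 h2 hcop p hsq
  · have h2 : Y1 ^ 2 = d * (f ^ 4 - d * D' ^ 3 * b ^ 4) := by
      apply mul_left_cancel₀ (pow_ne_zero 2 hd0)
      linear_combination hY
    have h3 : d ∣ Y1 := by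
      rw [← hd.dvd_pow_iff_dvd (n := 2) (by norm_num), h2]
      exact dvd_mul_right _ _
    obtain ⟨Y2, rfl⟩ := h3
    have h4 : d * Y2 ^ 2 = f ^ 4 - d * D' ^ 3 * b ^ 4 := by
      apply mul_left_cancel₀ hd0
      linear_combination h2
    exact loc3 h4 hcop p hsq

/-- the class of `x` and its local conditions -/
theorem main {F : Type} [Field F] [Algebra G F] [IsFractionRing G F] (s : G) (hs : s ^ 2 = 1)
    (A : Finset Pr) {j : ℕ} (hj : j = 1 ∨ j = 3) (x y : F) (hx : x ≠ 0)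
    (hxy : y ^ 2 = x ^ 3 - algebraMap G F ((s * PA A) ^ j) * x) [DecidableEq Pr] :
    ∃ (u : G) (V : Finset Pr) (w : F), (u = 1 ∨ u = ii) ∧ V ⊆ A ∧
      x = algebraMap G F (u * PA V) * w ^ 2 ∧
      (∀ p ∈ V, qs p.1 (u * PA (A \ V)) = 1) ∧
      (∀ p ∈ A, p ∉ V → qs p.1 (u * PA V) = 1) := by
  have hm : ∀ p : Pr, ∀ v w : G, qs p.1 (v * w) = qs p.1 v * qs p.1 w := fun p => qs_mul p.2.1 p.2.2
  have hsu : IsUnit s := IsUnit.of_mul_eq_one s (by rw [← sq]; exact hs)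
  obtain ⟨d, f, b, Y0, hd, hdD, hcop, hf0, hb0, hX, hY0⟩ := decomp (F := F) hx hxy
  have hdD' : ∀ ρ : G, Prime ρ → ρ ∣ d → ρ ∣ PA A := fun ρ hρ h =>
    dvd_of_unit_mul hsu (hρ.dvd_of_dvd_pow (hdD ρ hρ h))
  obtain ⟨S, v, hSA, hv, hdS⟩ := struct hd fun ρ hρ h => (hdD' ρ hρ h).mul_left la
  have hdS : d = v * PA S := by
    rcases hdS with h | h
    · exact h
    · exfalso
      have h1 : la ∣ d := by
        rw [h]
        exact ((dvd_refl la).mul_left v).mul_right _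
      exact la_not_dvd_prm (Pool.Agent.Y547.PP.prm_PA A) (hdD' la Pool.Agent.Y547.PP.la_prime h1)
  obtain ⟨v', hvv'⟩ := hv.exists_right_inv
  have hv' : IsUnit v' := IsUnit.of_mul_eq_one v (by rw [mul_comm]; exact hvv')
  have hPA := PA_sdiff hSA
  have hDD : d * (v' * s * PA (A \ S)) = s * PA A := by
    rw [hdS, ← hPA]
    linear_combination s * PA S * PA (A \ S) * hvv'
  rw [← hDD] at hY0
  have hsq : ∀ p : Pr, ¬ p.1 * p.1 ∣ d * (v' * s * PA (A \ S)) := by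
    intro p h
    rw [hDD] at h
    exact sqf_D A p ((dvd_of_unit_mul hsu h).mul_left la)
  have hL := fun p : Pr => locj hd hj hY0 hcop p (hsq p)
  obtain ⟨u, e, hu, he, hve⟩ := unit_class hv
  have hsym : ∀ p : Pr, qs p.1 v' = qs p.1 u := by
    intro p
    have h1 : v' = v * v' ^ 2 := by linear_combination -v' * hvv'
    rw [h1, hve, hm, hm, qs_sq p.2.1 (not_dvd_unit p he), qs_sq p.2.1 (not_dvd_unit p hv'),
      mul_one, mul_one]
  refine ⟨u, S, algebraMap G F e * (algebraMap G F f / algebraMap G F b), hu, hSA, ?_, ?_, ?_⟩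
  · rw [hX, hdS, hve]
    simp only [map_mul, map_pow]
    ring
  · intro p hp
    have h1 := (hL p).1 (by rw [hdS]; exact (dvd_PA hp).mul_left _)
    rw [hm, hm, hsym, qs_unit p.2.1 hs, mul_one] at h1
    rw [hm]
    exact h1
  · intro p hpA hpS
    have h1 := (hL p).2 ((dvd_PA (Finset.mem_sdiff.2 ⟨hpA, hpS⟩)).mul_left _)
    rw [hdS, hve, hm, hm, qs_sq p.2.1 (not_dvd_unit p he), mul_one] at h1
    rw [hm]
    exact h1

end R1L

/-- **R1** -/
theorem r1 : S_R1 := by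
  classical
  intro A hX hch D hD j hj x y hx hxy
  obtain ⟨s, e, hs, he, hDs⟩ : ∃ s e : G, s ^ 2 = 1 ∧ -s = e ^ 2 ∧ D = s * PA A := by
    rcases hD with rfl | rfl
    · exact ⟨1, ii, by ring, by rw [sq, ii2], by ring⟩
    · exact ⟨-1, 1, by ring, by ring, by ring⟩
  rw [hDs] at hxy ⊢
  obtain ⟨u, V, w, hu, hVA, hw, h1, h2⟩ := R1L.main s hs A hj x y hx hxy
  rcases hu with rfl | rfl
  · have h4 : V = ∅ ∨ V = A := by
      refine eq_of_two hX hVA (fun p hp => ?_) (fun p hp hp' => ?_)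
      · have hB2 := h1 p hp
        rw [one_mul, Pool.Agent.Helper26K9.DN.qs_PA] at hB2
        rw [cast_gs]
        exact_mod_cast hB2
      · have h3 := h2 p hp hp'
        rw [one_mul, Pool.Agent.Helper26K9.DN.qs_PA] at h3
        rw [cast_gs]
        exact_mod_cast h3
    rcases h4 with h3 | h3
    · left
      refine ⟨w, ?_⟩
      rw [hw, h3]
      have hPe : PA ∅ = 1 := Finset.prod_empty
      rw [hPe, mul_one, map_one, one_mul]
    · right
      have hw0 : w ≠ 0 := by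
        rintro rfl
        apply hx
        rw [hw]
        ring
      rw [h3, one_mul] at hw
      have hse : -algebraMap G (FractionRing G) s = (algebraMap G (FractionRing G) e) ^ 2 := by
        rw [← map_neg, he, map_pow]
      have hs2 : (algebraMap G (FractionRing G) s) ^ 2 = 1 := by rw [← map_pow, hs, map_one]
      rcases hj with rfl | rfl
      · refine ⟨algebraMap G (FractionRing G) e / w, ?_⟩
        rw [hw, div_pow, ← hse]
        have hw2 : w ^ 2 ≠ 0 := pow_ne_zero 2 hw0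
        rw [mul_assoc, mul_div_cancel₀ _ hw2]
        simp only [map_mul, pow_one]
        ring
      · refine ⟨algebraMap G (FractionRing G) e * algebraMap G (FractionRing G) (PA A) / w, ?_⟩
        have hw2 : w ^ 2 ≠ 0 := pow_ne_zero 2 hw0
        rw [hw, div_pow, mul_assoc, mul_div_cancel₀ _ hw2]
        simp only [map_mul, map_pow]
        rw [mul_pow, mul_pow, ← hse]
        linear_combination (-(algebraMap G (FractionRing G) s) *
          (algebraMap G (FractionRing G) (PA A)) ^ 3) * hs2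
  · exfalso
    have e1 : ∀ p ∈ V, gi p.1 = ∏ q ∈ A \ V, qs q.1 p.1 := by
      intro p hp
      have hB2 := h1 p hp
      rw [qs_iPA] at hB2
      have := gi_sq p
      calc gi p.1 = gi p.1 * (gi p.1 * ∏ q ∈ A \ V, qs q.1 p.1) := by rw [hB2, mul_one]
        _ = (gi p.1 * gi p.1) * ∏ q ∈ A \ V, qs q.1 p.1 := by ring
        _ = _ := by rw [this, one_mul]
    have e2 : ∀ p ∈ A \ V, gi p.1 = ∏ q ∈ V, qs q.1 p.1 := by
      intro p hp
      rw [mem_sdiff] at hp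
      have h3 := h2 p hp.1 hp.2
      rw [qs_iPA] at h3
      have := gi_sq p
      calc gi p.1 = gi p.1 * (gi p.1 * ∏ q ∈ V, qs q.1 p.1) := by rw [h3, mul_one]
        _ = (gi p.1 * gi p.1) * ∏ q ∈ V, qs q.1 p.1 := by ring
        _ = _ := by rw [this, one_mul]
    have e3 : ∏ p ∈ A, gi p.1 = (∏ p ∈ V, ∏ q ∈ A \ V, qs q.1 p.1) ^ 2 := by
      rw [← prod_sdiff hVA, prod_congr rfl e1, prod_congr rfl e2, prod_comm, sq]
      congr 1
      refine prod_congr rfl fun p _ => prod_congr rfl fun q _ => ?_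
      exact Pool.Agent.Y901.PP.Rec.t_REC p.1 q.1 p.2.1 p.2.2 q.2.1 q.2.2
    have e4 : (∏ p ∈ A, gi p.1 : ℤ) = -1 := by
      have h5 : ((∏ p ∈ A, gi p.1 : ℤ) : ℝ) = -1 := by
        rw [← hch]
        unfold ch
        push_cast
        rfl
      exact_mod_cast h5
    rw [e3] at e4
    have := sq_nonneg (∏ p ∈ V, ∏ q ∈ A \ V, qs q.1 p.1)
    omega

end Pool.Agent.Helper26K9.QT
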