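import Mathlib

/-!
# Quartic twists: finitely many points if the descent by `1 + i` is trivial
-/

set_option autoImplicit false

namespace Pool.Agent.Helper26K9.QT.R2L

open GaussianInt

abbrev Gi := GaussianInt
abbrev Kg := FractionRing Gi

/-- the embedding -/
noncomputable abbrev al : Gi →+* Kg := algebraMap Gi Kg

/-- the imaginary unit -/
def ii : Gi := ⟨0, 1⟩

lemma ii_sq : ii * ii = -1 := by
  apply Zsqrtd.ext <;> simp [ii]

/-- norms as natural numbers -/
def nm (z : Gi) : ℕ := z.norm.natAbs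

lemma nm_mul (a b : Gi) : nm (a * b) = nm a * nm b := by
  simp [nm, Zsqrtd.norm_mul, Int.natAbs_mul]

lemma nm_pos {a : Gi} (h : a ≠ 0) : 0 < nm a := by
  unfold nm
  rw [Int.natAbs_pos]
  intro h0
  exact h (GaussianInt.norm_eq_zero.1 h0)

lemma nm_cast (a : Gi) : (nm a : ℤ) = a.re * a.re + a.im * a.im := by
  unfold nm
  have h := GaussianInt.norm_nonneg a
  rw [Int.natCast_natAbs, abs_of_nonneg h, Zsqrtd.norm_def]
  ring

lemma nm_add (a b : Gi) : nm (a + b) ≤ 2 * nm a + 2 * nm b := by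
  zify
  rw [nm_cast, nm_cast, nm_cast]
  simp only [Zsqrtd.re_add, Zsqrtd.im_add]
  nlinarith [sq_nonneg (a.re - b.re), sq_nonneg (a.im - b.im)]

lemma nm_neg (a : Gi) : nm (-a) = nm a := by
  simp [nm]

lemma fin_nm (B : ℕ) : {z : Gi | nm z ≤ B}.Finite := by
  apply Set.Finite.subset (((Set.finite_Icc (-(B : ℤ)) B).prod (Set.finite_Icc (-(B : ℤ)) B)).image
    (fun p : ℤ × ℤ => (⟨p.1, p.2⟩ : Gi)))
  intro z hz
  refine ⟨(z.re, z.im), ?_, rfl⟩
  have h : (nm z : ℤ) ≤ B := by exact_mod_cast hz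
  rw [nm_cast] at h
  have key : ∀ a b : ℤ, a * a + b * b ≤ B → a ∈ Set.Icc (-(B : ℤ)) B := by
    intro a b hab
    have h1 : a * a ≤ B := by nlinarith [mul_self_nonneg b]
    have h2 : |a| ≤ B := by
      rcases eq_or_ne a 0 with rfl | ha
      · simp
      · have : 1 ≤ |a| := Int.one_le_abs ha
        have h3 : |a| * |a| = a * a := abs_mul_abs_self a
        nlinarith
    exact abs_le.1 h2
  exact ⟨key _ _ h, key _ z.re (by linarith)⟩

/-- the height -/
noncomputable def H (x : Kg) : ℕ :=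
  max (nm (IsFractionRing.num Gi x)) (nm (IsFractionRing.den Gi x : Gi))

lemma eq_div (x : Kg) : x = al (IsFractionRing.num Gi x) / al (IsFractionRing.den Gi x : Gi) := by
  conv_lhs => rw [← IsFractionRing.mk'_num_den Gi x]
  rw [IsFractionRing.mk'_eq_div]

lemma fin_H (B : ℕ) : {x : Kg | H x ≤ B}.Finite := by
  apply Set.Finite.subset (((fin_nm B).prod (fin_nm B)).image
    (fun p : Gi × Gi => al p.1 / al p.2))
  intro x hx
  have hx' : H x ≤ B := hx
  exact ⟨(IsFractionRing.num Gi x, (IsFractionRing.den Gi x : Gi)),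
    ⟨(le_max_left _ _).trans hx', (le_max_right _ _).trans hx'⟩, (eq_div x).symm⟩

/-- the first coordinate of `(1 + i) P` -/
noncomputable def f (c : Gi) (t : Kg) : Kg := (t ^ 2 - al c) / (2 * al ii * t)

lemma ali : al ii * al ii = -1 := by
  rw [← map_mul, ii_sq, map_neg, map_one]

lemma al0 {a : Gi} (h : a ≠ 0) : al a ≠ 0 := by
  simpa using h

lemma ii0 : ii ≠ 0 := by
  intro h
  have := congrArg Zsqrtd.im h
  simp [ii] at this

/-- the height inequality -/
lemma height (c : Gi) (hc : c ≠ 0) (t : Kg) (ht : t ≠ 0) :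
    H t * H t ≤ ((3 + nm c) * (4 * nm c)) * H (f c t) := by
  obtain ⟨m, hm⟩ : ∃ m : Gi, m = IsFractionRing.num Gi t := ⟨_, rfl⟩
  obtain ⟨n, hn⟩ : ∃ n : Gi, n = (IsFractionRing.den Gi t : Gi) := ⟨_, rfl⟩
  obtain ⟨a, ha⟩ : ∃ a : Gi, a = IsFractionRing.num Gi (f c t) := ⟨_, rfl⟩
  obtain ⟨b, hb⟩ : ∃ b : Gi, b = (IsFractionRing.den Gi (f c t) : Gi) := ⟨_, rfl⟩
  have hn0 : n ≠ 0 := by rw [hn]; exact nonZeroDivisors.coe_ne_zero _
  have hb0 : b ≠ 0 := by rw [hb]; exact nonZeroDivisors.coe_ne_zero _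
  have het : t = al m / al n := by rw [hm, hn]; exact eq_div t
  have hef : f c t = al a / al b := by rw [ha, hb]; exact eq_div _
  have hm0 : m ≠ 0 := by
    rintro rfl
    apply ht
    rw [het, map_zero, zero_div]
  have cop : IsCoprime m n := by
    rw [hm, hn]
    exact (IsFractionRing.num_den_reduced Gi t).isCoprime
  have cop' : IsCoprime a b := by
    rw [ha, hb]
    exact (IsFractionRing.num_den_reduced Gi (f c t)).isCoprime
  -- the fraction
  have key : a * (2 * ii * m * n) = b * (m ^ 2 - c * n ^ 2) := by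
    have h1 : al (a * (2 * ii * m * n)) = al (b * (m ^ 2 - c * n ^ 2)) := by
      have h2 : f c t = (al m ^ 2 - al c * al n ^ 2) / (2 * al ii * al m * al n) := by
        rw [f, het]
        have e1 := al0 hn0
        have e2 := al0 hm0
        have e3 := al0 ii0
        field_simp
      rw [hef] at h2
      have e0 := al0 hb0
      have e1 := al0 hn0
      have e2 := al0 hm0
      have e3 := al0 ii0
      have e4 : (2 : Kg) ≠ 0 := two_ne_zero
      rw [div_eq_div_iff e0 (mul_ne_zero (mul_ne_zero (mul_ne_zero e4 e3) e2) e1)] at h2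
      simp only [map_mul, map_sub, map_pow, map_ofNat]
      rw [h2]
      ring
    exact IsFractionRing.injective Gi Kg h1
  obtain ⟨k, hk⟩ : b ∣ 2 * ii * m * n := by
    apply cop'.symm.dvd_of_dvd_mul_left
    exact ⟨_, key⟩
  have hk2 : m ^ 2 - c * n ^ 2 = a * k := by
    apply mul_left_cancel₀ hb0
    rw [← key, hk]
    ring
  have hN0 : 2 * ii * m * n ≠ 0 := by
    have : (2 : Gi) ≠ 0 := by
      intro h
      have := congrArg Zsqrtd.re h
      simp at this
    exact mul_ne_zero (mul_ne_zero (mul_ne_zero this ii0) hm0) hn0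
  have hk0 : k ≠ 0 := by
    rintro rfl
    exact hN0 (by rw [hk, mul_zero])
  -- `k` is prime to `n`
  have ckn : IsCoprime k n := by
    have h1 : IsCoprime (m ^ 2 - c * n ^ 2) n := by
      have h2 : IsCoprime (m ^ 2) n := cop.pow_left
      have h3 : IsCoprime (m ^ 2 + n * (-(c * n))) n := h2.add_mul_left_left _
      have h4 : m ^ 2 + n * (-(c * n)) = m ^ 2 - c * n ^ 2 := by ring
      rwa [h4] at h3
    rw [hk2] at h1
    exact h1.of_mul_left_right
  have hd1 : k ∣ 2 * m := by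
    have h1 : k ∣ 2 * m * n := by
      have h2 : k ∣ 2 * ii * m * n := ⟨b, by rw [hk]; ring⟩
      have h3 : k ∣ (2 * ii * m * n) * (-ii) := h2.mul_right _
      have h4 : (2 * ii * m * n) * (-ii) = 2 * m * n := by
        linear_combination (-2 * m * n) * ii_sq
      rwa [h4] at h3
    exact ckn.dvd_of_dvd_mul_right h1
  have hd2 : k ∣ 2 * c := by
    have h1 : k ∣ 2 * c * (n ^ 2) := by
      have h2 : k ∣ m ^ 2 - c * n ^ 2 := ⟨a, by rw [hk2]; ring⟩
      have h3 : k ∣ m * (2 * m) - 2 * (m ^ 2 - c * n ^ 2) :=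
        dvd_sub (hd1.mul_left _) (h2.mul_left _)
      have h4 : m * (2 * m) - 2 * (m ^ 2 - c * n ^ 2) = 2 * c * (n ^ 2) := by ring
      rwa [h4] at h3
    exact (ckn.pow_right (n := 2)).dvd_of_dvd_mul_right h1
  have hkn : nm k ≤ 4 * nm c := by
    obtain ⟨l, hl⟩ := hd2
    have hl0 : l ≠ 0 := by
      rintro rfl
      have : (2 : Gi) ≠ 0 := by
        intro h
        have := congrArg Zsqrtd.re h
        simp at this
      exact mul_ne_zero this hc (by rw [hl, mul_zero])
    have h1 := nm_pos hl0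
    have h2 : nm (2 * c) = 4 * nm c := by
      rw [nm_mul]
      congr 1
    rw [← h2, hl, nm_mul]
    exact Nat.le_mul_of_pos_right _ h1
  -- norms
  have n1 : nm a ≤ H (f c t) := by rw [ha]; exact le_max_left _ _
  have n2 : nm b ≤ H (f c t) := by rw [hb]; exact le_max_right _ _
  set R := 4 * nm c * H (f c t) with hR
  have n3 : nm (m ^ 2 - c * n ^ 2) ≤ R := by
    rw [hk2, nm_mul, hR, mul_comm (4 * nm c)]
    exact Nat.mul_le_mul n1 hkn
  have n4 : 4 * (nm m * nm n) ≤ R := by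
    have h1 : nm (2 * ii * m * n) ≤ R := by
      rw [hk, nm_mul, hR, mul_comm (4 * nm c)]
      exact Nat.mul_le_mul n2 hkn
    have h2 : nm (2 * ii * m * n) = 4 * (nm m * nm n) := by
      rw [nm_mul, nm_mul, nm_mul]
      have h3 : nm 2 = 4 := by rfl
      have h4 : nm ii = 1 := by rfl
      rw [h3, h4]
      ring
    rwa [h2] at h1
  have hX : nm m * nm m ≤ 2 * R + 2 * (nm c * (nm n * nm n)) := by
    have h1 := nm_add (m ^ 2 - c * n ^ 2) (c * n ^ 2)
    rw [sub_add_cancel, pow_two m, nm_mul, nm_mul c, pow_two n, nm_mul n] at h1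
    rw [pow_two m, pow_two n] at n3
    omega
  have hY : nm c * (nm n * nm n) ≤ 2 * R + 2 * (nm m * nm m) := by
    have h1 := nm_add (-(m ^ 2 - c * n ^ 2)) (m ^ 2)
    rw [nm_neg] at h1
    have h2 : -(m ^ 2 - c * n ^ 2) + m ^ 2 = c * (n * n) := by ring
    rw [h2, nm_mul, nm_mul n, pow_two m, nm_mul m] at h1
    rw [pow_two m] at n3
    omega
  have hc1 : 1 ≤ nm c := nm_pos hc
  have hH : H t = max (nm m) (nm n) := by rw [hm, hn]; rfl
  have goal' : H t * H t ≤ (3 + nm c) * R := by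
    rw [hH]
    rcases le_total (nm m) (nm n) with h | h
    · rw [max_eq_right h]
      have h1 : nm m * nm m ≤ nm m * nm n := Nat.mul_le_mul_left _ h
      have h2 : nm n * nm n ≤ nm c * (nm n * nm n) := Nat.le_mul_of_pos_left _ hc1
      have h3 : nm n * nm n ≤ 3 * R := by omega
      calc nm n * nm n ≤ 3 * R := h3
        _ ≤ (3 + nm c) * R := Nat.mul_le_mul_right _ (by omega)
    · rw [max_eq_left h]
      have h1 : nm n * nm n ≤ nm m * nm n := Nat.mul_le_mul_right _ h
      have h2 : 2 * (nm n * nm n) ≤ R := by omega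
      have h3 : nm c * (2 * (nm n * nm n)) ≤ nm c * R := Nat.mul_le_mul_left _ h2
      nlinarith
  calc H t * H t ≤ (3 + nm c) * R := goal'
    _ = ((3 + nm c) * (4 * nm c)) * H (f c t) := by rw [hR]; ring

/-- the counting argument -/
lemma fin_Q (c : Gi) (hc : c ≠ 0) (Q : Set Kg) (hQ : ∀ q ∈ Q, ∃ q' ∈ Q, q' ≠ 0 ∧ f c q' = q) :
    Q.Finite := by
  classical
  set C := (3 + nm c) * (4 * nm c) with hC
  choose! g hg using hQ
  have hgi : Set.InjOn g Q := by
    intro x hx y hy hxy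
    rw [← (hg x hx).2.2, ← (hg y hy).2.2, hxy]
  have hht : ∀ q ∈ Q, H (g q) * H (g q) ≤ C * H q := by
    intro q hq
    have h1 := height c hc (g q) (hg q hq).2.1
    rw [(hg q hq).2.2] at h1
    exact h1
  have hbd : ∀ q ∈ Q, H q ≤ C := by
    by_contra hcon
    push Not at hcon
    obtain ⟨q, hq, hqC⟩ := hcon
    -- `S` = elements of height at most `H q`
    have hS : (Q ∩ {x | H x ≤ H q}).Finite := (fin_H (H q)).subset Set.inter_subset_right
    have hmap : Set.MapsTo g (Q ∩ {x | H x ≤ H q}) (Q ∩ {x | H x ≤ H q}) := by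
      rintro x ⟨hx, hxq⟩
      refine ⟨(hg x hx).1, ?_⟩
      have h1 := hht x hx
      have h2 : H x ≤ H q := hxq
      show H (g x) ≤ H q
      by_contra h3
      push Not at h3
      have h4 : C * H x ≤ C * H q := Nat.mul_le_mul_left _ h2
      nlinarith
    have hsurj : Set.SurjOn g (Q ∩ {x | H x ≤ H q}) (Q ∩ {x | H x ≤ H q}) := by
      have := (Set.Finite.injOn_iff_bijOn_of_mapsTo hS hmap).1 (hgi.mono Set.inter_subset_left)
      exact this.surjOn
    obtain ⟨x, ⟨hx, hxq⟩, hxe⟩ := hsurj ⟨hq, le_refl (H q)⟩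
    have h1 := hht x hx
    rw [hxe] at h1
    have h2 : H x ≤ H q := hxq
    have h4 : C * H x ≤ C * H q := Nat.mul_le_mul_left _ h2
    nlinarith
  exact (fin_H C).subset hbd

/-- the main theorem -/
theorem main (c : Gi) (hc : c ≠ 0)
    (hyp : ∀ x y : Kg, x ≠ 0 → y ^ 2 = x ^ 3 - al c * x →
      (∃ w : Kg, x = w ^ 2) ∨ ∃ w : Kg, -al c = x * w ^ 2) :
    {P : Kg × Kg | P.2 ^ 2 = P.1 ^ 3 - al c * P.1}.Finite := by
  classical
  have hc' : al c ≠ 0 := al0 hc
  have hi : al ii ≠ 0 := al0 ii0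
  have h2 : (2 : Kg) ≠ 0 := two_ne_zero
  -- the nonzero first coordinates
  set P : Set Kg := {x | x ≠ 0 ∧ ∃ y : Kg, y ^ 2 = x ^ 3 - al c * x} with hP
  -- a point whose first coordinate is a square
  have half : ∀ w : Kg, w ^ 2 ∈ P → ∃ x₁ ∈ P, f c x₁ = w ^ 2 := by
    rintro w ⟨hw, y, hy⟩
    have hw0 : w ≠ 0 := by
      rintro rfl
      exact hw (by simp)
    obtain ⟨v, hv⟩ : ∃ v : Kg, v = y / w := ⟨_, rfl⟩
    have hv2 : v ^ 2 = w ^ 4 - al c := by
      rw [hv, div_pow, hy]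
      field_simp
    have hne : w ^ 2 + v ≠ 0 := by
      intro h0
      apply hc'
      have : v = -w ^ 2 := by linear_combination h0
      rw [this] at hv2
      linear_combination hv2
    refine ⟨al ii * (w ^ 2 + v), ⟨mul_ne_zero hi hne, (1 + al ii) * (al ii * (w ^ 2 + v)) * w, ?_⟩, ?_⟩
    · linear_combination ((2 * al ii + al ii ^ 2) * (w ^ 2 + v) ^ 2 * w ^ 2 -
        al ii * (w ^ 2 + v) ^ 3) * ali + al ii * (w ^ 2 + v) * hv2
    · rw [f, div_eq_iff (mul_ne_zero (mul_ne_zero h2 hi) (mul_ne_zero hi hne))]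
      linear_combination ((w ^ 2 + v) ^ 2 - 2 * w ^ 2 * (w ^ 2 + v)) * ali - hv2
  have tau : ∀ x ∈ P, -al c / x ∈ P ∧ f c (-al c / x) = f c x := by
    rintro x ⟨hx, y, hy⟩
    refine ⟨⟨div_ne_zero (neg_ne_zero.2 hc') hx, al c * y / x ^ 2, ?_⟩, ?_⟩
    · rw [div_pow, mul_pow, hy]
      field_simp
      ring
    · rw [f, f]
      field_simp
      ring
  have hPf : ∀ x ∈ P, ∃ x₁ ∈ P, f c (f c x₁) = f c x ∧ f c x₁ ≠ 0 := by
    intro x hx
    obtain ⟨hx0, y, hy⟩ := id hx
    rcases hyp x y hx0 hy with ⟨w, hw⟩ | ⟨w, hw⟩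
    · rw [hw] at hx
      obtain ⟨x₁, h1, h3⟩ := half w hx
      refine ⟨x₁, h1, by rw [h3, hw], ?_⟩
      rw [h3]
      exact hx.1
    · have h4 : -al c / x = w ^ 2 := by
        rw [hw]
        field_simp
      obtain ⟨h5, h6⟩ := tau x hx
      rw [h4] at h5 h6
      obtain ⟨x₁, h1, h3⟩ := half w h5
      refine ⟨x₁, h1, by rw [h3, h6], ?_⟩
      rw [h3]
      exact h5.1
  have hQ : (f c '' P).Finite := by
    apply fin_Q c hc
    rintro q ⟨x, hx, rfl⟩
    obtain ⟨x₁, h1, h3, h4⟩ := hPf x hx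
    exact ⟨f c x₁, ⟨x₁, h1, rfl⟩, h4, h3⟩
  -- the fibres of `f`
  have hPfin : P.Finite := by
    apply Set.Finite.of_finite_fibers (f c) hQ
    rintro q ⟨x₀, hx₀, hq⟩
    apply ((Set.finite_singleton x₀).union (Set.finite_singleton (2 * al ii * q - x₀))).subset
    rintro x ⟨hx, hxq⟩
    have e0 : x₀ ^ 2 - al c = q * (2 * al ii * x₀) := by
      rw [← hq, f, div_mul_cancel₀ _ (mul_ne_zero (mul_ne_zero h2 hi) hx₀.1)]
    have e1 : x ^ 2 - al c = q * (2 * al ii * x) := by
      rw [← (show f c x = q from hxq), f,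
        div_mul_cancel₀ _ (mul_ne_zero (mul_ne_zero h2 hi) hx.1)]
    have e2 : (x - x₀) * (x - (2 * al ii * q - x₀)) = 0 := by
      linear_combination e1 - e0
    rcases mul_eq_zero.1 e2 with h | h
    · left; exact sub_eq_zero.1 h
    · right; exact sub_eq_zero.1 h
  have hfib : ∀ x : Kg, {y : Kg | y ^ 2 = x ^ 3 - al c * x}.Finite := by
    intro x
    rcases Set.eq_empty_or_nonempty {y : Kg | y ^ 2 = x ^ 3 - al c * x} with h | ⟨y₀, hy₀⟩
    · rw [h]; exact Set.finite_empty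
    · apply ((Set.finite_singleton y₀).union (Set.finite_singleton (-y₀))).subset
      intro y hy
      have e0 : y ^ 2 = y₀ ^ 2 := by
        rw [show y ^ 2 = x ^ 3 - al c * x from hy]
        exact (show y₀ ^ 2 = x ^ 3 - al c * x from hy₀).symm
      rcases sq_eq_sq_iff_eq_or_eq_neg.1 e0 with h | h
      · left; exact h
      · right; exact h
  apply Set.Finite.subset ((hPfin.union (Set.finite_singleton (0 : Kg))).biUnion
    (t := fun x => (fun y => (x, y)) '' {y : Kg | y ^ 2 = x ^ 3 - al c * x})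
    (fun x _ => (hfib x).image _))
  rintro ⟨x, y⟩ hxy
  have hxy' : y ^ 2 = x ^ 3 - al c * x := hxy
  rw [Set.mem_iUnion₂]
  refine ⟨x, ?_, y, hxy', rfl⟩
  by_cases hx : x = 0
  · right; exact hx
  · left; exact ⟨hx, y, hxy'⟩

end Pool.Agent.Helper26K9.QT.R2L
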