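import Pool.Agent.Helper26K9.QT.StmR
import Pool.Agent.Helper26K9.QT.R2L

/-!
# Quartic twists: the leaf R2
-/

set_option autoImplicit false

namespace Pool.Agent.Helper26K9.QT

/-- the leaf R2 -/
theorem r2 : S_R2 := fun c hc h => R2L.main c hc h

end Pool.Agent.Helper26K9.QT
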