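import Pool.Agent.Helper26K9.DN.Last

/-!
# Quartic twists: the statements about the points
-/

set_option autoImplicit false

open Finset

namespace Pool.Agent.Helper26K9.QT

open Pool.Agent.Y690.PP Pool.Agent.Y690.PP.Fn Pool.Agent.Helper26K9.DN

/-- R1: the descent by `1 + i` on `y² = x³ - D ^ j x`, `D = ± PA A`, `j = 1, 3` -/
def S_R1 : Prop := ∀ A : Finset Pr, XX gs (fun _ => (1 : ℝ)) A = 2 → ch A = -1 →
  ∀ D : G, (D = PA A ∨ D = -PA A) → ∀ j : ℕ, (j = 1 ∨ j = 3) →
  ∀ x y : FractionRing G, x ≠ 0 →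
    y ^ 2 = x ^ 3 - algebraMap G (FractionRing G) (D ^ j) * x →
    (∃ w : FractionRing G, x = w ^ 2) ∨
      ∃ w : FractionRing G, -algebraMap G (FractionRing G) (D ^ j) = x * w ^ 2

/-- R2: if the descent by `1 + i` is trivial there are finitely many points -/
def S_R2 : Prop := ∀ c : G, c ≠ 0 →
  (∀ x y : FractionRing G, x ≠ 0 → y ^ 2 = x ^ 3 - algebraMap G (FractionRing G) c * x →
    (∃ w : FractionRing G, x = w ^ 2) ∨
      ∃ w : FractionRing G, -algebraMap G (FractionRing G) c = x * w ^ 2) →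
  {P : FractionRing G × FractionRing G |
    P.2 ^ 2 = P.1 ^ 3 - algebraMap G (FractionRing G) c * P.1}.Finite

end Pool.Agent.Helper26K9.QT
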