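import Pool.Agent.Helper26K9.QT.Fin4
import Pool.Agent.Helper26K9.QT.StmR

/-!
# Quartic twists: the density theorem with the points
-/

set_option autoImplicit false

open Finset Filter

namespace Pool.Agent.Helper26K9.QT

open Pool.Agent.Y690.PP Pool.Agent.Y690.PP.Fn Pool.Agent.Helper26K9.DN

/-- the curve `y² = x³ - D ^ j x` has finitely many points -/
def FinP (D : G) (j : ℕ) : Prop :=
  {P : FractionRing G × FractionRing G |
    P.2 ^ 2 = P.1 ^ 3 - algebraMap G (FractionRing G) (D ^ j) * P.1}.Finite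

theorem finP_two {D : G} (hD : D ≠ 0) (h : GoodP D) : FinP D 2 := by
  classical
  set d := algebraMap G (FractionRing G) D with hd
  have hd0 : d ≠ 0 := by
    rw [hd, Ne, IsFractionRing.to_map_eq_zero_iff]
    exact hD
  refine ((Set.finite_singleton ((0 : FractionRing G), (0 : FractionRing G))).union
    ((Set.finite_singleton (d, (0 : FractionRing G))).union
      (Set.finite_singleton (-d, (0 : FractionRing G))))).subset ?_
  rintro ⟨x, y⟩ hxy
  have hxy' : y ^ 2 = x ^ 3 - d ^ 2 * x := by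
    have h1 : y ^ 2 = x ^ 3 - algebraMap G (FractionRing G) (D ^ 2) * x := hxy
    rw [h1, map_pow]
  have h1 := h (x / d) (y / d ^ 2) (by
    rw [← hd]
    field_simp
    linear_combination hxy')
  have hy : y = 0 := by
    rcases div_eq_zero_iff.mp h1 with h2 | h2
    · exact h2
    · exact absurd h2 (pow_ne_zero 2 hd0)
  subst hy
  have h2 : x * ((x - d) * (x + d)) = 0 := by linear_combination -hxy'
  rcases mul_eq_zero.mp h2 with h3 | h3
  · left
    rw [h3]
    rfl
  · rcases mul_eq_zero.mp h3 with h4 | h4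
    · right; left
      rw [sub_eq_zero.mp h4]
      rfl
    · right; right
      rw [eq_neg_of_add_eq_zero_left h4]
      rfl

/-- the points and all the central values -/
def GoodF (D : G) : Prop := (∀ j : ℕ, 0 < j → j < 4 → FinP D j) ∧ GoodQ D

theorem finP_good (r1 : S_R1) (r2 : S_R2) {A : Finset Pr}
    (hX : XX gs (fun _ => (1 : ℝ)) A = 2) (hch : ch A = -1) {j : ℕ} (h0 : 0 < j) (hj : j < 4) :
    FinP (-PA A) j := by
  have hA : PA A ≠ 0 := Pool.Agent.Y547.PP.PA_ne A
  have hD : -PA A ≠ 0 := neg_ne_zero.mpr hA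
  have hodd : ∀ j : ℕ, (j = 1 ∨ j = 3) → FinP (-PA A) j := fun j hj =>
    r2 ((-PA A) ^ j) (pow_ne_zero j hD) fun x y hx hxy =>
      r1 A hX hch (-PA A) (Or.inr rfl) j hj x y hx hxy
  interval_cases j
  · exact hodd 1 (Or.inl rfl)
  · exact finP_two hD (Pool.Agent.Y259.PP.goodP_neg (goodP_D hX hch))
  · exact hodd 3 (Or.inr rfl)

/-- **the density theorem** -/
theorem last4 (r1 : S_R1) (r2 : S_R2) (ε : ℝ) (hε : 0 < ε) : ∃ X₀ : ℝ, ∀ X : ℝ, X₀ ≤ X →
      (al - ε) * ((TwP X).ncard : ℝ) ≤ ({D ∈ TwP X | GoodF D}.ncard : ℝ) := by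
  obtain ⟨X₀, h⟩ := cnt.2.2 (fun D => GoodF (-D)) (fun A hX hch =>
    ⟨fun j h0 hj => finP_good r1 r2 hX hch h0 hj, goodQ_neg
      fun j hj m a b hm hab hc => good4 hX hch hj hm hab hc⟩) ε hε
  refine ⟨X₀, fun X hX => ?_⟩
  rw [TwP_card, TwP_sep, Set.ncard_image_of_injective _ neg_injective]
  exact h X hX

end Pool.Agent.Helper26K9.QT
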