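import Pool.Agent.Helper26K9.QT.Base

/-!
# Quartic twists: the values for `e = 0, 1`
-/

set_option autoImplicit false
set_option linter.unusedSectionVars false
set_option linter.unusedVariables false

open scoped PeriodPair

namespace Pool.Agent.Helper26K9.QT

open H667R3 Pool.Agent.TH936.CW Pool.Agent.Y690.NV Pool.Agent.Y690.AW Pool.Agent.W192.HK
open Pool.Agent.TH936.CM (IsLat out_sub)
open Pool.Agent.Helper26K9.XO
open Complex (I)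
open MvPolynomial (eval eval_C eval_X)

namespace ValL

variable {L : PeriodPair} {q : ℂ}

lemma alg1 {ρ w E η : ℂ} (hρ : ρ ^ 4 = 2) (hη : η ≠ 0) :
    ρ ^ 2 * (2 * E + (6 * ((1 + ρ ^ 3 * w) / 2) ^ 2 - -1 / 2) / (2 * η)) =
      (3 * w ^ 2 + (3 * (ρ * w) + ρ ^ 2)) * η⁻¹ + 2 * (ρ ^ 2 * E) := by
  field_simp
  linear_combination 2 * (3 * w ^ 2 * ρ ^ 4 + 6 * w ^ 2 + 6 * w * ρ) * hρ

lemma alg2 {ρ X η ε k : ℂ} (hρ : ρ ^ 4 = 2) (hρ0 : ρ ≠ 0)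
    (he1 : 2 * k = -(1 / 2 + (ε + (η + 1) * (1 / (X - 1)))) *
      (1 + 4 * (1 / (X - 1)) ^ 2 * (X + η)) +
      (1 + 2 * (1 / (X - 1))) * (1 + 4 * (1 / (X - 1)) + 4 * (1 / (X - 1)) ^ 2 * (η + 1))) :
    ρ ^ 2 * (2 ^ 1 * (((Nat.factorial 1 : ℕ) : ℂ) * k) - 1 / 2) =
      -(ρ ^ 2 * (ε + (η + 1) * (1 / (X - 1)))) +
      (-(ρ * ((ρ ^ 3 / (X - 1)) ^ 2 * (ρ ^ 2 * ((X - 1) / ρ ^ 3) + (η + 1) / ρ))) +
      (-((ρ ^ 2 * (ε + (η + 1) * (1 / (X - 1)))) * (ρ ^ 3 * ((ρ ^ 3 / (X - 1)) ^ 2 *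
        (ρ ^ 2 * ((X - 1) / ρ ^ 3) + (η + 1) / ρ)))) +
      ρ ^ 3 * ((ρ ^ 3 / (X - 1)) + (1 + ρ * (ρ ^ 3 / (X - 1))) * (ρ ^ 4 * (ρ ^ 3 / (X - 1)) +
        ρ ^ 2 * ((ρ ^ 3 / (X - 1)) ^ 2 * ((η + 1) / ρ)))))) := by
  have e0 : ρ ^ 2 * (2 ^ 1 * (((Nat.factorial 1 : ℕ) : ℂ) * k) - 1 / 2) =
      ρ ^ 2 * (2 * k - 1 / 2) := by
    simp
  rw [e0, he1]
  generalize hy : X - 1 = y at *
  have hX : X = y + 1 := by rw [← hy]; ring
  subst hX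
  obtain ⟨s, hs⟩ : ∃ s, s = 1 / y := ⟨_, rfl⟩
  have e1 : ρ ^ 3 / y = ρ ^ 3 * s := by rw [hs]; ring
  have e2 : ρ ^ 2 * (y / ρ ^ 3) + (η + 1) / ρ = (y + η + 1) / ρ := by
    field_simp
    ring
  rw [← hs, e1, e2]
  have e3 : ∀ a b : ℂ, ρ * (a * (b / ρ)) = a * b := by
    intro a b
    field_simp
  have e4 : ρ ^ 3 * ((ρ ^ 3 * s) ^ 2 * ((y + η + 1) / ρ)) =
      ρ ^ 2 * ((ρ ^ 3 * s) ^ 2 * (y + η + 1)) := by field_simp
  have e5 : ρ ^ 2 * ((ρ ^ 3 * s) ^ 2 * ((η + 1) / ρ)) =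
      ρ * ((ρ ^ 3 * s) ^ 2 * (η + 1)) := by field_simp
  rw [e3, e4, e5]
  linear_combination (ρ ^ 2 * s ^ 2 * (y + η + 1) + ρ ^ 2 * (ε + (η + 1) * s) * s ^ 2 *
    (y + η + 1) * (ρ ^ 4 + 2) - ρ ^ 2 * s - ρ ^ 2 * (s + s ^ 2 * (η + 1)) *
    ((ρ ^ 4 + 2) + s * (ρ ^ 8 + 2 * ρ ^ 4 + 4))) * hρ

/-- the base value -/
lemma ek_T (g2 : L.g₂ = -1) {T : ℂ} (hT : TP L q 1 T) {e : ℕ} (he : e ≤ 1) :
    2 ^ e * ((e.factorial : ℂ) * ek L 0 q e T) = 1 / 2 := by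
  have h := val_T g2 hT 0 0 0 e
  have h2 : 2 ^ e * eval (pt 0 0 0) (Sg (-aφ) (Mq 1) e) = (1 : ℂ) := by
    interval_cases e
    · rw [Sg_zero, Mq_zero, map_one, pow_zero, one_mul]
    · rw [Sg_one, Mq_one, Mq_zero, Derivation.map_one_eq_zero, zero_add, mul_one]
      unfold aφ aB pt
      simp only [map_neg, map_mul, map_sub, map_one, map_ofNat, eval_X, eval_C]
      norm_num
  rw [h2] at h
  have h3 : (2 : ℂ) * (2 ^ e * ((e.factorial : ℂ) * ek L 0 q e T)) = 1 := by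
    rw [← h, pow_succ]; ring
  linear_combination (1 / 2) * h3

/-- `E1` at the points of odd order -/
lemma ev0 (g2 : L.g₂ = -1) {T Q : ℂ} (hT : TP L q 1 T)
    (hQ : Q ∉ L.lattice) (h1 : T + Q ∉ L.lattice) (h2 : T - Q ∉ L.lattice) :
    ek L 0 q 0 (T + Q) = 1 / 2 + (E1 L 0 q Q + (℘'[L] Q + 1) * (1 / (Xi L Q - 1))) := by
  have e2 := ek_eq (q := q) 0 h1
  rw [evU_ps g2 (Or.inl rfl) hT hQ h1 h2, Dn_zero, ps_E, Nat.factorial_zero] at e2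
  have e3 : ek L 0 q 0 (T + Q) = eval (pt (Xi L Q) (℘'[L] Q) (E1 L 0 q Q)) (pE 1) := by
    rw [← e2]; push_cast; ring
  rw [e3]
  unfold pE aE aH aT pt
  simp only [map_add, map_mul, eval_X, eval_C]
  simp only [Matrix.cons_val]
  ring

lemma ev1 (g2 : L.g₂ = -1) {T Q : ℂ} (hT : TP L q 1 T)
    (hQ : Q ∉ L.lattice) (h1 : T + Q ∉ L.lattice) (h2 : T - Q ∉ L.lattice) {t : ℂ}
    (ht : t = 1 / (Xi L Q - 1)) :
    2 * ek L 0 q 1 (T + Q) =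
      -(1 / 2 + (E1 L 0 q Q + (℘'[L] Q + 1) * t)) * (1 + 4 * t ^ 2 * (Xi L Q + ℘'[L] Q)) +
      (1 + 2 * t) * (1 + 4 * t + 4 * t ^ 2 * (℘'[L] Q + 1)) := by
  have e2 := ek_eq (q := q) 1 h1
  rw [evU_ps g2 (Or.inl rfl) hT hQ h1 h2, Dn_one, dt_E, map_neg, map_add, map_mul, ps_E, ps_X,
    ps_Y, Nat.factorial_one] at e2
  have e3 : ek L 0 q 1 (T + Q) = eval (pt (Xi L Q) (℘'[L] Q) (E1 L 0 q Q))
      (-(pE 1 * pX 1 + pY 1)) := by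
    rw [← e2]; push_cast; ring
  rw [e3]
  unfold pE pX pY aE aH aT aX aB pt
  simp only [map_add, map_mul, map_neg, map_one, map_ofNat, map_pow, eval_X, eval_C]
  simp only [Matrix.cons_val]
  rw [← ht]
  ring

section val

variable {Γ : Type*} [LinearOrderedCommGroupWithZero Γ] {v : Valuation ℂ Γ} {ρ : ℂ}

lemma lt_add {a b : ℂ} (h : v a < 1) (h' : v b < 1) : v (a + b) < 1 :=
  (v.map_add _ _).trans_lt (max_lt h h')

lemma le_add {a b : ℂ} (h : v a ≤ 1) (h' : v b ≤ 1) : v (a + b) ≤ 1 :=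
  (v.map_add _ _).trans (max_le h h')

lemma le_mul {a b : ℂ} (h : v a ≤ 1) (h' : v b ≤ 1) : v (a * b) ≤ 1 := by
  rw [map_mul]
  exact mul_le_one' h h'

lemma lt_mul {a b : ℂ} (h : v a < 1) (h' : v b ≤ 1) : v (a * b) < 1 := by
  rw [map_mul]
  exact mul_lt_one_of_lt_of_le h h'

variable (hρ : ρ ^ 4 = 2) (hr : v ρ < 1)

include hρ hr in
lemma three : N1 v (3 : ℂ) := by
  unfold N1
  rw [show (3 : ℂ) - 1 = 2 by norm_num]
  exact two_lt hρ hr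

/-- the estimate of the first part -/
lemma key0 (hL : CM L) (g2 : L.g₂ = -1) {z : ℂ} (hz : OT L z) (hρ : ρ ^ 4 = 2) (hr : v ρ < 1) :
    N1 v ((℘'[L] z + 1) / ρ) := by
  have h2 := two_lt hρ hr
  have hp := rho_pos (v := v) hρ
  have hρ0 : ρ ≠ 0 := rho_ne hρ
  have hs := N1_inv (N1_sig hL g2 hρ hr hz)
  have hc := curve hL g2 hz.1
  have hη := N1_eta hL g2 hρ hr hz
  rw [inv_div] at hs
  set w : ℂ := (Xi L z - 1) / ρ ^ 3 with hwd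
  have hX : Xi L z = 1 + ρ ^ 3 * w := by
    rw [hwd]
    field_simp
    ring
  refine N1.of_sq h2 ?_
  have hrk : ∀ k : ℕ, k ≠ 0 → v (ρ ^ k) < 1 := fun k hk => by
    rw [map_pow]; exact pow_lt_one' hr hk
  have e : ((℘'[L] z + 1) / ρ) ^ 2 = 3 * w ^ 2 + (ρ ^ 3 * w ^ 3 + (ρ ^ 5 * w + ρ ^ 2 *
      (℘'[L] z + 1))) := by
    rw [div_pow, div_eq_iff (pow_ne_zero _ hρ0)]
    rw [hX] at hc
    have h3 : (2 : ℂ) * (℘'[L] z + 1) ^ 2 = 2 * ((3 * w ^ 2 + (ρ ^ 3 * w ^ 3 + (ρ ^ 5 * w + ρ ^ 2 *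
      (℘'[L] z + 1)))) * ρ ^ 2) := by
      linear_combination hc + (ρ ^ 5 * w ^ 3 + 3 * ρ ^ 2 * w ^ 2 - 2 * ρ ^ 3 * w -
        2 * (℘'[L] z + 1)) * hρ
    exact mul_left_cancel₀ two_ne_zero h3
  rw [e]
  refine (((three hρ hr).mul (hs.pow 2))).add (lt_add ?_ (lt_add ?_ ?_))
  · exact lt_mul (hrk 3 (by norm_num)) (by rw [map_pow, hs.val, one_pow])
  · exact lt_mul (hrk 5 (by norm_num)) hs.val.le
  · exact lt_mul (hrk 2 (by norm_num)) (le_add hη.val.le (by rw [map_one]))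

lemma half {z : ℂ} (hz : OT L z) : ∃ y : ℂ, OT L y ∧ 2 * y - z ∈ L.lattice := by
  obtain ⟨d, hd, hd2⟩ := hz.per
  obtain ⟨k, rfl⟩ : ∃ k, d = k + 1 := ⟨d - 1, by omega⟩
  refine ⟨2 ^ k * z, hz.pow k, ?_⟩
  rw [← mul_assoc, ← pow_succ']
  exact hd2

lemma keyE (hL : CM L) (g2 : L.g₂ = -1)
    (hq : ∀ l ∈ L.lattice, eta L l = 0 * l + q * (starRingEnd ℂ) l) {z : ℂ} (hz : OT L z)
    (hρ : ρ ^ 4 = 2) (hr : v ρ < 1) : N1 v (ρ ^ 2 * E1 L 0 q z) := by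
  obtain ⟨y, hy, hyz⟩ := half hz
  have h2 := two_lt hρ hr
  have hρ0 : ρ ≠ 0 := rho_ne hρ
  have h3 := wp'_ne_zero L hy.two.1
  have h4 := E1_dup (q := q) hy.two.1
  have h5 : E1 L 0 q (2 * y) = E1 L 0 q z := E1_per' hq hz.1 hyz
  have hs := N1_inv (N1_sig hL g2 hρ hr hy)
  have hη := N1_eta hL g2 hρ hr hy
  rw [inv_div] at hs
  set w : ℂ := (Xi L y - 1) / ρ ^ 3 with hwd
  have hX : Xi L y = 1 + ρ ^ 3 * w := by
    rw [hwd]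
    field_simp
    ring
  have hP : ℘[L] y = (1 + ρ ^ 3 * w) / 2 := by
    rw [← hX]; unfold Xi; ring
  have e : ρ ^ 2 * E1 L 0 q z = (3 * w ^ 2 + (3 * (ρ * w) + ρ ^ 2)) * (℘'[L] y)⁻¹ +
      2 * (ρ ^ 2 * E1 L 0 q y) := by
    rw [← h5, h4, g2, hP]
    exact alg1 hρ h3
  rw [e]
  refine N1.add (N1.mul ?_ (N1_inv hη)) (lt_mul h2 (E1_le hL g2 hρ hr hq hy))
  refine ((three hρ hr).mul (hs.pow 2)).add (lt_add ?_ ?_)
  · rw [mul_left_comm]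
    exact lt_mul hr (le_mul (three hρ hr).val.le hs.val.le)
  · rw [map_pow]
    exact pow_lt_one' hr two_ne_zero

lemma keyF (hL : CM L) (g2 : L.g₂ = -1)
    (hq : ∀ l ∈ L.lattice, eta L l = 0 * l + q * (starRingEnd ℂ) l) {z : ℂ} (hz : OT L z)
    (hρ : ρ ^ 4 = 2) (hr : v ρ < 1) :
    v (ρ ^ 2 * (E1 L 0 q z + (℘'[L] z + 1) * (1 / (Xi L z - 1)))) < 1 := by
  have h2 := two_lt hρ hr
  have hρ0 : ρ ≠ 0 := rho_ne hρ
  have ha := keyE hL g2 hq hz hρ hr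
  have hb := (N1_sig hL g2 hρ hr hz).mul (key0 hL g2 hz hρ hr)
  have e : ρ ^ 2 * (E1 L 0 q z + (℘'[L] z + 1) * (1 / (Xi L z - 1))) =
      (ρ ^ 2 * E1 L 0 q z - 1) + (ρ ^ 3 / (Xi L z - 1) * ((℘'[L] z + 1) / ρ) - 1) + 2 := by
    field_simp
    ring
  rw [e]
  exact lt_add (lt_add ha hb) h2

end val

end ValL

open ValL

theorem val : S_VAL := by
  intro R hR L q Ω hL hCM g2 hq hT e he
  have hTL : Ω / (2 + 2 * I) ∉ L.lattice := two_mul_notMem_of L hT.nm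
  have base : ∀ D r : R, Pri D → r ∈ sp D → G4 L q Ω e D r = 1 / 2 := by
    intro D r hD hr
    have h1 := (lat_dm_iff hL D (hD.ne hR) _).2 hr
    unfold G4
    rw [ek_per hq e hTL (w := Ω / (2 + 2 * I) + Ω * r / D) (by rwa [add_sub_cancel_left])]
    exact ek_T g2 hT he
  refine ⟨base, ?_⟩
  intro Γ _ v ρ hρ hr D r hD
  by_cases hrD : r ∈ sp D
  · rw [base D r hD hrD, base D (-r) hD (neg_mem hrD)]
    norm_num
  have hQ := OT_Q hR hL hD hrD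
  have h1 := hT.add hQ
  have h2 := hT.sub hQ
  have hneg : Ω / (2 + 2 * I) + Ω * ((-r : R) : ℂ) / D = Ω / (2 + 2 * I) - Ω * r / D := by
    push_cast; ring
  have hρ0 : ρ ≠ 0 := rho_ne hρ
  refine ⟨?_, ?_⟩
  · unfold G4
    have hF := keyF hCM g2 hq hQ hρ hr
    interval_cases e
    · rw [ev0 g2 hT hQ.1 h1 h2, Nat.factorial_zero]
      have e : ρ ^ 2 * (2 ^ 0 * (((1 : ℕ) : ℂ) * (1 / 2 + (E1 L 0 q (Ω * r / D) +
          (℘'[L] (Ω * r / D) + 1) * (1 / (Xi L (Ω * r / D) - 1))))) - 1 / 2) =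
          ρ ^ 2 * (E1 L 0 q (Ω * r / D) + (℘'[L] (Ω * r / D) + 1) *
            (1 / (Xi L (Ω * r / D) - 1))) := by
        push_cast; ring
      rw [e]
      exact hF
    · have hw := Xi_sub (v := v) hCM g2 hρ hr hQ
      have hσ := N1_sig hCM g2 hρ hr hQ
      have hh := key0 hCM g2 hQ hρ hr
      have hx : Xi L (Ω * r / D) - 1 ≠ 0 := by
        intro h
        rw [h, map_zero] at hw
        exact (pow_pos (rho_pos (v := v) hρ) 3).ne hw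
      have hws := N1_inv hσ
      rw [inv_div] at hws
      have he1 := ev1 g2 hT hQ.1 h1 h2 rfl
      set F : ℂ := ρ ^ 2 * (E1 L 0 q (Ω * r / D) + (℘'[L] (Ω * r / D) + 1) *
            (1 / (Xi L (Ω * r / D) - 1))) with hFd
      set σ : ℂ := ρ ^ 3 / (Xi L (Ω * r / D) - 1) with hσd
      set h : ℂ := (℘'[L] (Ω * r / D) + 1) / ρ with hhd
      set w : ℂ := (Xi L (Ω * r / D) - 1) / ρ ^ 3 with hwd
      have e : ρ ^ 2 * (2 ^ 1 * (((Nat.factorial 1 : ℕ) : ℂ) *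
          ek L 0 q 1 (Ω / (2 + 2 * I) + Ω * r / D)) - 1 / 2) =
          -F + (-(ρ * (σ ^ 2 * (ρ ^ 2 * w + h))) + (-(F * (ρ ^ 3 * (σ ^ 2 * (ρ ^ 2 * w + h)))) +
          ρ ^ 3 * (σ + (1 + ρ * σ) * (ρ ^ 4 * σ + ρ ^ 2 * (σ ^ 2 * h))))) :=
        alg2 hρ hρ0 he1
      rw [e]
      have hρ1 : ∀ k : ℕ, v (ρ ^ k) ≤ 1 := fun k => by rw [map_pow]; exact pow_le_one' hr.le k
      have hρ3 : v (ρ ^ 3) < 1 := by rw [map_pow]; exact pow_lt_one' hr (by norm_num)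
      have hσ1 : v (σ ^ 2) ≤ 1 := by rw [map_pow, hσ.val, one_pow]
      have hb : v (σ ^ 2 * (ρ ^ 2 * w + h)) ≤ 1 :=
        le_mul hσ1 (le_add (le_mul (hρ1 2) hws.val.le) hh.val.le)
      refine lt_add ?_ (lt_add ?_ (lt_add ?_ ?_))
      · rw [Valuation.map_neg]; exact hF
      · rw [Valuation.map_neg]; exact lt_mul hr hb
      · rw [Valuation.map_neg]; exact lt_mul hF (le_mul (hρ1 3) hb)
      · refine lt_mul hρ3 (le_add hσ.val.le (le_mul (le_add (by rw [map_one])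
          (le_mul hr.le hσ.val.le)) (le_add (le_mul (hρ1 4) hσ.val.le)
          (le_mul (hρ1 2) (le_mul hσ1 hh.val.le)))))
  · have hm : e = 4 * 0 ∨ e = 4 * 0 + 1 := by omega
    have h3 := est_pair hρ hr hCM g2 hq hT hQ 0 e hm
    have h4 := ek_T g2 hT he
    have e1 : G4 L q Ω e D r + G4 L q Ω e D (-r) - 1 =
        2 ^ e * ((e.factorial : ℂ) * (ek L 0 q e (Ω / (2 + 2 * I) + Ω * r / D) +
        ek L 0 q e (Ω / (2 + 2 * I) - Ω * r / D))) -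
        2 ^ (e + 1) * ((e.factorial : ℂ) * ek L 0 q e (Ω / (2 + 2 * I))) := by
      unfold G4
      rw [hneg, pow_succ]
      linear_combination 2 * h4
    rw [e1]
    refine h3.trans_lt ?_
    rw [mul_zero, zero_add, pow_one]
    exact hr

end Pool.Agent.Helper26K9.QT
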