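import Pool.Agent.Helper26K9.QT.Base

/-!
# Quartic twists: the bounds for the products (leaf KB)
-/

set_option autoImplicit false
set_option linter.unusedSectionVars false

open scoped PeriodPair

namespace Pool.Agent.Helper26K9.QT

open H667R3 Pool.Agent.TH936.CW Pool.Agent.Y690.NV Pool.Agent.Y690.AW Pool.Agent.W192.HK
open Pool.Agent.Helper26K9.XO
open Complex (I)

namespace KbL

section val

variable {Γ : Type} [LinearOrderedCommGroupWithZero Γ] (v : Valuation ℂ Γ)

theorem v_I : v I = 1 := by
  have h : v I ^ 2 = 1 := by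
    rw [← map_pow, Complex.I_sq, Valuation.map_neg, map_one]
  exact (pow_eq_one_iff.1 h).resolve_right (by norm_num)

theorem v_sq : v (1 + I) ^ 2 = v 2 := by
  rw [← map_pow]
  have h : (1 + I) ^ 2 = 2 * I := by linear_combination Complex.I_sq
  rw [h, map_mul, v_I, mul_one]

theorem v_lt (h2 : v 2 < 1) : v (1 + I) < 1 := by
  by_contra h
  push Not at h
  have h3 : 1 ≤ v (1 + I) ^ 2 := one_le_pow₀ h
  rw [v_sq] at h3
  exact absurd h2 (not_lt.2 h3)

theorem v_sub : v (1 - I) = v (1 + I) := by
  have h : (1 - I) = -(I * (1 + I)) := by linear_combination Complex.I_sq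
  rw [h, Valuation.map_neg, map_mul, v_I, one_mul]

theorem v_two_le (h2 : v 2 < 1) : v 2 ≤ v (1 + I) := by
  rw [← v_sq, pow_two]
  calc v (1 + I) * v (1 + I) ≤ v (1 + I) * 1 :=
        mul_le_mul_right (v_lt v h2).le _
    _ = v (1 + I) := mul_one _

end val

variable {R : Subring ℂ}

theorem root {x : R → R → ℂ} {p : R} (h : XC x p) {α : R} (hα : α ∉ sp p) :
    x p α = 1 ∨ x p α = -1 ∨ x p α = I ∨ x p α = -I := by
  have h1 : (x p α ^ 2) ^ 2 = 1 := by
    rw [h.sq]
    unfold qs
    rw [if_neg hα]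
    split_ifs <;> norm_num
  have h2 : (x p α - 1) * (x p α + 1) * ((x p α - I) * (x p α + I)) = 0 := by
    linear_combination h1 + (-(x p α) ^ 2 + 1) * Complex.I_sq
  rcases mul_eq_zero.1 h2 with h3 | h3
  · rcases mul_eq_zero.1 h3 with h4 | h4
    · exact Or.inl (sub_eq_zero.1 h4)
    · exact Or.inr (Or.inl (eq_neg_of_add_eq_zero_left h4))
  · rcases mul_eq_zero.1 h3 with h4 | h4
    · exact Or.inr (Or.inr (Or.inl (sub_eq_zero.1 h4)))
    · exact Or.inr (Or.inr (Or.inr (eq_neg_of_add_eq_zero_left h4)))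

theorem neg_one {x : R → R → ℂ} {p : R} (h : XC x p) : x p (-1) = 1 ∨ x p (-1) = -1 := by
  have h1 : x p (-1) * x p (-1) = 1 := by
    rw [← h.mul, neg_mul_neg, one_mul, h.one]
  exact mul_self_eq_one_iff.1 h1

theorem cpI_neg (p r : R) : cpI p (-r) = cpI p r := by
  unfold cpI
  by_cases hr : r ∈ sp p
  · rw [if_pos hr, if_pos ((sp p).neg_mem hr)]
  · rw [if_neg hr, if_neg fun h3 => hr (by
      have := (sp p).neg_mem h3
      rwa [neg_neg] at this)]

variable {Γ : Type} [LinearOrderedCommGroupWithZero Γ] (v : Valuation ℂ Γ) (h2 : v 2 < 1)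

include h2 in
theorem fac {x : R → R → ℂ} {p : R} (h : XC x p) (r : R) :
    v (x p r + cpI p r) ≤ v (1 + I) := by
  unfold cpI
  by_cases hr : r ∈ sp p
  · rw [if_pos hr, (h.zero r).2 hr, add_zero, map_zero]
    exact zero_le
  · rw [if_neg hr]
    rcases root h hr with h1 | h1 | h1 | h1 <;> rw [h1]
    · rw [one_add_one_eq_two]
      exact v_two_le v h2
    · rw [neg_add_cancel, map_zero]
      exact zero_le
    · rw [add_comm]
    · rw [neg_add_eq_sub, v_sub]

include h2 in
theorem fac_sub {x : R → R → ℂ} {p : R} (h : XC x p) (r : R) :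
    v ((x p r + cpI p r) - (x p (-r) + cpI p (-r))) ≤ v (1 + I) ^ 2 := by
  rw [cpI_neg, add_sub_add_right_eq_sub]
  have h1 : x p (-r) = x p (-1) * x p r := by rw [← h.mul, neg_one_mul]
  rw [h1]
  rcases neg_one h with h3 | h3 <;> rw [h3]
  · rw [one_mul, sub_self, map_zero]
    exact zero_le
  · have h4 : x p r - -1 * x p r = 2 * x p r := by ring
    rw [h4, map_mul, v_sq]
    have h5 : v (x p r) ≤ 1 := by
      by_cases hr : r ∈ sp p
      · rw [(h.zero r).2 hr, map_zero]
        exact zero_le
      · rcases root h hr with h1 | h1 | h1 | h1 <;> rw [h1]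
        · rw [map_one]
        · rw [Valuation.map_neg, map_one]
        · rw [v_I]
        · rw [Valuation.map_neg, v_I]
    calc v 2 * v (x p r) ≤ v 2 * 1 := mul_le_mul_right h5 _
      _ = v 2 := mul_one _

end KbL

open KbL in
theorem kb : S_KB := by
  classical
  intro R x U hU Γ _ v h2 r
  induction U using Finset.induction_on with
  | empty =>
    unfold kx
    refine ⟨by simp, ?_⟩
    rw [Finset.prod_empty, Finset.prod_empty, sub_self, map_zero]
    exact zero_le
  | insert p U hp ih =>
    obtain ⟨ih1, ih2⟩ := ih (fun q hq => hU q (Finset.mem_insert_of_mem hq))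
    have hX := hU p (Finset.mem_insert_self _ _)
    have e1 : ∀ r : R, kx x (insert p U) r = (x p r + cpI p r) * kx x U r := by
      intro r
      unfold kx
      rw [Finset.prod_insert hp]
    have hf := fac v h2 hX r
    have hfs := fac_sub v h2 hX r
    have hg0 : (0 : Γ) ≤ v (1 + I) := zero_le
    rw [Finset.card_insert_of_notMem hp]
    constructor
    · rw [e1, map_mul, pow_succ, mul_comm]
      exact mul_le_mul' ih1 hf
    · rw [e1, e1]
      have e2 : (x p r + cpI p r) * kx x U r - (x p (-r) + cpI p (-r)) * kx x U (-r)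
          = (x p (-r) + cpI p (-r)) * (kx x U r - kx x U (-r)) +
            ((x p r + cpI p r) - (x p (-r) + cpI p (-r))) * kx x U r := by ring
      rw [e2]
      refine (Valuation.map_add_le v (g := v (1 + I) ^ (U.card + 1 + 1)) ?_ ?_)
      · rw [map_mul, pow_succ, mul_comm]
        exact mul_le_mul' ih2 (fac v h2 hX (-r))
      · rw [map_mul, show U.card + 1 + 1 = 2 + U.card by ring, pow_add]
        exact mul_le_mul' hfs ih1

end Pool.Agent.Helper26K9.QT
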