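import Pool.Agent.Helper26K9.QT.Base

/-!
# The sieve for quartic characters
-/

set_option autoImplicit false
set_option linter.unusedSectionVars false
set_option linter.unusedSimpArgs false

namespace Pool.Agent.Helper26K9.QT

open H667R3 Pool.Agent.TH936.CW Pool.Agent.Y690.NV Pool.Agent.Y690.AW Pool.Agent.W192.HK
open Pool.Agent.TH936.CM (IsLat out_sub)
open Pool.Agent.Helper26K9.XO
open Complex (I)

variable {R : Subring ℂ} (hR : ∀ z : ℂ, z ∈ R ↔ ∃ x y : ℤ, z = x + y * I)

namespace Sv

include hR in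
lemma dd_od {x : R → R → ℂ} {V : Finset R} (h : ∀ p ∈ V, XC x p) : Pri (dd V) :=
  Pri.prod hR fun p hp => (h p hp).od

lemma cpI_mul {p : R} (h : (sp p).IsMaximal) (r s : R) : cpI p (r * s) = cpI p r * cpI p s := by
  have := h.isPrime
  unfold cpI
  have : r * s ∈ sp p ↔ r ∈ sp p ∨ s ∈ sp p :=
    ⟨fun h1 => Ideal.IsPrime.mem_or_mem this h1, fun h1 => h1.elim
      (fun h2 => (sp p).mul_mem_right _ h2) (fun h2 => (sp p).mul_mem_left _ h2)⟩
  by_cases h1 : r ∈ sp p
  · rw [if_pos (this.mpr (Or.inl h1)), if_pos h1, zero_mul]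
  · by_cases h2 : s ∈ sp p
    · rw [if_pos (this.mpr (Or.inr h2)), if_pos h2, mul_zero]
    · rw [if_neg (fun h3 => (this.mp h3).elim h1 h2), if_neg h1, if_neg h2, mul_one]

lemma cx_mul {x : R → R → ℂ} {V : Finset R} (h : ∀ p ∈ V, XC x p) (r s : R) :
    cx x V (r * s) = cx x V r * cx x V s := by
  unfold cx
  rw [← Finset.prod_mul_distrib]
  exact Finset.prod_congr rfl fun p hp => (h p hp).mul r s

lemma cx_per {x : R → R → ℂ} {V : Finset R} (h : ∀ p ∈ V, XC x p) {r s : R}
    (hrs : r - s ∈ sp (dd V)) : cx x V r = cx x V s :=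
  Finset.prod_congr rfl fun p hp => (h p hp).per r s (mem_dd hp hrs)

lemma cpS_mul {x : R → R → ℂ} {V : Finset R} (h : ∀ p ∈ V, XC x p) (r s : R) :
    cpS V (r * s) = cpS V r * cpS V s := by
  unfold cpS
  rw [← Finset.prod_mul_distrib]
  exact Finset.prod_congr rfl fun p hp => cpI_mul (h p hp).max r s

include hR in
theorem sieve_set {G : R → R → ℂ} {c : R → ℂ} (h : DS G c) {x : R → R → ℂ} {U V : Finset R}
    (hU : ∀ p ∈ U, XC x p) (hd : Dst U) (hV : V ⊆ U) (W : Finset R) (hW : W ⊆ U)
    (hVW : Disjoint V W) :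
    Ts G (dd V * dd W) (fun r => cx x V r * cpS W r) =
      (∏ p ∈ W, (c p - cx x V p)) * Ts G (dd V) (cx x V) := by
  classical
  induction W using Finset.induction_on with
  | empty =>
    have e1 : dd (∅ : Finset R) = 1 := Finset.prod_empty
    have e2 : ∀ r : R, cpS (∅ : Finset R) r = 1 := fun r => Finset.prod_empty
    rw [e1, mul_one, Finset.prod_empty, one_mul]
    simp only [e2, mul_one]
  | insert p W hpW ih =>
    have hp : p ∈ U := hW (Finset.mem_insert_self _ _)
    have hW' : W ⊆ U := fun x hx => hW (Finset.mem_insert_of_mem hx)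
    have hVW' : Disjoint V W := (Finset.disjoint_insert_right.mp hVW).2
    have hpV : p ∉ V := (Finset.disjoint_insert_right.mp hVW).1
    have e1 : dd V * dd (insert p W) = (dd V * dd W) * p := by
      unfold dd
      rw [Finset.prod_insert hpW]
      ring
    have e2 : (fun r => cx x V r * cpS (insert p W) r) =
        fun r => (cx x V r * cpS W r) * cpI p r := by
      funext r
      unfold cpS
      rw [Finset.prod_insert hpW]
      ring
    have hVQ : ∀ y ∈ V, XC x y := fun y hy => hU y (hV hy)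
    have hWQ : ∀ y ∈ W, XC x y := fun y hy => hU y (hW' hy)
    have e3 : cpS W p = 1 := by
      unfold cpS
      refine Finset.prod_eq_one fun s hs => ?_
      unfold cpI
      rw [if_neg (hd p hp s (hW' hs) (fun h => hpW (h ▸ hs)))]
    rw [e1, e2, sieve hR h ((dd_od hR hVQ).mul hR (dd_od hR hWQ)) (hU p hp).od
      (g := fun r => cx x V r * cpS W r), ih hW' hVW', Finset.prod_insert hpW, e3, mul_one,
      mul_assoc]
    · intro r s hrs
      rw [cx_per hVQ (mem_sp_mul_left hrs), cpS_per (mem_sp_mul_right hrs)]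
    · intro r
      rw [cx_mul hVQ, cpS_mul hWQ]
      ring

end Sv

open Classical in
theorem sv : S_SV := by
  intro R hR G c h x U hU hd
  have e1 : ∀ V ∈ U.powerset, (∏ p ∈ U \ V, (c p - cx x V p)) * TX x G V =
      Ts G (dd U) (fun r => cx x V r * cpS (U \ V) r) := by
    intro V hV
    rw [Finset.mem_powerset] at hV
    have h1 := Sv.sieve_set hR h hU hd hV (U \ V) Finset.sdiff_subset Finset.disjoint_sdiff
    unfold TX
    rw [← h1]
    congr 1
    unfold dd
    rw [mul_comm]
    exact Finset.prod_sdiff hV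
  rw [Finset.sum_congr rfl e1]
  have := h.fin _ (Sv.dd_od hR hU)
  have := Fintype.ofFinite (R ⧸ sp (dd U))
  unfold Ts
  simp only [rs_eq]
  rw [Finset.sum_comm]
  refine Finset.sum_congr rfl fun w _ => ?_
  rw [← Finset.sum_mul]
  congr 1
  unfold kx
  rw [Finset.prod_add]
  rfl

end Pool.Agent.Helper26K9.QT
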