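import Pool.Agent.Helper26K9.XO.Crit

/-!
# Quartic twists: definitions
-/

set_option autoImplicit false
set_option linter.unusedSectionVars false
set_option linter.unusedVariables false

open scoped PeriodPair

namespace Pool.Agent.Helper26K9.QT

open H667R3 Pool.Agent.TH936.CW Pool.Agent.Y690.NV Pool.Agent.Y690.AW Pool.Agent.W192.HK
open Pool.Agent.TH936.CM (IsLat out_sub)
open Pool.Agent.Helper26K9.XO
open Complex (I)

variable {R : Subring ℂ}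

/-- `x p` is a character modulo the prime `p` whose square is the quadratic residue symbol -/
structure XC (x : R → R → ℂ) (p : R) : Prop where
  od : Pri p
  max : (sp p).IsMaximal
  mul : ∀ α β : R, x p (α * β) = x p α * x p β
  one : x p 1 = 1
  per : ∀ α β : R, α - β ∈ sp p → x p α = x p β
  zero : ∀ α : R, x p α = 0 ↔ α ∈ sp p
  sq : ∀ α : R, x p α ^ 2 = ((qs p α : ℤ) : ℂ)

/-- the product of the characters -/
noncomputable def cx (x : R → R → ℂ) (V : Finset R) (r : R) : ℂ := ∏ p ∈ V, x p r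

/-- the product of the `x p + 1` -/
noncomputable def kx (x : R → R → ℂ) (V : Finset R) (r : R) : ℂ := ∏ p ∈ V, (x p r + cpI p r)

/-- the twisted sum -/
noncomputable def TX (x : R → R → ℂ) (G : R → R → ℂ) (V : Finset R) : ℂ := Ts G (dd V) (cx x V)

open Classical in
/-- the quartic residue symbol -/
noncomputable def x4 (p α : R) : ℂ :=
  if h : ∃ u : R, u ^ 4 = 1 ∧ α ^ ((Nat.card (R ⧸ sp p) - 1) / 4) - u ∈ sp p then
    ((Classical.choose h : R) : ℂ) else 0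

/-- the values at the points `T + Ω r / D` -/
noncomputable def G4 (L : PeriodPair) (q Ω : ℂ) (e : ℕ) (D r : R) : ℂ :=
  2 ^ e * ((e.factorial : ℂ) * ek L 0 q e (Ω / (2 + 2 * I) + Ω * r / D))

/-! ### the leaves -/

/-- Q4: the quartic residue symbol is a character whose square is the quadratic symbol -/
def S_Q4 : Prop := ∀ (R : Subring ℂ), (∀ z : ℂ, z ∈ R ↔ ∃ x y : ℤ, z = x + y * I) → H_BASIC →
  ∀ p : R, Prime p → Pri p → XC x4 p

open Classical in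
/-- SV: the sieve -/
def S_SV : Prop := ∀ (R : Subring ℂ), (∀ z : ℂ, z ∈ R ↔ ∃ x y : ℤ, z = x + y * I) →
  ∀ (G : R → R → ℂ) (c : R → ℂ), DS G c → ∀ (x : R → R → ℂ) (U : Finset R),
  (∀ p ∈ U, XC x p) → Dst U →
    Ts G (dd U) (kx x U) = ∑ V ∈ U.powerset, (∏ p ∈ U \ V, (c p - cx x V p)) * TX x G V

/-- SM: the number of classes -/
def S_SM : Prop := ∀ (R : Subring ℂ), (∀ z : ℂ, z ∈ R ↔ ∃ x y : ℤ, z = x + y * I) → H_BASIC →
  ∀ (x : R → R → ℂ) (U : Finset R), (∀ p ∈ U, Prime p ∧ XC x p) → Dst U →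
    rs (dd U) (kx x U) = ∏ p ∈ U, ((Nat.card (R ⧸ sp p) : ℂ) - 1)

/-- KB: the bounds for the products -/
def S_KB : Prop := ∀ (R : Subring ℂ) (x : R → R → ℂ) (U : Finset R), (∀ p ∈ U, XC x p) →
  ∀ (Γ : Type) (_ : LinearOrderedCommGroupWithZero Γ) (v : Valuation ℂ Γ), v 2 < 1 → ∀ r : R,
    v (kx x U r) ≤ v (1 + I) ^ U.card ∧
    v (kx x U r - kx x U (-r)) ≤ v (1 + I) ^ (U.card + 1)

/-- VAL: the values for `e = 0, 1` -/
def S_VAL : Prop := ∀ (R : Subring ℂ), (∀ z : ℂ, z ∈ R ↔ ∃ x y : ℤ, z = x + y * I) →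
  ∀ (L : PeriodPair) (q Ω : ℂ), IsLat L R Ω → H667R3.CM L → L.g₂ = -1 →
  (∀ l ∈ L.lattice, eta L l = 0 * l + q * (starRingEnd ℂ) l) → TP L q 1 (Ω / (2 + 2 * I)) →
  ∀ e : ℕ, e ≤ 1 → (∀ D r : R, Pri D → r ∈ sp D → G4 L q Ω e D r = 1 / 2) ∧
    ∀ (Γ : Type) (_ : LinearOrderedCommGroupWithZero Γ) (v : Valuation ℂ Γ) (ρ : ℂ), ρ ^ 4 = 2 →
      v ρ < 1 → ∀ D r : R, Pri D → v (ρ ^ 2 * (G4 L q Ω e D r - 1 / 2)) < 1 ∧
        v (G4 L q Ω e D r + G4 L q Ω e D (-r) - 1) < 1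

/-- NVG: the nonvanishing for a general modulus -/
def S_NVG : Prop := H_BASIC → H_FP → H_CNT → H_DEC → H_AFE → ∀ (R : Subring ℂ),
  (∀ z : ℂ, z ∈ R ↔ ∃ x y : ℤ, z = x + y * I) → ∀ (L : PeriodPair) (Ω q : ℂ), IsLat L R Ω →
  H667R3.CM L → (∀ l ∈ L.lattice, eta L l = 0 * l + q * (starRingEnd ℂ) l) →
  ∀ (μ : R) (e : ℕ) (θ : Ideal R → ℂ), μ ≠ 0 → sp μ ≠ ⊤ → HC (2 * e + 1) (sp μ) θ →
    rs μ (fun x => (starRingEnd ℂ) (θ (sp x) / (x : ℂ) ^ (2 * e + 1)) * ek L 0 q e (Ω * x / μ)) ≠ 0 →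
    NVan e θ

end Pool.Agent.Helper26K9.QT
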