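import Pool.Agent.Helper26K9.QT.StmC

/-!
# Quartic twists: the counting
-/

set_option autoImplicit false

open Finset Filter

namespace Pool.Agent.Helper26K9.QT

open Pool.Agent.Y690.PP Pool.Agent.Y690.PP.Fn Pool.Agent.Helper26K9.DN

namespace Cnt

theorem ch_eq (A : Finset Pr) : ch A = (gi (PA A) : ℝ) := (gi_prod A).symm

theorem la_four : la ∣ (4 : G) := by
  refine ⟨⟨2, -2⟩, ?_⟩
  unfold la
  decide

theorem not_la {D : G} (h : (4 : G) ∣ D - ⟨3, 2⟩) : ¬ la ∣ D := by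
  intro h1
  have h2 : la ∣ (⟨3, 2⟩ : G) := by
    have h3 := dvd_sub h1 (la_four.trans h)
    rwa [sub_sub_cancel] at h3
  obtain ⟨c, hc⟩ := h2
  have h4 := congrArg nm hc
  rw [Pool.Agent.Y692.PP.nm_mul, nm_la] at h4
  have h5 : nm (⟨3, 2⟩ : G) = 13 := by
    unfold nm
    rfl
  rw [h5] at h4
  omega

theorem prm_of {D : G} (h : (4 : G) ∣ D - ⟨3, 2⟩) : Prm D := by
  rw [prm_congr h]
  rw [Pool.Agent.Y427.PP.prm_iff]
  decide

theorem gi_of {D : G} (h : (4 : G) ∣ D - ⟨3, 2⟩) : gi D = -1 := by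
  rw [gi_congr h, gi_c]

theorem four_of_gi {D : G} (hD : Prm D) (h : gi D = -1) : (4 : G) ∣ D - ⟨3, 2⟩ := by
  rcases prm_cases hD with h1 | h1
  · exfalso
    rw [gi_congr h1, gi_one] at h
    norm_num at h
  · exact h1

theorem norm_le_iff (A : Finset Pr) (X : ℝ) : ((((PA A).norm : ℤ)) : ℝ) ≤ X ↔ A ∈ FF gN X := by
  rw [Pool.Agent.Y100.PP.norm_le, nm_PA, DN.mem_FF]

open Classical in
theorem TwC_eq (X : ℝ) :
    TwC X = PA '' (((FF gN X).filter fun A => ch A = -1 : Finset (Finset Pr)) : Set (Finset Pr)) := by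
  ext D
  constructor
  · rintro ⟨h1, h2, h3⟩
    obtain ⟨u, A, hu, hD⟩ := (odd_iff D).1 ⟨h1, not_la h2⟩
    have h4 : D = PA A := by
      refine Pool.Agent.Y427.PP.prm_assoc ?_ (prm_of h2) (prm_PA A)
      rw [hD]
      obtain ⟨w, rfl⟩ := hu
      exact Associated.symm ⟨w, by ring⟩
    refine ⟨A, ?_, h4.symm⟩
    rw [Finset.mem_coe, Finset.mem_filter]
    refine ⟨?_, ?_⟩
    · rw [← norm_le_iff, ← h4]
      exact h3
    · rw [ch_eq, ← h4, gi_of h2]
      norm_num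
  · rintro ⟨A, hA, rfl⟩
    rw [Finset.mem_coe, Finset.mem_filter] at hA
    refine ⟨Pool.Agent.Y37.PP.sqf_PA A, ?_, (norm_le_iff A X).2 hA.1⟩
    refine four_of_gi (prm_PA A) ?_
    have h := hA.2
    rw [ch_eq] at h
    exact_mod_cast h

theorem TwC_fin (X : ℝ) : (TwC X).Finite := by
  rw [TwC_eq]
  exact (Finset.finite_toSet _).image _

open Classical in
theorem TwC_card (X : ℝ) : (TwC X).ncard = #((FF gN X).filter fun A => ch A = -1) := by
  rw [TwC_eq, Set.ncard_image_of_injective _ PA_inj, Set.ncard_coe_finset]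

open Classical in
/-- the number is half of the number of all sets minus half of the sum of the signs -/
theorem card_eq (X : ℝ) : (#((FF gN X).filter fun A => ch A = -1) : ℝ) =
    (#(FF gN X) : ℝ) / 2 - (∑ A ∈ FF gN X, ch A) / 2 := by
  have h : ∀ A ∈ FF gN X, (if ch A = -1 then (1 : ℝ) else 0) = 1 / 2 - ch A / 2 := by
    intro A _
    rcases ch_val A with h | h
    · rw [h]
      norm_num
    · rw [if_pos h, h]
      norm_num
  rw [Finset.card_filter]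
  push_cast
  rw [Finset.sum_congr rfl h, Finset.sum_sub_distrib, Finset.sum_const, nsmul_eq_mul,
    ← Finset.sum_div]
  ring

/-- the sum of the signs is small -/
theorem sum_small (δ : ℝ) (hδ : 0 < δ) : ∃ x₀ : ℝ, 1 ≤ x₀ ∧ ∀ x : ℝ, x₀ ≤ x →
    |∑ A ∈ FF gN x, ch A| ≤ δ * #(FF gN x) := by
  obtain ⟨C, hC⟩ := t_ASYM
  obtain ⟨c, hc, h5⟩ := Pool.Agent.Y954.PP.t_A5 Pool.Agent.Y427.PP.t_FAC
  set K : ℝ := |C| / (δ * c) with hK
  have hK0 : 0 ≤ K := div_nonneg (abs_nonneg _) (by positivity)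
  refine ⟨max 1 (K ^ 4), le_max_left _ _, fun x hx => ?_⟩
  have hx1 : 1 ≤ x := (le_max_left _ _).trans hx
  have hx0 : 0 < x := by linarith
  have hxK : K ^ 4 ≤ x := (le_max_right _ _).trans hx
  have h1 : K ≤ x ^ (1 / 4 : ℝ) := by
    have h2 : (K ^ 4) ^ (1 / 4 : ℝ) ≤ x ^ (1 / 4 : ℝ) :=
      Real.rpow_le_rpow (by positivity) hxK (by norm_num)
    have h3 : (K ^ 4) ^ (1 / 4 : ℝ) = K := by
      have : (K ^ 4 : ℝ) = K ^ ((4 : ℕ) : ℝ) := (Real.rpow_natCast K 4).symm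
      rw [this, ← Real.rpow_mul hK0]
      norm_num
    rwa [h3] at h2
  have h2 : |C| ≤ δ * c * x ^ (1 / 4 : ℝ) := by
    rw [hK, div_le_iff₀ (by positivity)] at h1
    linarith
  refine ((hC x hx1).1).trans ?_
  have h3 : (0 : ℝ) ≤ x ^ (3 / 4 : ℝ) := by positivity
  have h4 : x ^ (1 / 4 : ℝ) * x ^ (3 / 4 : ℝ) = x := by
    rw [← Real.rpow_add hx0]
    norm_num
  calc C * x ^ (3 / 4 : ℝ) ≤ |C| * x ^ (3 / 4 : ℝ) :=
        mul_le_mul_of_nonneg_right (le_abs_self C) h3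
    _ ≤ δ * c * x ^ (1 / 4 : ℝ) * x ^ (3 / 4 : ℝ) := mul_le_mul_of_nonneg_right h2 h3
    _ = δ * (c * x) := by rw [mul_assoc, h4]; ring
    _ ≤ δ * #(FF gN x) := mul_le_mul_of_nonneg_left (h5 x hx1) hδ.le

end Cnt

open Cnt

open Classical in
theorem cnt : S_CNT := by
  refine ⟨TwC_fin, ?_, ?_⟩
  · obtain ⟨x₁, hx₁, h1⟩ := sum_small (1 / 2) (by norm_num)
    obtain ⟨c, hc, h5⟩ := Pool.Agent.Y954.PP.t_A5 Pool.Agent.Y427.PP.t_FAC
    refine ⟨c / 4, by positivity, x₁, fun X hX => ?_⟩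
    rw [TwC_card, card_eq]
    have h2 := (abs_le.1 (h1 X hX)).2
    have h3 := h5 X (hx₁.trans hX)
    linarith
  · intro Q hQ ε hε
    have hal0 := al_pos
    have hal1 := al_le
    have hD : Tendsto (fun n : ℕ => (#((FF gN (n + 1 : ℝ)).filter fun S =>
        XX gs (fun _ => (1 : ℝ)) S = 2 ∧ ch S = -1) : ℝ) / #(FF gN (n + 1 : ℝ))) atTop
        (nhds (1 / 2 * al)) := by convert density_D t_ASYM
    obtain ⟨x₁, hx₁, h1⟩ := low_of_tendsto
      (fun S => XX gs (fun _ => (1 : ℝ)) S = 2 ∧ ch S = -1) (1 / 2 * al) (by convert hD)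
      (ε / 4) (by linarith)
    obtain ⟨x₂, hx₂, h2⟩ := sum_small (ε / 2) (by linarith)
    refine ⟨max x₁ x₂, fun X hX => ?_⟩
    have e1 : (1 / 2 * al - ε / 4) * (#(FF gN X) : ℝ) ≤ (#((FF gN X).filter fun S =>
        XX gs (fun _ => (1 : ℝ)) S = 2 ∧ ch S = -1) : ℝ) := by
      convert h1 X ((le_max_left _ _).trans hX)
    have e2 := h2 X ((le_max_right _ _).trans hX)
    have hF : (0 : ℝ) ≤ #(FF gN X) := Nat.cast_nonneg _
    have hlow : (#((FF gN X).filter fun S => XX gs (fun _ => (1 : ℝ)) S = 2 ∧ ch S = -1) : ℝ) ≤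
        ({D ∈ TwC X | Q D}.ncard : ℝ) := by
      have hsub : PA '' (((FF gN X).filter fun S => XX gs (fun _ => (1 : ℝ)) S = 2 ∧ ch S = -1 :
          Finset (Finset Pr)) : Set (Finset Pr)) ⊆ {D ∈ TwC X | Q D} := by
        rintro _ ⟨A, hA, rfl⟩
        rw [Finset.mem_coe, Finset.mem_filter] at hA
        refine ⟨?_, hQ A hA.2.1 hA.2.2⟩
        rw [TwC_eq]
        refine ⟨A, ?_, rfl⟩
        rw [Finset.mem_coe, Finset.mem_filter]
        exact ⟨hA.1, hA.2.2⟩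
      have h4 := Set.ncard_le_ncard hsub ((TwC_fin X).subset fun D hD => hD.1)
      rw [Set.ncard_image_of_injective _ PA_inj, Set.ncard_coe_finset] at h4
      exact_mod_cast h4
    refine le_trans ?_ hlow
    rcases le_or_gt (al - ε) 0 with h0 | h0
    · refine le_trans (mul_nonpos_of_nonpos_of_nonneg h0 (Nat.cast_nonneg _)) (Nat.cast_nonneg _)
    · refine le_trans ?_ e1
      rw [TwC_card, card_eq]
      have e3 := (abs_le.1 e2).1
      have e4 : (#(FF gN X) : ℝ) / 2 - (∑ A ∈ FF gN X, ch A) / 2 ≤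
          (1 / 2 + ε / 4) * #(FF gN X) := by linarith
      refine (mul_le_mul_of_nonneg_left e4 h0.le).trans ?_
      have e5 : (al - ε) * (1 / 2 + ε / 4) ≤ 1 / 2 * al - ε / 4 := by nlinarith
      calc (al - ε) * ((1 / 2 + ε / 4) * #(FF gN X))
          = ((al - ε) * (1 / 2 + ε / 4)) * #(FF gN X) := by ring
        _ ≤ (1 / 2 * al - ε / 4) * #(FF gN X) := mul_le_mul_of_nonneg_right e5 hF

end Pool.Agent.Helper26K9.QT
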