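import Pool.Agent.Helper26K9.QT.Hcq

/-!
# Quartic twists: the Euler factor at `1 + i`
-/

set_option autoImplicit false
set_option linter.unusedSectionVars false

namespace Pool.Agent.Helper26K9.QT

open Pool.Agent.Y690.NV Pool.Agent.Y690.AW Pool.Agent.W192.HK
open Pool.Agent.Helper26K9.XO
open Complex (I)

variable {R : Subring ℂ} (hR : ∀ z : ℂ, z ∈ R ↔ ∃ x y : ℤ, z = x + y * I) {x : R → R → ℂ}

include hR in
lemma cop_la {α : R} : IsCoprime (sp α) (sp (ff hR)) ↔ α ∉ sp (1 + ii hR) := by
  constructor
  · intro h8 h7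
    have h6 : IsCoprime (sp α) (sp (1 + ii hR)) := by
      have h5 : sp (ff hR) = sp (1 + ii hR) * sp (2 : R) := by
        rw [ff_eq]
        exact (Ideal.span_singleton_mul_span_singleton _ _).symm
      rw [h5] at h8
      exact (IsCoprime.mul_right_iff.mp h8).1
    rw [Ideal.isCoprime_span_singleton_iff] at h6
    obtain ⟨a, b, hab⟩ := h6
    rw [Ideal.mem_span_singleton'] at h7
    obtain ⟨d, hd⟩ := h7
    refine i_notdvd hR (a * d + b) ?_
    linear_combination -hab - a * hd
  · intro h8
    rcases even_or hR α with ⟨a, b, hab, hmk⟩ | ⟨z, hz⟩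
    · obtain ⟨j, -, hj⟩ := odd_unit hR a b hab
      rw [← hmk] at hj
      have h7 : IsCoprime (sp (ii hR ^ j * α)) (sp (ff hR)) := by
        rw [Ideal.isCoprime_span_singleton_iff]
        exact cop_ff_pri hR ((pri_iff hR _).mp hj)
      rwa [sp_ii] at h7
    · exact absurd (by
        rw [hz]
        exact (sp _).mul_mem_right _ (Ideal.mem_span_singleton_self _)) h8

include hR in
theorem drop (hbasic : H_BASIC) {e : ℕ} {S : Finset R} (hX : ∀ p ∈ S, XC x p)
    (hu : cx x S (ii hR) * I ^ (2 * e + 1) = 1) (h : NVan e (ty (2 * e + 1) x S)) :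
    NVan e (tx hR (2 * e + 1) x S) := by
  classical
  have := pid hR
  have hded := (qr hR).ded
  obtain ⟨b1, b2, b3, b4, b5, b6, b7, -⟩ := hbasic R I (qr hR)
  set n := 2 * e + 1 with hn
  set la : R := 1 + ii hR with hla
  have hla0 : la ≠ 0 := by
    intro h4
    apply ffn hR
    rw [ff_eq, ← hla, h4, zero_mul]
  have hspla : sp la ≠ ⊥ := by rwa [Ne, Ideal.span_singleton_eq_bot]
  have hmul : ∀ A B : Ideal R, ty n x S (A * B) = ty n x S A * ty n x S B := by
    intro A B
    obtain ⟨α, rfl⟩ := (IsPrincipalIdealRing.principal A).principal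
    obtain ⟨β, rfl⟩ := (IsPrincipalIdealRing.principal B).principal
    have e1 : (Submodule.span R {α} : Ideal R) = sp α := rfl
    have e2 : (Submodule.span R {β} : Ideal R) = sp β := rfl
    rw [e1, e2]
    have h0 : sp (0 : R) = ⊥ := Ideal.span_singleton_eq_bot.mpr rfl
    by_cases hα : α = 0
    · rw [hα, h0, Ideal.bot_mul, ty_bot, zero_mul]
    · by_cases hβ : β = 0
      · rw [hβ, h0, Ideal.mul_bot, ty_bot, mul_zero]
      · rw [Ideal.span_singleton_mul_span_singleton, ty_gen hR hX hu hα, ty_gen hR hX hu hβ]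
        have h3 := ty_gen (n := n) hR hX hu (mul_ne_zero hα hβ)
        unfold sp at h3
        rw [h3, cx_mul hX]
        push_cast
        rw [mul_pow]
        ring
  have htx : ∀ J : Ideal R, tx hR n x S J = ty n x S J - if J ≤ sp la then ty n x S J else 0 := by
    intro J
    obtain ⟨α, rfl⟩ := (IsPrincipalIdealRing.principal J).principal
    have e1 : (Submodule.span R {α} : Ideal R) = sp α := rfl
    rw [e1]
    by_cases h1 : α ∈ sp la
    · rw [if_pos ((Ideal.span_singleton_le_iff_mem _).mpr h1), sub_self]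
      refine tx_zero' hR n S fun h2 => ?_
      exact (cop_la hR).mp h2.2 h1
    · rw [if_neg (fun h2 => h1 ((Ideal.span_singleton_le_iff_mem _).mp h2)), sub_zero]
      obtain ⟨j, hj, hj2⟩ := cop_unit hR ((cop_la hR).mpr h1)
      have h3 := tx_gen (x := x) hR n S hj2
      rw [sp_ii] at h3
      have h4 : ii hR ^ j * α ≠ 0 := ((pri_iff hR _).mp hj2).ne hR
      have h5 := ty_gen (n := n) hR hX hu h4
      rw [sp_ii] at h5
      rw [h3, h5]
  obtain ⟨F, hF1, hF2, hF3⟩ := h
  set t : ℂ → ℂ := fun z => ty n x S (sp la) * (nm (sp la) : ℂ) ^ (-z) with ht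
  have hnm2 : nm (sp la) = 2 := by
    have h1 := b5 la
    have h2 : Complex.normSq (la : ℂ) = 2 := by
      have : (la : ℂ) = 1 + I := rfl
      rw [this, Complex.normSq_apply]
      simp
      norm_num
    rw [h2] at h1
    exact h1
  refine ⟨fun z => (1 - t z) * F z, ?_, fun z hz => ?_, ?_⟩
  · have h1 : Differentiable ℂ t := by
      rw [ht]
      refine Differentiable.const_mul ?_ _
      intro z
      refine DifferentiableAt.const_cpow (differentiableAt_id.neg) (Or.inl ?_)
      rw [hnm2]
      norm_num
    exact ((differentiable_const 1).sub h1).mul hF1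
  · have h1 := hF2 z hz
    -- the ideals divisible by `1 + i`
    have h2 : HasSum (fun J : Ideal R => if J ≤ sp la then ty n x S J * (nm J : ℂ) ^ (-z) else 0)
        (t z * F z) := by
      have hinj : Function.Injective (fun J : Ideal R => sp la * J) := by
        intro A B hAB
        exact mul_left_cancel₀ hspla hAB
      rw [← hinj.hasSum_iff]
      · have h3 := h1.mul_left (t z)
        have e3 : ((fun J : Ideal R => if J ≤ sp la then ty n x S J * (nm J : ℂ) ^ (-z) else 0) ∘
            fun J : Ideal R => sp la * J) =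
            fun J : Ideal R => t z * (ty n x S J * (nm J : ℂ) ^ (-z)) := by
          funext J
          simp only [Function.comp_apply]
          rw [if_pos (Ideal.mul_le_left : sp la * J ≤ sp la) , hmul, b4, Complex.ofReal_mul,
            Complex.mul_cpow_ofReal_nonneg (by rw [nm]; positivity) (by rw [nm]; positivity)]
          simp only [ht]
          ring
        rw [e3]
        exact h3
      · intro J hJ
        rw [if_neg]
        intro h3
        apply hJ
        obtain ⟨B, hB⟩ := Ideal.dvd_iff_le.mpr h3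
        exact ⟨B, hB.symm⟩
    have h3 := h1.sub h2
    have e3 : (fun J : Ideal R => tx hR n x S J * (nm J : ℂ) ^ (-z)) = fun J : Ideal R =>
        ty n x S J * (nm J : ℂ) ^ (-z) -
          (if J ≤ sp la then ty n x S J * (nm J : ℂ) ^ (-z) else 0) := by
      funext J
      rw [htx]
      split_ifs
      · ring
      · ring
    have e4 : (1 - t z) * F z = F z - t z * F z := by ring
    rw [e3]
    show HasSum _ ((1 - t z) * F z)
    rw [e4]
    exact h3
  · refine mul_ne_zero ?_ hF3
    intro h1
    have h2 : t ((e + 1 : ℕ) : ℂ) = 1 := by linear_combination -h1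
    simp only [ht] at h2
    rw [hnm2, ty_gen hR hX hu hla0, Complex.cpow_neg, Complex.cpow_natCast] at h2
    have hc0 : cx x S la ≠ 0 := by
      intro h3
      rw [h3, zero_mul, zero_mul] at h2
      exact zero_ne_one h2
    have hc1 : ‖cx x S la‖ = 1 := by
      have h4 : ∀ V ⊆ S, ‖cx x V la‖ = 1 := by
        intro V hV
        unfold cx
        rw [_root_.norm_prod]
        refine Finset.prod_eq_one fun p hp => ?_
        have h5 : la ∉ sp p := by
          intro h6
          apply hc0
          rw [cx_zero hX]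
          exact ⟨p, hV hp, h6⟩
        have h7 : ‖x p la‖ ^ 2 = 1 := by
          rw [← norm_pow]
          rcases (hX p (hV hp)).pm h5 with ⟨h8, -⟩ | ⟨h8, -⟩ <;> rw [h8]
          · exact norm_one
          · rw [norm_neg, norm_one]
        have h9 := norm_nonneg (x p la)
        nlinarith
      exact h4 S (Finset.Subset.refl S)
    have h4 := congrArg norm h2
    rw [norm_mul, norm_mul, hc1, one_mul, norm_pow, norm_inv, norm_pow, norm_one] at h4
    have h5 : ‖(la : ℂ)‖ ^ 2 = 2 := by
      rw [← Complex.normSq_eq_norm_sq]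
      have : (la : ℂ) = 1 + I := rfl
      rw [this, Complex.normSq_apply]
      simp
      norm_num
    have h6 : ‖((2 : ℝ) : ℂ)‖ = 2 := by
      rw [Complex.norm_real]
      norm_num
    rw [h6] at h4
    have h7 : ‖(la : ℂ)‖ ^ n = 2 ^ (e + 1) := by
      rw [← div_eq_mul_inv, div_eq_one_iff_eq (by positivity)] at h4
      exact h4
    have h8 : (‖(la : ℂ)‖ ^ n) ^ 2 = ((2 : ℝ) ^ (e + 1)) ^ 2 := by rw [h7]
    rw [← pow_mul, mul_comm n 2, pow_mul, h5, ← pow_mul, hn] at h8
    have h9 : (2 * e + 1) = (e + 1) * 2 := Nat.pow_right_injective (le_refl 2) (by exact_mod_cast h8)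
    omega

end Pool.Agent.Helper26K9.QT
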