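import Pool.Agent.Helper26K9.QT.Good4
import Pool.Agent.Helper26K9.QT.Cnt

/-!
# Quartic twists: the density theorem
-/

set_option autoImplicit false

open Finset Filter

namespace Pool.Agent.Helper26K9.QT

open Pool.Agent.Y690.PP Pool.Agent.Y690.PP.Fn Pool.Agent.Helper26K9.DN

/-- the squarefree Gaussian integers congruent to `1 + 2 i` modulo `4`, of norm at most `X` -/
def TwP (X : ℝ) : Set G := {D | Squarefree D ∧ (4 : G) ∣ D - ⟨1, 2⟩ ∧ ((D.norm : ℤ) : ℝ) ≤ X}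

/-- all the central values -/
def GoodQ (D : G) : Prop := ∀ j : ℕ, j < 4 → ∀ m a b : ℕ, 1 ≤ m → a + b = 2 * m - 1 →
  ((a : ℤ) - b).natAbs ≤ 3 → ∃ L : ℂ → ℂ, IsLF D j a b L ∧ L m ≠ 0

lemma goodQ_neg {D : G} (h : GoodQ D) : GoodQ (-D) := by
  intro j hj m a b hm hab hc
  obtain ⟨L, hL, h0⟩ := h j hj m a b hm hab hc
  exact ⟨L, isLF_neg hL, h0⟩

lemma class_iff (D : G) : (4 : G) ∣ D - ⟨1, 2⟩ ↔ (4 : G) ∣ -D - ⟨3, 2⟩ := by
  have h : (-D - ⟨3, 2⟩ : G) = -(D - ⟨1, 2⟩) + 4 * ⟨-1, -1⟩ := by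
    ext
    · simp
      ring
    · simp
      ring
  rw [h, dvd_add_left (Dvd.intro _ rfl), dvd_neg]

lemma TwP_eq (X : ℝ) : TwP X = (fun D => -D) '' TwC X := by
  ext D
  constructor
  · rintro ⟨h1, h2, h3⟩
    refine ⟨-D, ⟨?_, (class_iff D).mp h2, ?_⟩, neg_neg D⟩
    · exact fun x hx => h1 x ((dvd_neg).mp hx)
    · rw [Zsqrtd.norm_neg]
      exact h3
  · rintro ⟨E, ⟨h1, h2, h3⟩, rfl⟩
    refine ⟨fun x hx => h1 x ((dvd_neg).mp hx), ?_, ?_⟩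
    · rw [class_iff, neg_neg]
      exact h2
    · simp only [Zsqrtd.norm_neg]
      exact h3

lemma TwP_sep (X : ℝ) (Q : G → Prop) :
    {D ∈ TwP X | Q D} = (fun D => -D) '' {D ∈ TwC X | Q (-D)} := by
  ext D
  constructor
  · rintro ⟨h1, h2⟩
    rw [TwP_eq] at h1
    obtain ⟨E, hE, rfl⟩ := h1
    exact ⟨E, ⟨hE, h2⟩, rfl⟩
  · rintro ⟨E, ⟨h1, h2⟩, rfl⟩
    refine ⟨?_, h2⟩
    rw [TwP_eq]
    exact ⟨E, h1, rfl⟩

theorem TwP_fin (X : ℝ) : (TwP X).Finite := by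
  rw [TwP_eq]
  exact (cnt.1 X).image _

theorem TwP_card (X : ℝ) : (TwP X).ncard = (TwC X).ncard := by
  rw [TwP_eq]
  exact Set.ncard_image_of_injective _ neg_injective

/-- **the density theorem** -/
theorem fin4 : (∃ c : ℝ, 0 < c ∧ ∃ X₁ : ℝ, ∀ X : ℝ, X₁ ≤ X → c * X ≤ ((TwP X).ncard : ℝ)) ∧
    ∀ ε : ℝ, 0 < ε → ∃ X₀ : ℝ, ∀ X : ℝ, X₀ ≤ X →
      (al - ε) * ((TwP X).ncard : ℝ) ≤ ({D ∈ TwP X | GoodQ D}.ncard : ℝ) := by
  refine ⟨?_, fun ε hε => ?_⟩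
  · obtain ⟨c, hc, X₁, h⟩ := cnt.2.1
    refine ⟨c, hc, X₁, fun X hX => ?_⟩
    rw [TwP_card]
    exact h X hX
  · obtain ⟨X₀, h⟩ := cnt.2.2 (fun D => GoodQ (-D)) (fun A hX hch => goodQ_neg
      fun j hj m a b hm hab hc => good4 hX hch hj hm hab hc) ε hε
    refine ⟨X₀, fun X hX => ?_⟩
    rw [TwP_card, TwP_sep, Set.ncard_image_of_injective _ neg_injective]
    exact h X hX

end Pool.Agent.Helper26K9.QT
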