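import Pool.Agent.Helper26K9.QT.Nv

/-!
# Quartic twists: all the characters `χ ^ j ψ ^ a conj ψ ^ b`
-/

set_option autoImplicit false
set_option linter.unusedSectionVars false

open IsDedekindDomain

namespace Pool.Agent.Helper26K9.QT

open H667R3 Pool.Agent.TH936.CW Pool.Agent.Y690.NV Pool.Agent.Y690.AW Pool.Agent.W192.HK
open Pool.Agent.TH936.CM (IsLat out_sub)
open Pool.Agent.Helper26K9.XO
open Complex (I)

variable {R : Subring ℂ} (hR : ∀ z : ℂ, z ∈ R ↔ ∃ x y : ℤ, z = x + y * I) {x : R → R → ℂ}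

open Classical in
/-- the function `ψ(α) α ^ a conj α ^ b` on ideals -/
noncomputable def gj (ψ : R → ℂ) (a b : ℕ) (J : Ideal R) : ℂ :=
  if h : ∃ α : R, J = sp α ∧ α - 1 ∈ sp (ff hR) then
    ψ (Classical.choose h) * ((Classical.choose h : R) : ℂ) ^ a *
      (starRingEnd ℂ) ((Classical.choose h : R) : ℂ) ^ b else 0

lemma gj_gen (ψ : R → ℂ) (a b : ℕ) {α : R} (hα : α - 1 ∈ sp (ff hR)) :
    gj hR ψ a b (sp α) = ψ α * (α : ℂ) ^ a * (starRingEnd ℂ) (α : ℂ) ^ b := by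
  have h : ∃ β : R, sp α = sp β ∧ β - 1 ∈ sp (ff hR) := ⟨α, rfl, hα⟩
  unfold gj
  rw [dif_pos h]
  obtain ⟨h1, h2⟩ := Classical.choose_spec h
  rw [← gen_uni hR h1 hα h2]

lemma gj_zero (ψ : R → ℂ) (a b : ℕ) {J : Ideal R}
    (h : ¬ ∃ α : R, J = sp α ∧ α - 1 ∈ sp (ff hR)) : gj hR ψ a b J = 0 := by
  unfold gj
  rw [dif_neg h]

lemma gj_bot (ψ : R → ℂ) (a b : ℕ) : gj hR ψ a b ⊥ = 0 := by
  refine gj_zero hR ψ a b ?_
  rintro ⟨α, h1, h2⟩
  have h3 := (gen_iff hR ⊥).mp ⟨α, h1, h2⟩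
  exact h3.1 rfl

lemma gj_top {ψ : R → ℂ} (h1 : ψ 1 = 1) (a b : ℕ) : gj hR ψ a b ⊤ = 1 := by
  have h2 : sp (1 : R) = ⊤ := Ideal.span_singleton_one
  rw [← h2, gj_gen hR ψ a b (by rw [sub_self]; exact (sp _).zero_mem), h1]
  push_cast
  simp

lemma gj_mul {ψ : R → ℂ} (hψ : ∀ r s : R, ψ (r * s) = ψ r * ψ s) (a b : ℕ) (A B : Ideal R) :
    gj hR ψ a b (A * B) = gj hR ψ a b A * gj hR ψ a b B := by
  by_cases hA : ∃ α : R, A = sp α ∧ α - 1 ∈ sp (ff hR)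
  · by_cases hB : ∃ α : R, B = sp α ∧ α - 1 ∈ sp (ff hR)
    · obtain ⟨α, rfl, hα⟩ := hA
      obtain ⟨β, rfl, hβ⟩ := hB
      rw [Ideal.span_singleton_mul_span_singleton, gj_gen hR ψ a b hα, gj_gen hR ψ a b hβ, gj_gen,
        hψ]
      · push_cast
        rw [map_mul, mul_pow, mul_pow]
        ring
      · have h := (sp (ff hR)).add_mem ((sp (ff hR)).mul_mem_left α hβ) hα
        convert h using 1
        ring
    · rw [gj_zero hR ψ a b hB, mul_zero]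
      refine gj_zero hR ψ a b fun h => hB ?_
      rw [gen_iff] at h ⊢
      refine ⟨?_, h.2.of_mul_left_right⟩
      rintro rfl
      exact h.1 (by rw [Ideal.mul_bot])
  · rw [gj_zero hR ψ a b hA, zero_mul]
    refine gj_zero hR ψ a b fun h => hA ?_
    rw [gen_iff] at h ⊢
    refine ⟨?_, h.2.of_mul_left_left⟩
    rintro rfl
    exact h.1 (by rw [Ideal.bot_mul])

lemma gj_tx (n : ℕ) (S : Finset R) : gj hR (cx x S) n 0 = tx hR n x S := by
  funext J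
  by_cases h : ∃ α : R, J = sp α ∧ α - 1 ∈ sp (ff hR)
  · obtain ⟨α, rfl, hα⟩ := h
    rw [gj_gen hR _ n 0 hα, tx_gen hR n S hα, pow_zero, mul_one]
  · rw [gj_zero hR _ n 0 h]
    unfold tx
    rw [dif_neg h]

lemma gj_tw (n : ℕ) (S : Finset R) : gj hR (fun r => ((ch S r : ℤ) : ℂ)) n 0 = tw0 hR n S := by
  funext J
  by_cases h : ∃ α : R, J = sp α ∧ α - 1 ∈ sp (ff hR)
  · obtain ⟨α, rfl, hα⟩ := h
    rw [gj_gen hR _ n 0 hα, tw0_gen hR n S hα, pow_zero, mul_one]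
  · rw [gj_zero hR _ n 0 h]
    unfold tw0
    rw [dif_neg h]

/-- the central value does not vanish -/
def Gd (ψ : R → ℂ) (k a b : ℕ) : Prop := ∃ L : ℂ → ℂ, Differentiable ℂ L ∧
  (∀ s : ℂ, (k : ℝ) + 1 / 2 < s.re →
    HasSum (fun J : Ideal R => gj hR ψ a b J * (nm J : ℂ) ^ (-s)) (L s)) ∧
  L (k : ℂ) ≠ 0

theorem gd_of (hbasic : H_BASIC) {ψ : R → ℂ} {e k a b : ℕ} (h : NVan e (gj hR ψ (2 * e + 1) 0))
    (h1 : a + b = 2 * k - 1) (h2 : a = b + (2 * e + 1)) : Gd hR ψ k a b := by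
  obtain ⟨F, hF1, hF2, hF3⟩ := h
  have hke : k = e + 1 + b := by omega
  obtain ⟨b1, b2, b3, b4, b5, b6, b7, -⟩ := hbasic R I (qr hR)
  refine ⟨fun s => F (s - b), by fun_prop, fun s hs => ?_, ?_⟩
  · have hz' : ((e + 1 : ℕ) : ℝ) + 1 / 2 < (s - b).re := by
      rw [Complex.sub_re, Complex.natCast_re]
      rw [hke] at hs
      push_cast at hs ⊢
      linarith
    have h6 : (fun J : Ideal R => gj hR ψ a b J * (nm J : ℂ) ^ (-s)) =
        fun J : Ideal R => gj hR ψ (2 * e + 1) 0 J * (nm J : ℂ) ^ (-(s - b)) := by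
      funext J
      by_cases hJ : ∃ α : R, J = sp α ∧ α - 1 ∈ sp (ff hR)
      · obtain ⟨α, rfl, hα⟩ := hJ
        have h0 : α ≠ 0 := ((pri_iff hR α).mp hα).ne hR
        have h7 : (nm (sp α) : ℂ) ≠ 0 := by
          have h8 := b3 (sp α) (by rwa [Ne, Ideal.span_singleton_eq_bot])
          have : nm (sp α) ≠ 0 := by linarith
          exact_mod_cast this
        have h8 : (nm (sp α) : ℂ) ^ (-(s - b)) = (nm (sp α) : ℂ) ^ (-s) * (nm (sp α) : ℂ) ^ b := by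
          rw [show -(s - (b : ℂ)) = -s + b by ring, Complex.cpow_add _ _ h7,
            Complex.cpow_natCast]
        have h9 : (nm (sp α) : ℂ) ^ b = (α : ℂ) ^ b * (starRingEnd ℂ) (α : ℂ) ^ b := by
          rw [b5, ← Complex.mul_conj, mul_pow]
        rw [gj_gen hR ψ a b hα, gj_gen hR ψ _ 0 hα, h8, h9, h2, pow_zero, mul_one, pow_add]
        ring
      · rw [gj_zero hR ψ a b hJ, gj_zero hR ψ _ 0 hJ, zero_mul, zero_mul]
    rw [h6]
    exact hF2 (s - b) hz'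
  · have h7 : (k : ℂ) - b = ((e + 1 : ℕ) : ℂ) := by
      rw [hke]
      push_cast
      ring
    simp only
    rw [h7]
    exact hF3

theorem Gd.conj {ψ : R → ℂ} {k a b : ℕ} (h : Gd hR (fun r => (starRingEnd ℂ) (ψ r)) k b a) :
    Gd hR ψ k a b := by
  obtain ⟨L, h1, h2, h3⟩ := h
  refine ⟨Pool.Agent.Y690.cj L, Pool.Agent.Y690.cj_diff h1, fun s hs => ?_, ?_⟩
  · have h6 := (h2 ((starRingEnd ℂ) s) (by rw [Complex.conj_re]; exact hs)).map (starRingEnd ℂ)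
      Complex.continuous_conj
    have h7 : (fun J : Ideal R => gj hR ψ a b J * (nm J : ℂ) ^ (-s)) =
        (starRingEnd ℂ) ∘ (fun J : Ideal R => gj hR (fun r => (starRingEnd ℂ) (ψ r)) b a J *
          (nm J : ℂ) ^ (-(starRingEnd ℂ) s)) := by
      funext J
      simp only [Function.comp]
      rw [map_mul]
      rw [← map_neg, Complex.cpow_conj _ _ (by
        rw [Complex.arg_ofReal_of_nonneg (by rw [nm]; positivity)]
        exact Real.pi_pos.ne), Complex.conj_conj, Complex.conj_ofReal]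
      congr 1
      by_cases hJ : ∃ α : R, J = sp α ∧ α - 1 ∈ sp (ff hR)
      · obtain ⟨α, rfl, hα⟩ := hJ
        rw [gj_gen hR ψ a b hα, gj_gen hR _ b a hα, map_mul, map_mul, map_pow, map_pow,
          Complex.conj_conj, Complex.conj_conj]
        ring
      · rw [gj_zero hR ψ a b hJ, gj_zero hR _ b a hJ, map_zero]
    rw [h7]
    exact h6
  · have h4 : Pool.Agent.Y690.cj L (k : ℂ) = (starRingEnd ℂ) (L k) := by
      unfold Pool.Agent.Y690.cj
      rw [Complex.conj_natCast]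
    rw [h4, Ne, map_eq_zero]
    exact h3

/-- the Euler product -/
theorem Gd.prod (hbasic : H_BASIC) {ψ : R → ℂ} (h1 : ψ 1 = 1)
    (hψ : ∀ r s : R, ψ (r * s) = ψ r * ψ s) {k a b : ℕ} (h : Gd hR ψ k a b) :
    ∃ L : ℂ → ℂ, Differentiable ℂ L ∧
    (∀ s : ℂ, (k : ℝ) + 1 / 2 < s.re → HasProd (fun v : HeightOneSpectrum R =>
      (1 - gj hR ψ a b v.asIdeal * (nm v.asIdeal : ℂ) ^ (-s))⁻¹) (L s)) ∧ L (k : ℂ) ≠ 0 := by
  obtain ⟨L, l1, l2, l3⟩ := h
  refine ⟨L, l1, fun s hs => ?_, l3⟩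
  have h3 := euler_one hbasic (qr hR) (gj_bot hR ψ a b) (gj_top hR h1 a b) (gj_mul hR hψ a b)
    (a := 1) (b := 0) (by norm_num) s (L s) (by
      have h4 := l2 s hs
      convert h4 using 1
      funext J
      rw [pow_one, pow_zero, mul_one])
  simp only [pow_one, pow_zero, mul_one] at h3
  exact h3

end Pool.Agent.Helper26K9.QT
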