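import Pool.Agent.Helper26K9.QT.Base
import Pool.Agent.Y690.X.Main

/-!
# The nonvanishing of the central values for a general modulus
-/

set_option autoImplicit false
set_option linter.unusedSectionVars false

open Filter
open scoped Topology PeriodPair

namespace Pool.Agent.Helper26K9.QT

open H667R3 Pool.Agent.TH936.CW Pool.Agent.Y690.NV Pool.Agent.Y690.AW Pool.Agent.W192.HK
open Pool.Agent.TH936.CM (IsLat out_sub)
open Pool.Agent.W192.CM (nu)
open Pool.Agent.Helper26K9.XO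
open Complex (I)

theorem nvg : S_NVG := by
  intro hbasic hfp hcnt hdec hafe R hR L Ω q hL hCM hq μ e θ hμ hqt hθ hne
  classical
  have hμC := coe_ne hμ
  have hQR := qr hR
  obtain ⟨b1, b2, b3, b4, b5, b6, b7, -, -⟩ := hbasic R I hQR
  have hspne : sp μ ≠ ⊥ := by rwa [Ne, Ideal.span_singleton_eq_bot]
  have := b1 (sp μ) hspne
  have := Fintype.ofFinite (R ⧸ sp μ)
  obtain ⟨T, hS⟩ := sys_one hR hμ
  obtain ⟨F, hF1, hF2, hF3⟩ := lim_LK hbasic hfp hcnt hdec hafe hQR hθ hS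
  refine ⟨F, hF1, hF2, fun hF0 => ?_⟩
  obtain ⟨f1, f2, f3, f4, f5⟩ := hfp R I hQR (2 * e + 1) (sp μ) θ hθ hqt
  have hθ1 : θ ⊤ = 1 := by
    have h1 := hθ.princ 1 one_ne_zero (by rw [sub_self]; exact (sp _).zero_mem)
    have h2 : sp (1 : R) = ⊤ := Ideal.span_singleton_one
    rw [h2] at h1
    rw [h1]
    have h3 : ((1 : R) : ℂ) = 1 := rfl
    rw [h3, one_pow]
  have hnm : nm (⊤ : Ideal R) = 1 := (b7 ⊤).mpr rfl
  rw [hF0, map_zero, mul_zero] at hF3
  have hlim : Tendsto (fun δ : ℝ => SK e (ck e θ ⊤) δ) (𝓝[>] 0) (𝓝 0) := by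
    refine hF3.congr fun δ => ?_
    rw [Finset.sum_singleton, hθ1, hnm]
    simp
  set c : R → ℂ := ck e θ ⊤ with hc
  have hcv : ∀ r : R, c r = (starRingEnd ℂ) (fp (2 * e + 1) θ r) := by
    intro r
    rw [hc]
    unfold ck
    rw [if_pos Submodule.mem_top]
  have hcper : ∀ a b : R, a - b ∈ sp μ → c a = c b := by
    intro a b h
    rw [hcv, hcv, f5 a b h]
  have hc0' : ∀ r : R, ¬ IsCoprime (sp r) (sp μ) → c r = 0 := by
    intro r h
    rw [hcv, (f3 r).mpr h, map_zero]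
  have hc0 : ∀ a ∈ sp μ, c a = 0 := by
    intro a ha
    refine hc0' a fun h => hqt ?_
    have h1 : sp a ≤ sp μ := (Ideal.span_singleton_le_iff_mem _).mpr ha
    have h2 := Ideal.isCoprime_iff_sup_eq.mp h
    rwa [sup_eq_right.mpr h1] at h2
  have hc1 : ∀ a : R, ‖c a‖ ≤ 1 := by
    intro a
    by_cases h : IsCoprime (sp a) (sp μ)
    · rw [hcv, RCLike.norm_conj, f4 a h]
    · rw [hc0' a h, norm_zero]
      exact zero_le_one
  have hval := value hCM hq hbasic hQR hL e μ hμ c hcper hc0 hc1 hlim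
  have hΩ := hL.ne
  have hκ : gg e ((starRingEnd ℂ) ((μ : ℂ) / Ω)) ((μ : ℂ) / Ω) ≠ 0 := by
    have h : (μ : ℂ) / Ω ≠ 0 := div_ne_zero hμC hΩ
    unfold gg
    exact mul_ne_zero (pow_ne_zero _ ((map_ne_zero _).2 h)) (pow_ne_zero _ (inv_ne_zero h))
  have hqe : (q ^ e)⁻¹ ≠ 0 := inv_ne_zero (pow_ne_zero _ (q_ne hq))
  have hs : ∑ x : R ⧸ sp μ, c x.out * ek L 0 q e (Ω * x.out / μ) = 0 := by
    have h1 := (mul_eq_zero.1 hval.symm).resolve_left hκ
    exact (mul_eq_zero.1 h1).resolve_left hqe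
  apply hne
  rw [rs_eq]
  refine Eq.trans ?_ hs
  refine Finset.sum_congr rfl fun w _ => ?_
  rw [hcv]
  rfl

end Pool.Agent.Helper26K9.QT
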