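import Pool.Agent.Helper26K9.QT.Base

/-!
# Quartic twists: the quartic residue symbol (leaf Q4)
-/

set_option autoImplicit false
set_option linter.unusedSectionVars false
set_option linter.style.haveILetI false

open scoped PeriodPair

namespace Pool.Agent.Helper26K9.QT

open H667R3 Pool.Agent.TH936.CW Pool.Agent.Y690.NV Pool.Agent.Y690.AW Pool.Agent.W192.HK
open Pool.Agent.Helper26K9.XO
open Complex (I)

namespace Q4L

variable {R : Subring ℂ} (hR : ∀ z : ℂ, z ∈ R ↔ ∃ x y : ℤ, z = x + y * I)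

include hR in
theorem isMax {p : R} (hp : Prime p) : (sp p).IsMaximal := by
  have := pid hR
  exact PrincipalIdealRing.isMaximal_of_irreducible hp.irreducible

include hR in
theorem two_notMem {p : R} (hp : Prime p) (h : Pri p) : (2 : R) ∉ sp p := by
  intro h2
  obtain ⟨d, hd⟩ := h.form hR
  have hm := isMax hR hp
  apply hm.ne_top
  rw [Ideal.eq_top_iff_one]
  have h3 : (1 : R) = p * 1 - 2 * ((1 + ii hR) * d) := by
    rw [hd, ff]
    ring
  rw [h3]
  exact sub_mem ((sp p).mul_mem_right _ (Ideal.mem_span_singleton_self _))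
    ((sp p).mul_mem_right _ h2)

/-- fourth roots of unity congruent modulo `p` are equal -/
theorem root_uniq {p : R} (hm : (sp p).IsMaximal) (h2 : (2 : R) ∉ sp p) {u w : R}
    (hu : u ^ 4 = 1) (hw : w ^ 4 = 1) (h : u - w ∈ sp p) : u = w := by
  have hpr := hm.isPrime
  by_contra hne
  have h1 : (u - w) * (u ^ 3 + u ^ 2 * w + u * w ^ 2 + w ^ 3) = 0 := by
    linear_combination hu - hw
  have h3 : u ^ 3 + u ^ 2 * w + u * w ^ 2 + w ^ 3 = 0 := by
    rcases mul_eq_zero.1 h1 with h | h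
    · exact absurd (sub_eq_zero.1 h) hne
    · exact h
  have h4 : (2 : R) * 2 = w * (u ^ 3 + u ^ 2 * w + u * w ^ 2 + w ^ 3) -
      (u - w) * (w * (u ^ 2 + 2 * u * w + 3 * w ^ 2)) := by
    linear_combination (-4 : R) * hw
  have h5 : (2 : R) * 2 ∈ sp p := by
    rw [h4, h3, mul_zero, zero_sub]
    exact (sp p).neg_mem ((sp p).mul_mem_right _ h)
  rcases hpr.mem_or_mem h5 with h | h <;> exact h2 h

theorem four_roots (hR : ∀ z : ℂ, z ∈ R ↔ ∃ x y : ℤ, z = x + y * I) {p : R}
    (hm : (sp p).IsMaximal) {a : R} (ha : a ^ 4 - 1 ∈ sp p) :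
    ∃ u : R, u ^ 4 = 1 ∧ a - u ∈ sp p := by
  have hpr := hm.isPrime
  have hi : ii hR * ii hR = -1 := ii_sq hR
  have h1 : a ^ 4 - 1 = ((a - 1) * (a - (-1))) * ((a - ii hR) * (a - (-ii hR))) := by
    linear_combination (a ^ 2 - 1) * hi
  rw [h1] at ha
  rcases hpr.mem_or_mem ha with h | h
  · rcases hpr.mem_or_mem h with h | h
    · exact ⟨1, by ring, h⟩
    · exact ⟨-1, by ring, h⟩
  · rcases hpr.mem_or_mem h with h | h
    · exact ⟨ii hR, by linear_combination (ii hR * ii hR - 1) * hi, h⟩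
    · exact ⟨-ii hR, by linear_combination (ii hR * ii hR - 1) * hi, h⟩

/-- the exponent -/
noncomputable def ex (p : R) : ℕ := (Nat.card (R ⧸ sp p) - 1) / 4

include hR in
theorem card_eq (hbasic : H_BASIC) {p : R} (hp : Prime p) (h : Pri p) :
    1 ≤ ex p ∧ Nat.card (R ⧸ sp p) = 4 * ex p + 1 ∧ Finite (R ⧸ sp p) := by
  obtain ⟨b1, -, -, -, -, -⟩ := hbasic R I (qr hR)
  have hfin : Finite (R ⧸ sp p) := by
    apply b1
    intro h0
    rw [Ideal.span_singleton_eq_bot] at h0
    exact hp.ne_zero h0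
  obtain ⟨a, b, hab⟩ := h.coe hR
  have h3 := card_form hR hbasic h hab
  have hm := isMax hR hp
  have hnt : Nontrivial (R ⧸ sp p) := Ideal.Quotient.nontrivial_iff.2 hm.ne_top
  have h4 : 1 < Nat.card (R ⧸ sp p) := Finite.one_lt_card
  unfold ex
  refine ⟨?_, ?_, hfin⟩ <;> omega

theorem x4_of {p : R} (hm : (sp p).IsMaximal) (h2 : (2 : R) ∉ sp p) {α u : R}
    (hu : u ^ 4 = 1) (h : α ^ ex p - u ∈ sp p) : x4 p α = u := by
  classical
  have hex : ∃ u : R, u ^ 4 = 1 ∧ α ^ ((Nat.card (R ⧸ sp p) - 1) / 4) - u ∈ sp p := ⟨u, hu, h⟩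
  unfold x4
  rw [dif_pos hex]
  obtain ⟨h3, h4⟩ := Classical.choose_spec hex
  have h5 : Classical.choose hex = u := by
    apply root_uniq hm h2 h3 hu
    have h6 := sub_mem h h4
    have h7 : (α ^ ex p - u) - (α ^ ((Nat.card (R ⧸ sp p) - 1) / 4) - Classical.choose hex)
        = Classical.choose hex - u := by
      change (α ^ ex p - u) - (α ^ ex p - Classical.choose hex) = _
      ring
    rwa [h7] at h6
  rw [h5]

theorem x4_zero {p : R} (hm : (sp p).IsMaximal) (he : 1 ≤ ex p) {α : R} (h : α ∈ sp p) :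
    x4 p α = 0 := by
  classical
  unfold x4
  rw [dif_neg]
  rintro ⟨u, hu, h1⟩
  apply hm.ne_top
  rw [Ideal.eq_top_iff_one, ← hu]
  have h2 : α ^ ((Nat.card (R ⧸ sp p) - 1) / 4) ∈ sp p :=
    Ideal.pow_mem_of_mem _ h _ he
  have h3 : u ∈ sp p := by
    have := sub_mem h2 h1
    rwa [sub_sub_cancel] at this
  exact Ideal.pow_mem_of_mem _ h3 4 (by norm_num)

include hR in
theorem x4_spec (hbasic : H_BASIC) {p : R} (hp : Prime p) (h : Pri p) {α : R} (hα : α ∉ sp p) :
    ∃ u : R, u ^ 4 = 1 ∧ α ^ ex p - u ∈ sp p ∧ x4 p α = u := by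
  classical
  have hm := isMax hR hp
  obtain ⟨he, hN, hfin⟩ := card_eq hR hbasic hp h
  have := Fintype.ofFinite (R ⧸ sp p)
  letI := Ideal.Quotient.field (sp p)
  have h1 : (α ^ ex p) ^ 4 - 1 ∈ sp p := by
    rw [← pow_mul, ← Ideal.Quotient.mk_eq_mk_iff_sub_mem, map_pow, map_one]
    have h2 : Ideal.Quotient.mk (sp p) α ≠ 0 := by
      rwa [Ne, Ideal.Quotient.eq_zero_iff_mem]
    have h3 := FiniteField.pow_card_sub_one_eq_one (Ideal.Quotient.mk (sp p) α) h2
    rw [← Nat.card_eq_fintype_card, hN] at h3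
    rw [mul_comm]
    exact h3
  obtain ⟨u, hu, hu'⟩ := four_roots hR hm h1
  exact ⟨u, hu, hu', x4_of hm (two_notMem hR hp h) hu hu'⟩

end Q4L

open Q4L in
theorem q4 : S_Q4 := by
  intro R hR hbasic p hp hpri
  classical
  have hm := isMax hR hp
  have hpr := hm.isPrime
  have h2 := two_notMem hR hp hpri
  obtain ⟨he, hN, hfin⟩ := card_eq hR hbasic hp hpri
  have := Fintype.ofFinite (R ⧸ sp p)
  refine ⟨hpri, hm, ?_, ?_, ?_, ?_, ?_⟩
  · intro α β
    by_cases hα : α ∈ sp p
    · rw [x4_zero hm he hα, x4_zero hm he ((sp p).mul_mem_right _ hα), zero_mul]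
    by_cases hβ : β ∈ sp p
    · rw [x4_zero hm he hβ, x4_zero hm he ((sp p).mul_mem_left _ hβ), mul_zero]
    obtain ⟨u, hu, hu1, hu2⟩ := x4_spec hR hbasic hp hpri hα
    obtain ⟨w, hw, hw1, hw2⟩ := x4_spec hR hbasic hp hpri hβ
    rw [hu2, hw2, x4_of hm h2 (u := u * w) (by rw [mul_pow, hu, hw, mul_one])]
    · push_cast
      rfl
    · have h3 : (α * β) ^ ex p - u * w
          = (α ^ ex p - u) * β ^ ex p + u * (β ^ ex p - w) := by ring
      rw [h3]
      exact add_mem ((sp p).mul_mem_right _ hu1) ((sp p).mul_mem_left _ hw1)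
  · rw [x4_of hm h2 (u := 1) (by ring)]
    · push_cast
      rfl
    · rw [one_pow, sub_self]
      exact zero_mem _
  · intro α β hαβ
    by_cases hβ : β ∈ sp p
    · have hα : α ∈ sp p := by
        have := add_mem hαβ hβ
        rwa [sub_add_cancel] at this
      rw [x4_zero hm he hα, x4_zero hm he hβ]
    · obtain ⟨w, hw, hw1, hw2⟩ := x4_spec hR hbasic hp hpri hβ
      rw [hw2]
      refine x4_of hm h2 hw ?_
      have h3 : α ^ ex p - β ^ ex p ∈ sp p :=
        Ideal.mem_of_dvd _ (sub_dvd_pow_sub_pow α β (ex p)) hαβ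
      have h4 := add_mem h3 hw1
      rwa [sub_add_sub_cancel] at h4
  · intro α
    constructor
    · intro h0
      by_contra hα
      obtain ⟨u, hu, hu1, hu2⟩ := x4_spec hR hbasic hp hpri hα
      rw [hu2] at h0
      have h3 : u = 0 := Subtype.ext h0
      rw [h3] at hu
      norm_num at hu
    · exact fun hα => x4_zero hm he hα
  · intro α
    by_cases hα : α ∈ sp p
    · rw [x4_zero hm he hα, (qs_zero_iff p α).2 hα]
      norm_num
    obtain ⟨u, hu, hu1, hu2⟩ := x4_spec hR hbasic hp hpri hα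
    rw [hu2]
    letI := Ideal.Quotient.field (sp p)
    have hodd : Odd (Fintype.card (R ⧸ sp p)) := by
      rw [← Nat.card_eq_fintype_card, hN]
      exact ⟨2 * ex p, by ring⟩
    have hq := qs_eq p α
    have h3 : ((quadraticChar (R ⧸ sp p) (Ideal.Quotient.mk (sp p) α) : ℤ) : R ⧸ sp p)
        = (Ideal.Quotient.mk (sp p) α) ^ (2 * ex p) := by
      rw [quadraticChar_eq_pow_of_char_ne_two' (ring_char p hodd), ← Nat.card_eq_fintype_card,
        hN]
      congr 1
      omega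
    rw [← hq] at h3
    have h4 : ((qs p α : ℤ) : R) - u ^ 2 ∈ sp p := by
      rw [← Ideal.Quotient.mk_eq_mk_iff_sub_mem, map_intCast, h3, mul_comm, pow_mul, map_pow]
      congr 1
      rw [← map_pow, Ideal.Quotient.mk_eq_mk_iff_sub_mem]
      exact hu1
    have h5 : ((qs p α : ℤ) : R) = u ^ 2 := by
      refine root_uniq hm h2 ?_ ?_ h4
      · rcases qs_pm p hα with h | h <;> rw [h] <;> norm_num
      · rw [← pow_mul, mul_comm, pow_mul, hu, one_pow]
    have h6 := congrArg (fun x : R => (x : ℂ)) h5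
    simp only [Subring.coe_intCast, SubmonoidClass.coe_pow] at h6
    exact h6.symm

end Pool.Agent.Helper26K9.QT
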