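import Pool.Agent.Helper26K9.QT.Base

/-!
# Quartic twists: the number of classes (leaf SM)
-/

set_option autoImplicit false
set_option linter.unusedSectionVars false
set_option linter.unusedSimpArgs false

open scoped PeriodPair

namespace Pool.Agent.Helper26K9.QT

open H667R3 Pool.Agent.TH936.CW Pool.Agent.Y690.NV Pool.Agent.Y690.AW Pool.Agent.W192.HK
open Pool.Agent.Helper26K9.XO
open Complex (I)

namespace SmL

variable {R : Subring ℂ} (hR : ∀ z : ℂ, z ∈ R ↔ ∃ x y : ℤ, z = x + y * I)

include hR in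
theorem dd_pri {x : R → R → ℂ} {U : Finset R} (hU : ∀ p ∈ U, XC x p) : Pri (dd U) :=
  Pri.prod hR fun p hp => (hU p hp).od

theorem kx_per {x : R → R → ℂ} {U : Finset R} (hU : ∀ p ∈ U, XC x p) {r s : R}
    (h : r - s ∈ sp (dd U)) : kx x U r = kx x U s :=
  Finset.prod_congr rfl fun p hp => by
    rw [(hU p hp).per r s (mem_dd hp h), cpI_per (mem_dd hp h)]

include hR in
theorem sum_x (hbasic : H_BASIC) {x : R → R → ℂ} {p : R} (hp : XC x p) [Fintype (R ⧸ sp p)] :
    ∑ y : R ⧸ sp p, x p y.out = 0 := by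
  have hm := hp.max
  have hodd := card_odd hR hbasic hp.od
  rw [Nat.card_eq_fintype_card] at hodd
  obtain ⟨a, ha⟩ := qs_ex p hodd
  have ha0 : a ∉ sp p := by
    intro h
    rw [(qs_zero_iff p a).2 h] at ha
    norm_num at ha
  have h1 := two_bij hm ha0 0 (x p) (fun r s hrs => hp.per r s hrs)
  have h2 : ∀ y : R ⧸ sp p, x p (0 + a * y.out) = x p a * x p y.out := by
    intro y
    rw [zero_add, hp.mul]
  rw [Finset.sum_congr rfl (fun y _ => h2 y), ← Finset.mul_sum] at h1
  have h3 : (x p a - 1) * ∑ y : R ⧸ sp p, x p y.out = 0 := by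
    rw [sub_mul, one_mul, h1, sub_self]
  rcases mul_eq_zero.1 h3 with h4 | h4
  · exfalso
    have h5 := hp.sq a
    rw [sub_eq_zero.1 h4, ha] at h5
    norm_num at h5
  · exact h4

include hR in
theorem sum_one (hbasic : H_BASIC) {x : R → R → ℂ} {p : R} (hp : XC x p)
    [Fintype (R ⧸ sp p)] :
    ∑ y : R ⧸ sp p, (x p y.out + cpI p y.out) = (Nat.card (R ⧸ sp p) : ℂ) - 1 := by
  classical
  rw [Nat.card_eq_fintype_card, Finset.sum_add_distrib, sum_x hR hbasic hp, zero_add]
  have h4 : ∀ y : R ⧸ sp p, cpI p y.out = 1 - if y = 0 then 1 else 0 := by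
    intro y
    unfold cpI
    have h5 : y.out ∈ sp p ↔ y = 0 := by
      rw [← Ideal.Quotient.eq_zero_iff_mem, Ideal.Quotient.mk_out]
    by_cases hy : y = 0
    · rw [if_pos (h5.mpr hy), if_pos hy, sub_self]
    · rw [if_neg (fun h => hy (h5.mp h)), if_neg hy, sub_zero]
  rw [Finset.sum_congr rfl (fun y _ => h4 y), Finset.sum_sub_distrib, Finset.sum_ite_eq' Finset.univ,
    if_pos (Finset.mem_univ _), Finset.sum_const, Finset.card_univ, nsmul_eq_mul, mul_one]

include hR in
open Classical in
theorem rs_kx (hbasic : H_BASIC) (hfin : ∀ D : R, Pri D → Finite (R ⧸ sp D)) (x : R → R → ℂ)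
    (U : Finset R) : (∀ p ∈ U, XC x p) → Dst U →
      rs (dd U) (kx x U) = ∏ p ∈ U, ((Nat.card (R ⧸ sp p) : ℂ) - 1) := by
  induction U using Finset.induction_on with
  | empty =>
    intro hU _
    have := hfin _ (dd_pri hR hU)
    have := Fintype.ofFinite (R ⧸ sp (dd (∅ : Finset R)))
    have hsub : ∀ w : R ⧸ sp (dd (∅ : Finset R)), w = 0 := by
      intro w
      refine eq_of_out ?_
      have h1 : sp (dd (∅ : Finset R)) = ⊤ := by
        unfold dd
        rw [Finset.prod_empty]
        exact Ideal.span_singleton_one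
      generalize w.out - (0 : R ⧸ sp (dd (∅ : Finset R))).out = x
      rw [h1]
      exact Submodule.mem_top
    rw [rs_eq, Fintype.sum_eq_single (0 : R ⧸ sp (dd (∅ : Finset R)))
      (fun w hw => absurd (hsub w) hw), Finset.prod_empty]
    exact Finset.prod_empty
  | insert p V hp ih =>
    intro hU hd
    have hV : ∀ q ∈ V, XC x q := fun q hq => hU q (Finset.mem_insert_of_mem hq)
    have hdV : Dst V := fun x hx y hy => hd x (Finset.mem_insert_of_mem hx) y
      (Finset.mem_insert_of_mem hy)
    have hpQ := hU p (Finset.mem_insert_self _ _)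
    have e1 : dd (insert p V) = dd V * p := by
      unfold dd
      rw [Finset.prod_insert hp, mul_comm]
    have := hfin _ (dd_pri hR hV)
    have := Fintype.ofFinite (R ⧸ sp (dd V))
    have := hfin _ hpQ.od
    have := Fintype.ofFinite (R ⧸ sp p)
    have := hfin _ ((dd_pri hR hV).mul hR hpQ.od)
    have := Fintype.ofFinite (R ⧸ sp (dd V * p))
    have hkap : ∀ r : R, kx x (insert p V) r = (x p r + cpI p r) * kx x V r := by
      intro r
      unfold kx
      rw [Finset.prod_insert hp]
    have hDp : dd V ∉ sp p := by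
      have hpr := hpQ.max.isPrime
      unfold dd
      intro h1
      rw [Ideal.IsPrime.prod_mem_iff] at h1
      obtain ⟨s, hs, h3⟩ := h1
      exact hd s (Finset.mem_insert_of_mem hs) p (Finset.mem_insert_self _ _)
        (fun h4 => hp (h4 ▸ hs)) h3
    rw [e1, rs_eq, rs_fib ((dd_pri hR hV).ne hR) (kx x (insert p V)) (fun r s hrs => by
      rw [kx_per hU (by rw [e1]; exact hrs)])]
    have h5 : ∀ w : R ⧸ sp (dd V), ∑ y : R ⧸ sp p, kx x (insert p V) (w.out + dd V * y.out) =
        ((Nat.card (R ⧸ sp p) : ℂ) - 1) * kx x V w.out := by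
      intro w
      have h6 : ∀ y : R ⧸ sp p, kx x (insert p V) (w.out + dd V * y.out) =
          (x p (w.out + dd V * y.out) + cpI p (w.out + dd V * y.out)) *
            kx x V w.out := by
        intro y
        rw [hkap, kx_per hV (s := w.out)]
        rw [add_sub_cancel_left]
        exact (sp (dd V)).mul_mem_right _ (Ideal.mem_span_singleton_self _)
      rw [Finset.sum_congr rfl (fun y _ => h6 y), ← Finset.sum_mul,
        two_bij hpQ.max hDp w.out (fun r => x p r + cpI p r) (fun r s hrs => by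
          rw [hpQ.per r s hrs, cpI_per hrs]), sum_one hR hbasic hpQ]
    have h7 := ih hV hdV
    rw [rs_eq] at h7
    rw [Finset.sum_congr rfl (fun w _ => h5 w), ← Finset.mul_sum, h7, Finset.prod_insert hp]

end SmL

open SmL in
theorem sm : S_SM := by
  intro R hR hbasic x U hU hd
  refine rs_kx hR hbasic ?_ x U (fun p hp => (hU p hp).2) hd
  intro D hD
  obtain ⟨b1, -, -, -, -, -⟩ := hbasic R I (qr hR)
  apply b1
  intro h0
  rw [Ideal.span_singleton_eq_bot] at h0
  exact hD.ne hR h0

end Pool.Agent.Helper26K9.QT
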