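import Pool.Agent.Helper26K9.QT.Gj
import Pool.Agent.Helper26K9.QT.Q4
import Pool.Agent.Helper26K9.QT.Kb
import Pool.Agent.Helper26K9.QT.Nvg
import Pool.Agent.Helper26K9.QT.Sm
import Pool.Agent.Helper26K9.QT.Sv
import Pool.Agent.Helper26K9.QT.Val
import Pool.Agent.Helper26K9.DN.Last

/-!
# Quartic twists: the nonvanishing for the good sets
-/

set_option autoImplicit false
set_option linter.unusedSectionVars false

open Finset IsDedekindDomain

namespace Pool.Agent.Helper26K9.QT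

open H667R3 Pool.Agent.TH936.CW Pool.Agent.Y690.NV Pool.Agent.Y690.AW Pool.Agent.W192.HK
open Pool.Agent.TH936.CM (IsLat out_sub)
open Pool.Agent.Helper26K9.XO
open Complex (I)

section abs

variable {R : Subring ℂ} (hR : ∀ z : ℂ, z ∈ R ↔ ∃ x y : ℤ, z = x + y * I) {x : R → R → ℂ}

/-- from the two characters to all the values -/
theorem pair (hbasic : H_BASIC) {ψ ψ' : R → ℂ} (h1 : ∀ r, (starRingEnd ℂ) (ψ r) = ψ' r)
    {E : ℕ} (n1 : ∀ e ≤ E, NVan e (gj hR ψ (2 * e + 1) 0))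
    (n2 : ∀ e ≤ E, NVan e (gj hR ψ' (2 * e + 1) 0))
    {k a b : ℕ} (hk : 1 ≤ k) (hab : a + b = 2 * k - 1) (hc : ((a : ℤ) - b).natAbs ≤ 2 * E + 1) :
    Gd hR ψ k a b := by
  rcases lt_or_ge b a with h2 | h2
  · obtain ⟨e, he⟩ : ∃ e, a = b + (2 * e + 1) := ⟨(a - b - 1) / 2, by omega⟩
    exact gd_of hR hbasic (n1 e (by omega)) hab he
  · obtain ⟨e, he⟩ : ∃ e, b = a + (2 * e + 1) := ⟨(b - a - 1) / 2, by omega⟩
    refine Gd.conj hR ?_
    have h3 : (fun r => (starRingEnd ℂ) (ψ r)) = ψ' := funext h1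
    rw [h3]
    exact gd_of hR hbasic (n2 e (by omega)) (by omega) he

open Classical in
/-- the trivial character -/
theorem nv0 (hbasic : H_BASIC) (hfp : H_FP) (hcnt : H_CNT) (hdec : H_DEC) (hafe : H_AFE) {e : ℕ}
    (he : e ≤ 1) : NVan e (tw0 hR (2 * e + 1) ∅) := by
  obtain ⟨L, Ω, q, hL, hCM, g2, hq, hT⟩ := exists_base (qr hR)
  have hd : Dst (∅ : Finset R) := fun p hp => absurd hp (Finset.notMem_empty p)
  have hQ : ∀ p ∈ (∅ : Finset R), QC p := fun p hp => absurd hp (Finset.notMem_empty p)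
  have hHC := hc_tw0 hR hbasic (n := 2 * e + 1) ⟨e, rfl⟩ ∅
    (fun p hp => absurd hp (Finset.notMem_empty p)) hd
  have hod := dd_od hR hQ
  obtain ⟨b1, -⟩ := hbasic R I (qr hR)
  have := b1 (sp (dd (∅ : Finset R))) (by rw [Ne, Ideal.span_singleton_eq_bot]; exact hod.ne hR)
  have := Fintype.ofFinite (R ⧸ sp (dd (∅ : Finset R)))
  refine nonvan hR hbasic hfp hcnt hdec hafe hL hCM hq (hod.ne hR) (hod.ff hR) hHC
    (χ := fun r => ((ch (∅ : Finset R) r : ℤ) : ℂ)) (fun r hr => by rw [tw0_gen hR _ ∅ hr, mul_comm])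
    (fun r => map_intCast _ _) ?_
  have h1 : sp (dd (∅ : Finset R)) = ⊤ := by
    unfold dd
    rw [Finset.prod_empty]
    exact Ideal.span_singleton_one
  have hsub : ∀ w : R ⧸ sp (dd (∅ : Finset R)), w = 0 := by
    intro w
    refine eq_of_out ?_
    generalize w.out - (0 : R ⧸ sp (dd (∅ : Finset R))).out = x
    rw [h1]
    exact Submodule.mem_top
  rw [Fintype.sum_eq_single (0 : R ⧸ sp (dd (∅ : Finset R))) (fun w hw => absurd (hsub w) hw)]
  have hone : ∀ r : R, ((ch (∅ : Finset R) r : ℤ) : ℂ) = 1 := by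
    intro r
    unfold ch
    rw [Finset.prod_empty, Int.cast_one]
  rw [hone, one_mul]
  have hv := (val R hR L q Ω hL hCM g2 hq hT e he).1 (dd (∅ : Finset R))
    (0 : R ⧸ sp (dd (∅ : Finset R))).out hod zero_out
  unfold G4 at hv
  intro h0
  unfold Qw at h0
  rw [h0, mul_zero, mul_zero] at hv
  norm_num at hv

lemma cx_norm {S : Finset R} (hX : ∀ p ∈ S, XC x p) (r : R) :
    cx x S r = 0 ∨ cx x S r ^ 4 = 1 ∧ cx x S r * (starRingEnd ℂ) (cx x S r) = 1 := by
  have key : ∀ z : ℂ, z ^ 4 = 1 → z * (starRingEnd ℂ) z = 1 := by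
    intro z hz
    have h1 : ‖z‖ = 1 := Complex.norm_eq_one_of_pow_eq_one hz (by norm_num)
    rw [Complex.mul_conj, Complex.normSq_eq_norm_sq, h1]
    norm_num
  by_cases h : cx x S r = 0
  · exact Or.inl h
  · right
    have h4 : cx x S r ^ 4 = 1 := by
      unfold cx
      rw [← Finset.prod_pow]
      refine Finset.prod_eq_one fun p hp => ?_
      have h0 : x p r ≠ 0 := by
        unfold cx at h
        exact fun h6 => h (Finset.prod_eq_zero hp h6)
      rcases (hX p hp).pm (α := r) (fun h5 => h0 (((hX p hp).zero r).mpr h5)) with h5 | h5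
      · have : x p r ^ 4 = (x p r ^ 2) ^ 2 := by ring
        rw [this, h5.1, one_pow]
      · have : x p r ^ 4 = (x p r ^ 2) ^ 2 := by ring
        rw [this, h5.1]
        norm_num
    exact ⟨h4, key _ h4⟩

lemma cx_cube {S : Finset R} (hX : ∀ p ∈ S, XC x p) (r : R) :
    cx x S r ^ 3 = (starRingEnd ℂ) (cx x S r) := by
  rcases cx_norm hX r with h | ⟨h1, h2⟩
  · rw [h, map_zero]
    norm_num
  · have h0 : cx x S r ≠ 0 := by
      intro h
      rw [h] at h1
      norm_num at h1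
    apply mul_left_cancel₀ h0
    rw [h2, ← h1]
    ring

lemma cx_sq {S : Finset R} (hX : ∀ p ∈ S, XC x p) (r : R) :
    cx x S r ^ 2 = ((ch S r : ℤ) : ℂ) := by
  unfold cx ch
  rw [← Finset.prod_pow, Int.cast_prod]
  exact Finset.prod_congr rfl fun p hp => (hX p hp).sq r

open Classical in
/-- all the powers of the quartic character -/
theorem powers (hbasic : H_BASIC) (hfp : H_FP) (hcnt : H_CNT) (hdec : H_DEC) (hafe : H_AFE)
    {S : Finset R} (hA : Adm0 S) (hS : ∀ p ∈ S, Prime p ∧ XC x p)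
    (hu2 : cx x S (ii hR) ^ 2 = -1) {j : ℕ} (hj : j < 4) {k a b : ℕ} (hk : 1 ≤ k)
    (hab : a + b = 2 * k - 1) (hc : ((a : ℤ) - b).natAbs ≤ 3) :
    Gd hR (fun r => cx x S r ^ j) k a b := by
  have hX : ∀ p ∈ S, XC x p := fun p hp => (hS p hp).2
  have hd : Dst S := dst_of hR hA.1
  have hS' : ∀ p ∈ S, Prime p ∧ XC (xb x) p := fun p hp => ⟨(hS p hp).1, (hX p hp).conj⟩
  have hu2' : cx (xb x) S (ii hR) ^ 2 = -1 := by
    rw [cx_xb, ← map_pow, hu2, map_neg, map_one]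
  have n1 : ∀ e ≤ 1, NVan e (gj hR (cx x S) (2 * e + 1) 0) := fun e he => by
    rw [gj_tx]
    exact nv4 hR sv sm kb val nvg hbasic hfp hcnt hdec hafe he hS hd hA.2.1 hA.2.2 hu2
  have n3 : ∀ e ≤ 1, NVan e (gj hR (cx (xb x) S) (2 * e + 1) 0) := fun e he => by
    rw [gj_tx]
    exact nv4 hR sv sm kb val nvg hbasic hfp hcnt hdec hafe he hS' hd hA.2.1 hA.2.2 hu2'
  have n2 : ∀ e ≤ 1, NVan e (gj hR (fun r => ((ch S r : ℤ) : ℂ)) (2 * e + 1) 0) := fun e _ => by
    rw [gj_tw]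
    exact (tw0_main hR hbasic hfp hcnt hdec hafe hA hd e).2
  have n0 : ∀ e ≤ 1, NVan e (gj hR (fun r => ((ch (∅ : Finset R) r : ℤ) : ℂ)) (2 * e + 1) 0) :=
    fun e he => by
      rw [gj_tw]
      exact nv0 hR hbasic hfp hcnt hdec hafe he
  have hc' : ((a : ℤ) - b).natAbs ≤ 2 * 1 + 1 := hc
  interval_cases j
  · have h1 : (fun r => cx x S r ^ 0) = fun r : R => ((ch (∅ : Finset R) r : ℤ) : ℂ) := by
      funext r
      unfold ch
      rw [Finset.prod_empty, Int.cast_one, pow_zero]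
    rw [h1]
    exact pair hR hbasic (fun r => map_intCast _ _) n0 n0 hk hab hc'
  · have h1 : (fun r => cx x S r ^ 1) = cx x S := by
      funext r
      rw [pow_one]
    rw [h1]
    exact pair hR hbasic (fun r => (cx_xb S r).symm) n1 n3 hk hab hc'
  · have h1 : (fun r => cx x S r ^ 2) = fun r : R => ((ch S r : ℤ) : ℂ) :=
      funext fun r => cx_sq hX r
    rw [h1]
    exact pair hR hbasic (fun r => map_intCast _ _) n2 n2 hk hab hc'
  · have h1 : (fun r => cx x S r ^ 3) = cx (xb x) S := by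
      funext r
      rw [cx_cube hX, cx_xb]
    rw [h1]
    refine pair hR hbasic (ψ' := cx x S) (fun r => ?_) n3 n1 hk hab hc'
    rw [cx_xb, Complex.conj_conj]

end abs

section sym

open Pool.Agent.Y690.PP Pool.Agent.Y690.PP.Fn Pool.Agent.Helper26K9.DN

open Classical in
/-- the quartic residue symbol `(α / p)` -/
noncomputable def symb (p α : G) : ℂ :=
  if h : ∃ u : G, u ^ 4 = 1 ∧ p ∣ α ^ ((p.norm.natAbs - 1) / 4) - u then
    ((Classical.choose h : G) : ℂ) else 0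

/-- the product over the primary primes dividing `D` -/
noncomputable def chiD (D α : G) : ℂ := ∏ᶠ (p : Pr) (_ : p.1 ∣ D), symb p.1 α

/-- the `L`-function of `χ_D ^ j ψ ^ a conj ψ ^ b` -/
def IsLF (D : G) (j a b : ℕ) (L : ℂ → ℂ) : Prop :=
  Differentiable ℂ L ∧ ∀ s : ℂ, ((a : ℝ) + b) / 2 + 1 < s.re →
    HasProd (fun p : Pr => (1 - chiD D p.1 ^ j * (p.1 : ℂ) ^ a *
      (starRingEnd ℂ) (p.1 : ℂ) ^ b * ((p.1.norm : ℤ) : ℂ) ^ (-s))⁻¹) (L s)

variable {R : Subring ℂ} (hR : ∀ z : ℂ, z ∈ R ↔ ∃ x y : ℤ, z = x + y * I)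

lemma x4_phi (hbasic : H_BASIC) (p : Pr) (α : G) : x4 (phi hR p.1) (phi hR α) = symb p.1 α := by
  classical
  obtain ⟨hp, hpri⟩ := em_prime hR p
  rw [em_coe] at hp hpri
  have hm := Q4L.isMax hR hp
  have h2 := Q4L.two_notMem hR hp hpri
  have hex : Q4L.ex (phi hR p.1) = (p.1.norm.natAbs - 1) / 4 := by
    unfold Q4L.ex
    rw [card_phi hR hbasic]
    rfl
  unfold symb
  by_cases h : ∃ u : G, u ^ 4 = 1 ∧ p.1 ∣ α ^ ((p.1.norm.natAbs - 1) / 4) - u
  · rw [dif_pos h]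
    obtain ⟨h3, h4⟩ := Classical.choose_spec h
    rw [Q4L.x4_of hm h2 (u := phi hR (Classical.choose h)) (by rw [← map_pow, h3, map_one]) ?_]
    · rfl
    · rw [hex, ← map_pow, ← map_sub, phi_mem]
      exact h4
  · rw [dif_neg h]
    unfold x4
    rw [dif_neg]
    rintro ⟨u, hu, h1⟩
    obtain ⟨w, rfl⟩ := (phi hR).surjective u
    refine h ⟨w, ?_, ?_⟩
    · apply (phi hR).injective
      rw [map_pow, hu, map_one]
    · rw [← phi_mem hR, map_sub, map_pow]
      have h5 : (Nat.card (R ⧸ sp (phi hR p.1)) - 1) / 4 = (p.1.norm.natAbs - 1) / 4 := hex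
      rw [← h5]
      exact h1

lemma chiD_PA (A : Finset Pr) (α : G) : chiD (PA A) α = ∏ p ∈ A, symb p.1 α := by
  unfold chiD
  refine finprod_cond_eq_prod_of_cond_iff _ fun {p} _ => ?_
  constructor
  · intro h
    by_contra h1
    exact Pool.Agent.Y547.PP.not_dvd_PA h1 h
  · exact Pool.Agent.Y547.PP.dvd_PA

lemma cx_phi (hbasic : H_BASIC) (A : Finset Pr) (α : G) :
    cx x4 (A.map (em hR)) (phi hR α) = chiD (PA A) α := by
  rw [chiD_PA]
  unfold cx
  rw [Finset.prod_map]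
  exact Finset.prod_congr rfl fun p _ => x4_phi hR hbasic p α

lemma chiD_neg (D α : G) : chiD (-D) α = chiD D α := by
  unfold chiD
  refine finprod_congr fun p => ?_
  rw [dvd_neg]

lemma isLF_neg {D : G} {j a b : ℕ} {L : ℂ → ℂ} (h : IsLF D j a b L) : IsLF (-D) j a b L := by
  refine ⟨h.1, fun s hs => ?_⟩
  have h1 := h.2 s hs
  have h2 : (fun p : Pr => (1 - chiD (-D) p.1 ^ j * (p.1 : ℂ) ^ a *
      (starRingEnd ℂ) (p.1 : ℂ) ^ b * ((p.1.norm : ℤ) : ℂ) ^ (-s))⁻¹) =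
      fun p : Pr => (1 - chiD D p.1 ^ j * (p.1 : ℂ) ^ a *
      (starRingEnd ℂ) (p.1 : ℂ) ^ b * ((p.1.norm : ℤ) : ℂ) ^ (-s))⁻¹ := by
    funext p
    rw [chiD_neg]
  rw [h2]
  exact h1

/-- the Euler product over the primary primes -/
theorem prod_pr (hbasic : H_BASIC) {g : Ideal R → ℂ} {f : Pr → ℂ}
    (hz : ∀ J, (¬ ∃ α : R, J = sp α ∧ α - 1 ∈ sp (ff hR)) → g J = 0)
    (hf : ∀ p : Pr, g (sp (phi hR p.1)) = f p) {s l : ℂ}
    (h : HasProd (fun v : HeightOneSpectrum R =>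
      (1 - g v.asIdeal * (Pool.Agent.W192.HK.nm v.asIdeal : ℂ) ^ (-s))⁻¹) l) :
    HasProd (fun p : Pr => (1 - f p * ((p.1.norm : ℤ) : ℂ) ^ (-s))⁻¹) l := by
  classical
  have hprime : ∀ p : Pr, Prime (phi hR p.1) := fun p =>
    (MulEquiv.prime_iff (phi hR).toMulEquiv).mpr p.2.1
  obtain ⟨ι, hι⟩ : ∃ ι : Pr → HeightOneSpectrum R, ∀ p, (ι p).asIdeal = Ideal.span {phi hR p.1} :=
    ⟨fun p => ⟨Ideal.span {phi hR p.1},
      (Ideal.span_singleton_prime (hprime p).ne_zero).2 (hprime p), by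
        rw [Ne, Ideal.span_singleton_eq_bot]
        exact (hprime p).ne_zero⟩, fun _ => rfl⟩
  have hcong : ∀ x : G, phi hR x - 1 ∈ sp (ff hR) ↔ Prm x := by
    intro x
    rw [← phi_pri hR x, ← Pool.Agent.Y690.AW.pri_iff hR]
  have hinj : Function.Injective ι := by
    intro p q hpq
    have h1 : Ideal.span {phi hR p.1} = Ideal.span {phi hR q.1} := by rw [← hι, ← hι, hpq]
    rw [Ideal.span_singleton_eq_span_singleton] at h1
    have h2 : Associated p.1 q.1 := by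
      obtain ⟨h3, h4⟩ := dvd_dvd_iff_associated.2 h1
      rw [map_dvd_iff] at h3 h4
      exact dvd_dvd_iff_associated.1 ⟨h3, h4⟩
    exact Subtype.ext (Pool.Agent.Y674.PP.prm_assoc p.2.2 q.2.2 h2)
  have hout : ∀ P ∉ Set.range ι, (1 - g P.asIdeal *
      (Pool.Agent.W192.HK.nm P.asIdeal : ℂ) ^ (-s))⁻¹ = 1 := by
    intro P hP
    have h0 : g P.asIdeal = 0 := by
      apply hz
      rintro ⟨α, hPα, hα⟩
      apply hP
      obtain ⟨x, rfl⟩ := (phi hR).surjective α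
      have hx0 : phi hR x ≠ 0 := by
        intro h0
        apply P.ne_bot
        rw [hPα, h0]
        exact Ideal.span_singleton_eq_bot.2 rfl
      have hpr : Prime (phi hR x) := by
        rw [← Ideal.span_singleton_prime hx0]
        have h2 : P.asIdeal = Ideal.span {phi hR x} := hPα
        rw [← h2]
        exact P.isPrime
      obtain ⟨x', hx'⟩ : ∃ x' : Pr, x'.1 = x :=
        ⟨⟨x, (MulEquiv.prime_iff (phi hR).toMulEquiv).mp hpr, (hcong x).1 hα⟩, rfl⟩
      refine ⟨x', ?_⟩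
      apply HeightOneSpectrum.ext
      rw [hι, hPα, hx']
    rw [h0, zero_mul, sub_zero, inv_one]
  have h2 := (hinj.hasProd_iff hout).2 h
  have hfac : (fun p : Pr => (1 - f p * ((p.1.norm : ℤ) : ℂ) ^ (-s))⁻¹) =
      (fun P : HeightOneSpectrum R => (1 - g P.asIdeal *
      (Pool.Agent.W192.HK.nm P.asIdeal : ℂ) ^ (-s))⁻¹) ∘ ι := by
    funext p
    simp only [Function.comp_apply]
    have hnorm : ((Pool.Agent.W192.HK.nm (ι p).asIdeal : ℝ) : ℂ) = ((p.1.norm : ℤ) : ℂ) := by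
      rw [hι]
      have h5 : (Pool.Agent.W192.HK.nm (Ideal.span {phi hR p.1}) : ℝ) =
          ((Nat.card (R ⧸ sp (phi hR p.1)) : ℕ) : ℝ) := rfl
      rw [h5, card_phi hR hbasic]
      have h3 : ((p.1.norm.natAbs : ℕ) : ℤ) = p.1.norm :=
        Int.natAbs_of_nonneg (GaussianInt.norm_nonneg _)
      have h4 := congrArg (fun z : ℤ => (z : ℂ)) h3
      simp only [Int.cast_natCast] at h4
      rw [← h4]
      push_cast
      rfl
    have h6 : g (ι p).asIdeal = f p := by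
      rw [hι]
      exact hf p
    rw [hnorm, h6]
  rw [hfac]
  exact h2

open Classical in
/-- **the nonvanishing for the good sets** -/
theorem good4 {A : Finset Pr} (hX : XX gs (fun _ => (1 : ℝ)) A = 2)
    (hch : Pool.Agent.Helper26K9.DN.ch A = -1) {j : ℕ} (hj : j < 4)
    {k a b : ℕ} (hk : 1 ≤ k) (hab : a + b = 2 * k - 1) (hc : ((a : ℤ) - b).natAbs ≤ 3) :
    ∃ L : ℂ → ℂ, IsLF (PA A) j a b L ∧ L k ≠ 0 := by
  have hbasic := Pool.Agent.W287.HK.h_basic
  have hcls := Pool.Agent.W571.HK.h_cls hbasic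
  have hfp := Pool.Agent.W53.HK.h_fp hbasic hcls
  have hfpr := Pool.Agent.W366.HK.h_fpr hbasic hcls
  have hlat := Pool.Agent.W585.HK.h_lat hbasic
  have hker := Pool.Agent.W692.HK.h_ker hbasic hcls hfpr
  have hcnt := Pool.Agent.W584.HK.h_cnt hbasic hcls hfpr hlat hker
  have hdec := Pool.Agent.W856.HK.h_dec hbasic
  have hgauss := Pool.Agent.W636.HK.h_gauss hbasic hfp
  have hpois := Pool.Agent.W348.HK.h_pois hbasic
  have htheta := Pool.Agent.TH936.HK.h_theta hbasic hfp hdec hgauss hpois hcnt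
  have hafe := Pool.Agent.TH936.HK.h_afe hbasic hfp hcnt hgauss htheta
  set S := A.map (em hRR) with hSd
  have hadm : Adm0 S := adm0_of_XX hRR hbasic hX hch
  have hS : ∀ p ∈ S, Prime p ∧ XC x4 p := fun p hp =>
    ⟨(hadm.1 p hp).1, q4 RR hRR hbasic p (hadm.1 p hp).1 (hadm.1 p hp).2⟩
  have hXC : ∀ p ∈ S, XC x4 p := fun p hp => (hS p hp).2
  have hu2 : cx x4 S (Pool.Agent.Y690.NV.ii hRR) ^ 2 = -1 := by
    have h1 : Pool.Agent.Y690.NV.ii hRR = phi hRR Pool.Agent.Helper26K9.DN.ii := by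
      refine Subtype.ext ?_
      rw [Pool.Agent.Y690.NV.ii_coe, phi_coe]
      unfold Pool.Agent.Helper26K9.DN.ii
      push_cast
      ring
    have h5 : Pool.Agent.Y690.AW.ch (A.map (em hRR)) (phi hRR Pool.Agent.Helper26K9.DN.ii) =
        ∏ q ∈ A, qs q.1 Pool.Agent.Helper26K9.DN.ii := by
      unfold Pool.Agent.Y690.AW.ch
      rw [Finset.prod_map]
      exact Finset.prod_congr rfl fun q _ => phi_qs hRR q.1 _
    rw [cx_sq hXC, h1, hSd, h5]
    have h2 : ∀ q : Pr, qs q.1 Pool.Agent.Helper26K9.DN.ii = gi q.1 := fun q => qs_ii q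
    have h3 : ((∏ q ∈ A, qs q.1 Pool.Agent.Helper26K9.DN.ii : ℤ) : ℝ) = -1 := by
      rw [← hch]
      unfold Pool.Agent.Helper26K9.DN.ch gz
      push_cast
      exact Finset.prod_congr rfl fun q _ => by rw [h2]
    have h4 : (∏ q ∈ A, qs q.1 Pool.Agent.Helper26K9.DN.ii : ℤ) = -1 := by exact_mod_cast h3
    rw [h4]
    norm_num
  have hg := powers hRR hbasic hfp hcnt hdec hafe hadm hS hu2 hj hk hab hc
  obtain ⟨L, l1, l2, l3⟩ := Gd.prod hRR hbasic (by rw [cx_one hXC, one_pow])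
    (fun r s => by rw [cx_mul hXC, mul_pow]) hg
  refine ⟨L, ⟨l1, fun s hs => ?_⟩, l3⟩
  have hab' : (a : ℝ) + b = 2 * k - 1 := by
    have h1 : a + b + 1 = 2 * k := by omega
    have h2 : ((a + b + 1 : ℕ) : ℝ) = ((2 * k : ℕ) : ℝ) := by rw [h1]
    push_cast at h2
    linarith
  refine prod_pr hRR hbasic (fun J hJ => gj_zero hRR _ a b hJ) (fun p => ?_)
    (l2 s (by rw [hab'] at hs; linarith))
  have hpri : phi hRR p.1 - 1 ∈ sp (ff hRR) := by
    rw [Pool.Agent.Y690.AW.pri_iff hRR, phi_pri]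
    exact p.2.2
  rw [gj_gen hRR _ a b hpri, cx_phi hRR hbasic, phi_cc]

end sym

end Pool.Agent.Helper26K9.QT
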