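import Pool.Agent.Helper26K9.QT.Par

/-!
# Quartic twists: the Hecke characters
-/

set_option autoImplicit false
set_option linter.unusedSectionVars false

namespace Pool.Agent.Helper26K9.QT

open Pool.Agent.Y690.NV Pool.Agent.Y690.AW Pool.Agent.W192.HK
open Pool.Agent.TH936.CM (IsLat out_sub)
open Pool.Agent.Helper26K9.XO
open Complex (I)

variable {R : Subring ℂ} (hR : ∀ z : ℂ, z ∈ R ↔ ∃ x y : ℤ, z = x + y * I) {x : R → R → ℂ}

lemma qc_of (hR : ∀ z : ℂ, z ∈ R ↔ ∃ x y : ℤ, z = x + y * I) (hbasic : H_BASIC) {S : Finset R}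
    (hS : ∀ p ∈ S, Prime p ∧ XC x p) : ∀ p ∈ S, QC p :=
  fun p hp => mkQC hR hbasic (hS p hp).1 (hS p hp).2.od

lemma cx_zero {S : Finset R} (hS : ∀ p ∈ S, XC x p) (α : R) :
    cx x S α = 0 ↔ ∃ p ∈ S, α ∈ sp p := by
  unfold cx
  rw [Finset.prod_eq_zero_iff]
  exact exists_congr fun p => and_congr_right fun hp => (hS p hp).zero α

include hR in
open Classical in
/-- the common part of the two cases -/
theorem hc_gen (hbasic : H_BASIC) {n : ℕ} {S : Finset R} (hS : ∀ p ∈ S, Prime p ∧ XC x p)
    (hd : Dst S) {m1 : R} (hm1 : m1 ≠ 0) (hcop : ∀ p ∈ S, IsCoprime m1 p) {θ : Ideal R → ℂ}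
    (hmul : ∀ A B : Ideal R, θ (A * B) = θ A * θ B)
    (hzero : ∀ A : Ideal R, θ A = 0 ↔ (A = ⊥ ∨ ¬ IsCoprime A (sp (m1 * dd S))))
    (hgen : ∀ α : R, α ≠ 0 → α - 1 ∈ sp m1 → θ (sp α) = cx x S α * (α : ℂ) ^ n)
    (hpr : ∀ ε δ : R, m1 * dd S = δ * ε → ¬ IsUnit ε → IsCoprime ε (dd S) →
      ∃ α : R, α ≠ 0 ∧ α - 1 ∈ sp δ ∧ IsCoprime (sp α) (sp (m1 * dd S)) ∧
        θ (sp α) ≠ (α : ℂ) ^ n) : HC n (sp (m1 * dd S)) θ := by
  have := pid hR
  have hQ := qc_of hR hbasic hS
  have hX : ∀ p ∈ S, XC x p := fun p hp => (hS p hp).2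
  have hdd := dd_od hR hQ
  have hsp : sp (m1 * dd S) = sp m1 * sp (dd S) :=
    (Ideal.span_singleton_mul_span_singleton _ _).symm
  refine ⟨?_, hmul, hzero, ?_, ?_⟩
  · rw [Ne, Ideal.span_singleton_eq_bot]
    exact mul_ne_zero hm1 (hdd.ne hR)
  · intro α h0 hα
    rw [hgen α h0 (mem_sp_mul_left hα), cx_per hX (mem_sp_mul_right hα), cx_one hX, one_mul]
  · intro q' hq'
    obtain ⟨δ, rfl⟩ := (IsPrincipalIdealRing.principal q').principal
    have hle : m1 * dd S ∈ (Submodule.span R {δ} : Ideal R) :=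
      hq'.le (Ideal.mem_span_singleton_self _)
    have hle' : m1 * dd S ∈ sp δ := hle
    rw [Ideal.mem_span_singleton] at hle'
    obtain ⟨ε, hε⟩ := hle'
    have hδq : δ ∈ (Submodule.span R {δ} : Ideal R) := Submodule.mem_span_singleton_self δ
    have hεu : ¬ IsUnit ε := by
      intro hu
      obtain ⟨w, hw⟩ := hu.exists_right_inv
      apply not_le_of_gt hq'
      have h1 : δ ∈ sp (m1 * dd S) := by
        rw [Ideal.mem_span_singleton]
        exact ⟨w, by rw [hε, mul_assoc, hw, mul_one]⟩
      exact (Ideal.span_singleton_le_iff_mem _).mpr h1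
    by_cases hcase : ∃ p ∈ S, p ∣ ε
    · obtain ⟨p, hp, ε', hε'⟩ := hcase
      obtain ⟨u, hu⟩ := nonres hR hbasic (hS p hp).1 (hS p hp).2.od
      set m := m1 * dd (S.erase p) with hm
      have hp0 := (hS p hp).2.od.ne hR
      have hmm : m1 * dd S = m * p := by
        rw [hm]
        unfold dd
        rw [← Finset.mul_prod_erase S (fun x => x) hp]
        ring
      have hmδ : m = δ * ε' := by
        refine mul_right_cancel₀ hp0 ?_
        rw [← hmm, hε, hε']
        ring
      have hcop' : IsCoprime m p := by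
        rw [hm]
        refine IsCoprime.mul_left (hcop p hp) ?_
        refine IsCoprime.prod_left fun s hs => ?_
        rw [Finset.mem_erase] at hs
        rw [← Ideal.isCoprime_span_singleton_iff]
        have h5 := (cop_dd (S := {p}) (fun x hx => by
          rw [Finset.mem_singleton] at hx
          rw [hx]
          exact hQ p hp) s).mpr (fun x hx => by
          rw [Finset.mem_singleton] at hx
          rw [hx]
          exact hd s hs.2 p hp hs.1)
        have h6 : dd ({p} : Finset R) = p := Finset.prod_singleton _ _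
        rwa [h6] at h5
      -- `w ≡ 1 mod m`, `w ≡ u mod p`, and `w` is not zero
      obtain ⟨a, b, hab⟩ := hcop'
      have hup : u ∉ sp p := by
        intro h5
        rw [((hQ p hp).zero u).mpr h5] at hu
        norm_num at hu
      set α := 1 + m * (a * (u - 1)) with hα
      have h1 : α - 1 ∈ sp m := by
        rw [hα, add_sub_cancel_left]
        exact (sp m).mul_mem_right _ (Ideal.mem_span_singleton_self m)
      have h2 : α - u ∈ sp p := by
        have : α - u = p * (-(b * (u - 1))) := by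
          rw [hα]
          linear_combination (u - 1) * hab
        rw [this]
        exact (sp p).mul_mem_right _ (Ideal.mem_span_singleton_self p)
      have hα0 : α ≠ 0 := by
        intro h
        rw [h, zero_sub] at h2
        apply hup
        have := (sp p).neg_mem h2
        rwa [neg_neg] at this
      have h4 : α - 1 ∈ sp m1 := mem_sp_mul_left h1
      have hqu : x p u ^ 2 = -1 := by
        rw [(hS p hp).2.sq, hu]
        norm_num
      have hch : cx x S α = x p u := by
        unfold cx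
        rw [← Finset.mul_prod_erase S (fun q => x q α) hp, (hX p hp).per α u h2,
          Finset.prod_eq_one, mul_one]
        intro s hs
        rw [(hX s (Finset.mem_of_mem_erase hs)).per α 1 (mem_dd hs (mem_sp_mul_right h1)),
          (hX s (Finset.mem_of_mem_erase hs)).one]
      refine ⟨α, hα0, ?_, ?_, ?_⟩
      · have h5 : δ * (ε' * (a * (u - 1))) ∈ (Submodule.span R {δ} : Ideal R) :=
          Ideal.mul_mem_right _ _ hδq
        convert h5 using 1
        rw [hα, hmδ]
        ring
      · rw [hsp, IsCoprime.mul_right_iff, cop_dd hQ, Ideal.isCoprime_span_singleton_iff]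
        refine ⟨?_, ?_⟩
        · rw [Ideal.mem_span_singleton'] at h4
          obtain ⟨c, hc⟩ := h4
          exact ⟨1, -c, by linear_combination -hc⟩
        · intro s hs h5
          by_cases hsp' : s = p
          · rw [hsp'] at h5
            have := (sp p).sub_mem h5 h2
            rw [sub_sub_cancel] at this
            exact hup this
          · have h6 : α - 1 ∈ sp s := mem_dd (Finset.mem_erase.mpr ⟨hsp', hs⟩)
              (mem_sp_mul_right h1)
            have := (sp s).sub_mem h5 h6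
            rw [sub_sub_cancel] at this
            exact (hQ s hs).max.ne_top ((Ideal.eq_top_iff_one _).mpr this)
      · rw [hgen α hα0 h4, hch]
        intro h5
        have h6 : (α : ℂ) ^ n ≠ 0 := pow_ne_zero _ (coe_ne hα0)
        have h7 : x p u = 1 := by
          refine mul_right_cancel₀ h6 ?_
          rw [h5, one_mul]
        rw [h7] at hqu
        norm_num at hqu
    · push Not at hcase
      have hεdd : IsCoprime ε (dd S) := by
        rw [← Ideal.isCoprime_span_singleton_iff, cop_dd hQ]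
        intro p hp h5
        exact hcase p hp (Ideal.mem_span_singleton.mp h5)
      exact hpr ε δ hε hεu hεdd

/-! ### the character of conductor `D` -/

open Classical in
/-- the character of conductor `D` -/
noncomputable def ty (n : ℕ) (x : R → R → ℂ) (S : Finset R) (J : Ideal R) : ℂ :=
  if h : ∃ α : R, α ≠ 0 ∧ J = sp α then
    cx x S (Classical.choose h) * ((Classical.choose h : R) : ℂ) ^ n else 0

include hR in
lemma cx_pow {S : Finset R} (hS : ∀ p ∈ S, XC x p) (j : ℕ) : cx x S (ii hR ^ j) =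
    cx x S (ii hR) ^ j := by
  induction j with
  | zero => rw [pow_zero, pow_zero, cx_one hS]
  | succ j ih => rw [pow_succ, pow_succ, cx_mul hS, ih]

lemma ty_gen {n : ℕ} {S : Finset R} (hS : ∀ p ∈ S, XC x p)
    (hu : cx x S (ii hR) * I ^ n = 1) {α : R} (hα : α ≠ 0) :
    ty n x S (sp α) = cx x S α * (α : ℂ) ^ n := by
  have h : ∃ β : R, β ≠ 0 ∧ sp α = sp β := ⟨α, hα, rfl⟩
  unfold ty
  rw [dif_pos h]
  obtain ⟨h1, h2⟩ := Classical.choose_spec h
  set β := Classical.choose h
  have h3 := Ideal.span_singleton_eq_span_singleton.mp h2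
  obtain ⟨u, hu'⟩ := h3
  obtain ⟨j, hj, hj2⟩ := unit_pow hR (u : R) ((u⁻¹ : Rˣ) : R) (by rw [Units.mul_inv])
  -- `β = α u`, `u = i ^ (4 - j)`
  have h5 : ii hR ^ j * β = α := by
    rw [← hu']
    linear_combination α * hj2
  rw [← h5, cx_mul hS, cx_pow hR hS]
  push_cast
  rw [ii_coe, mul_pow, ← pow_mul, mul_comm j n, pow_mul]
  have h6 : cx x S (ii hR) ^ j * (I ^ n) ^ j = 1 := by rw [← mul_pow, hu, one_pow]
  linear_combination (-(cx x S β * (β : ℂ) ^ n)) * h6

lemma ty_bot (n : ℕ) (S : Finset R) : ty n x S ⊥ = 0 := by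
  unfold ty
  rw [dif_neg]
  rintro ⟨α, h1, h2⟩
  exact h1 (Ideal.span_singleton_eq_bot.mp h2.symm)

theorem hc_ty (hbasic : H_BASIC) {n : ℕ} {S : Finset R} (hS : ∀ p ∈ S, Prime p ∧ XC x p)
    (hd : Dst S) (hu : cx x S (ii hR) * I ^ n = 1) : HC n (sp (dd S)) (ty n x S) := by
  have := pid hR
  have hQ := qc_of hR hbasic hS
  have hX : ∀ p ∈ S, XC x p := fun p hp => (hS p hp).2
  have key := hc_gen hR hbasic (n := n) hS hd (m1 := 1) one_ne_zero (fun p _ => isCoprime_one_left)
    (θ := ty n x S) ?_ ?_ (fun α hα _ => ty_gen hR hX hu hα) ?_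
  · rwa [one_mul] at key
  · intro A B
    obtain ⟨α, rfl⟩ := (IsPrincipalIdealRing.principal A).principal
    obtain ⟨β, rfl⟩ := (IsPrincipalIdealRing.principal B).principal
    have e1 : (Submodule.span R {α} : Ideal R) = sp α := rfl
    have e2 : (Submodule.span R {β} : Ideal R) = sp β := rfl
    rw [e1, e2]
    by_cases hα : α = 0
    · rw [hα]
      have : sp (0 : R) = ⊥ := Ideal.span_singleton_eq_bot.mpr rfl
      rw [this, Ideal.bot_mul, ty_bot, zero_mul]
    · by_cases hβ : β = 0
      · rw [hβ]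
        have : sp (0 : R) = ⊥ := Ideal.span_singleton_eq_bot.mpr rfl
        rw [this, Ideal.mul_bot, ty_bot, mul_zero]
      · rw [Ideal.span_singleton_mul_span_singleton, ty_gen hR hX hu hα, ty_gen hR hX hu hβ]
        have h3 := ty_gen (n := n) hR hX hu (mul_ne_zero hα hβ)
        unfold sp at h3
        rw [h3, cx_mul hX]
        push_cast
        rw [mul_pow]
        ring
  · intro A
    rw [one_mul]
    obtain ⟨α, rfl⟩ := (IsPrincipalIdealRing.principal A).principal
    have e1 : (Submodule.span R {α} : Ideal R) = sp α := rfl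
    rw [e1]
    by_cases hα : α = 0
    · rw [hα]
      have : sp (0 : R) = ⊥ := Ideal.span_singleton_eq_bot.mpr rfl
      rw [this, ty_bot]
      simp
    · rw [ty_gen hR hX hu hα, mul_eq_zero, cop_dd hQ, cx_zero hX, Ideal.span_singleton_eq_bot]
      have h1 : (α : ℂ) ^ n ≠ 0 := pow_ne_zero _ (coe_ne hα)
      constructor
      · rintro (⟨p, hp, h3⟩ | h3)
        · exact Or.inr fun h4 => h4 p hp h3
        · exact absurd h3 h1
      · rintro (h3 | h3)
        · exact absurd h3 hα
        · left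
          by_contra hcon
          push Not at hcon
          exact h3 hcon
  · intro ε δ h1 h2 h3
    exfalso
    rw [one_mul] at h1
    exact h2 (h3.isUnit_of_dvd' dvd_rfl ⟨δ, by rw [h1]; ring⟩)

/-! ### the character of conductor `2 D` -/

open Classical in
/-- the character that vanishes at `1 + i` -/
noncomputable def tx (n : ℕ) (x : R → R → ℂ) (S : Finset R) (J : Ideal R) : ℂ :=
  if h : ∃ α : R, J = sp α ∧ α - 1 ∈ sp (ff hR) then
    cx x S (Classical.choose h) * ((Classical.choose h : R) : ℂ) ^ n else 0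

lemma tx_gen (n : ℕ) (S : Finset R) {α : R} (hα : α - 1 ∈ sp (ff hR)) :
    tx hR n x S (sp α) = cx x S α * (α : ℂ) ^ n := by
  have h : ∃ β : R, sp α = sp β ∧ β - 1 ∈ sp (ff hR) := ⟨α, rfl, hα⟩
  unfold tx
  rw [dif_pos h]
  obtain ⟨h1, h2⟩ := Classical.choose_spec h
  rw [← gen_uni hR h1 hα h2]

lemma tx_zero' (n : ℕ) (S : Finset R) {J : Ideal R} (h : ¬ (J ≠ ⊥ ∧ IsCoprime J (sp (ff hR)))) :
    tx hR n x S J = 0 := by
  rw [← gen_iff hR] at h
  unfold tx
  rw [dif_neg h]

lemma tx_zero (S : Finset R) (n : ℕ) {J : Ideal R}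
    (hJ : ¬ ∃ α : R, α - 1 ∈ sp (ff hR) ∧ J = sp α) : tx hR n x S J = 0 := by
  refine tx_zero' hR n S fun h => hJ ?_
  obtain ⟨α, h2, h3⟩ := (gen_iff hR J).mpr h
  exact ⟨α, h3, h2⟩

lemma tx_mul (n : ℕ) {S : Finset R} (hX : ∀ p ∈ S, XC x p) (A B : Ideal R) :
    tx hR n x S (A * B) = tx hR n x S A * tx hR n x S B := by
  by_cases hA : A ≠ ⊥ ∧ IsCoprime A (sp (ff hR))
  · by_cases hB : B ≠ ⊥ ∧ IsCoprime B (sp (ff hR))
    · obtain ⟨α, rfl, hα⟩ := (gen_iff hR A).mpr hA
      obtain ⟨β, rfl, hβ⟩ := (gen_iff hR B).mpr hB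
      rw [Ideal.span_singleton_mul_span_singleton, tx_gen hR n S hα, tx_gen hR n S hβ, tx_gen,
        cx_mul hX]
      · push_cast
        rw [mul_pow]
        ring
      · have h := (sp (ff hR)).add_mem ((sp (ff hR)).mul_mem_left α hβ) hα
        convert h using 1
        ring
    · rw [tx_zero' hR n S hB, mul_zero]
      refine tx_zero' hR n S fun h => hB ⟨?_, h.2.of_mul_left_right⟩
      rintro rfl
      exact h.1 (by rw [Ideal.mul_bot])
  · rw [tx_zero' hR n S hA, zero_mul]
    refine tx_zero' hR n S fun h => hA ⟨?_, h.2.of_mul_left_left⟩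
    rintro rfl
    exact h.1 (by rw [Ideal.bot_mul])

/-- the classes modulo two -/
lemma two_mod {α : R} (h : α - 1 ∈ sp (2 : R)) : α - 1 ∈ sp (ff hR) ∨ -α - 1 ∈ sp (ff hR) := by
  rw [Ideal.mem_span_singleton'] at h
  obtain ⟨z, hz⟩ := h
  rcases even_or hR z with ⟨a, b, hab, hz'⟩ | ⟨w, hw⟩
  · right
    obtain ⟨w, hw⟩ := even_div hR (a - 1) b (by omega)
    have h1 : z = 1 + (1 + ii hR) * w := by
      rw [hz', ← hw]
      unfold mkz
      push_cast
      ring
    rw [Ideal.mem_span_singleton']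
    refine ⟨-(1 - ii hR) - w, ?_⟩
    rw [h1] at hz
    unfold ff
    linear_combination -hz + 2 * ii_sq hR
  · left
    rw [Ideal.mem_span_singleton']
    refine ⟨w, ?_⟩
    rw [hw] at hz
    unfold ff
    linear_combination hz

lemma cop_two (J : Ideal R) : IsCoprime J (sp (2 : R)) ↔ IsCoprime J (sp (ff hR)) := by
  have h2 : sp (ff hR) = sp (1 + ii hR) * sp (2 : R) := by
    rw [ff_eq]
    exact (Ideal.span_singleton_mul_span_singleton _ _).symm
  have h3 : sp (2 : R) = sp (1 + ii hR) * sp (1 + ii hR) := by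
    have h4 := sp_ii hR 1 ((1 + ii hR) * (1 + ii hR))
    have h5 : sp (1 + ii hR) * sp (1 + ii hR) = sp ((1 + ii hR) * (1 + ii hR)) :=
      Ideal.span_singleton_mul_span_singleton _ _
    rw [h5, ← h4]
    have h6 : ii hR ^ 1 * ((1 + ii hR) * (1 + ii hR)) = -2 := by
      rw [pow_one]
      linear_combination (2 + ii hR) * ii_sq hR
    rw [h6]
    exact (Ideal.span_singleton_neg _).symm
  constructor
  · intro h
    rw [h2, IsCoprime.mul_right_iff]
    refine ⟨?_, h⟩
    rw [h3] at h
    exact (IsCoprime.mul_right_iff.mp h).1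
  · intro h
    rw [h2] at h
    exact (IsCoprime.mul_right_iff.mp h).2

lemma tx_two {n : ℕ} {S : Finset R} (hX : ∀ p ∈ S, XC x p)
    (hu : cx x S (ii hR) * I ^ n = -1) {α : R} (hα : α - 1 ∈ sp (2 : R)) :
    tx hR n x S (sp α) = cx x S α * (α : ℂ) ^ n := by
  rcases two_mod hR hα with h | h
  · exact tx_gen hR n S h
  · have h5 : sp α = sp (-α) := (Ideal.span_singleton_neg α).symm
    rw [h5, tx_gen hR n S h]
    have e : -α = ii hR ^ 2 * α := by
      rw [pow_two, ii_sq]
      ring
    have h6 : (cx x S (ii hR) * I ^ n) ^ 2 = 1 := by rw [hu]; norm_num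
    rw [mul_pow, ← pow_mul, mul_comm n 2, pow_mul, Complex.I_sq] at h6
    rw [e, cx_mul hX, cx_pow hR hX]
    push_cast
    rw [ii_coe, mul_pow, ← pow_mul, pow_mul, Complex.I_sq]
    linear_combination (cx x S α * (α : ℂ) ^ n) * h6

theorem hc_tx (hbasic : H_BASIC) {n : ℕ} {S : Finset R} (hS : ∀ p ∈ S, Prime p ∧ XC x p)
    (hd : Dst S) (hu : cx x S (ii hR) * I ^ n = -1) :
    HC n (sp (2 * dd S)) (tx hR n x S) := by
  have := pid hR
  have hQ := qc_of hR hbasic hS
  have hX : ∀ p ∈ S, XC x p := fun p hp => (hS p hp).2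
  have hdd := dd_od hR hQ
  have h20 : (2 : R) ≠ 0 := by
    intro h
    have := congrArg Subtype.val h
    have h3 : ((2 : R) : ℂ) = 2 := rfl
    rw [h3] at this
    norm_num at this
  have hsp : sp (2 * dd S) = sp (2 : R) * sp (dd S) :=
    (Ideal.span_singleton_mul_span_singleton _ _).symm
  refine hc_gen hR hbasic (n := n) hS hd (m1 := 2) h20 (fun p hp => ?_)
    (θ := tx hR n x S) (tx_mul hR n hX) ?_ (fun α _ h => tx_two hR hX hu h) ?_
  · exact (cop_ff_pri hR (hX p hp).od).symm.of_isCoprime_of_dvd_left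
      ⟨1 + ii hR, by unfold ff; ring⟩
  · intro A
    rw [hsp, IsCoprime.mul_right_iff, cop_two hR]
    by_cases hA : A ≠ ⊥ ∧ IsCoprime A (sp (ff hR))
    · obtain ⟨α, rfl, hα⟩ := (gen_iff hR A).mpr hA
      rw [tx_gen hR n S hα, cop_dd hQ, mul_eq_zero, cx_zero hX]
      have h1 : (α : ℂ) ^ n ≠ 0 := pow_ne_zero _ (coe_ne (((pri_iff hR α).mp hα).ne hR))
      constructor
      · rintro (⟨p, hp, h3⟩ | h3)
        · exact Or.inr fun h4 => h4.2 p hp h3
        · exact absurd h3 h1
      · rintro (h | h)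
        · exact absurd h hA.1
        · left
          by_contra hcon
          push Not at hcon
          exact h ⟨hA.2, hcon⟩
    · rw [tx_zero' hR n S hA]
      simp only [true_iff]
      tauto
  · intro ε δ h1 h2 h3
    have h4 : ε ∣ 2 := h3.dvd_of_dvd_mul_right ⟨δ, by rw [h1]; ring⟩
    rcases even_or hR ε with ⟨a, b, hab, hmk⟩ | ⟨z, hz⟩
    · exfalso
      obtain ⟨j, -, hj⟩ := odd_unit hR a b hab
      rw [← hmk] at hj
      have h5 := cop_ff_pri hR ((pri_iff hR _).mp hj)
      have h6 : IsCoprime ε (ff hR) := h5.of_mul_left_right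
      exact h2 (h6.isUnit_of_dvd' dvd_rfl (h4.trans ⟨1 + ii hR, by unfold ff; ring⟩))
    · have h1i : (1 + ii hR) ≠ 0 := by
        intro h4
        apply ffn hR
        rw [ff_eq, h4, zero_mul]
      have hD1 : (1 + ii hR) * dd S = δ * (ii hR * z) := by
        refine mul_left_cancel₀ h1i ?_
        rw [hz] at h1
        linear_combination ii hR * h1 + dd S * ii_sq hR
      obtain ⟨d, hdd'⟩ := hdd.form hR
      set α := 1 + (1 + ii hR) * dd S with hα
      -- `- i α` is congruent to `1` modulo `2`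
      have h5 : -ii hR * α - 1 ∈ sp (2 : R) := by
        rw [Ideal.mem_span_singleton']
        refine ⟨-ii hR - ii hR * (1 + ii hR) * (1 + ii hR) * d, ?_⟩
        rw [hα, hdd']
        unfold ff
        linear_combination ii_sq hR
      have hβ : tx hR n x S (sp (-ii hR * α)) = cx x S (-ii hR * α) * ((-ii hR * α : R) : ℂ) ^ n :=
        tx_two hR hX hu h5
      have h6 : sp (-ii hR * α) = sp α := by
        have h7 := sp_ii hR 3 α
        have h8 : ii hR ^ 3 = -ii hR := by
          linear_combination ii hR * ii_sq hR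
        rwa [h8] at h7
      have h7 : α - 1 ∈ sp (dd S) := by
        rw [hα, add_sub_cancel_left]
        exact (sp (dd S)).mul_mem_left _ (Ideal.mem_span_singleton_self _)
      have hcD : ∀ s ∈ S, α ∉ sp s := by
        intro s hs h8
        have := (sp s).sub_mem h8 (mem_dd hs h7)
        rw [sub_sub_cancel] at this
        exact (hQ s hs).max.ne_top ((Ideal.eq_top_iff_one _).mpr this)
      have hc2 : IsCoprime (sp α) (sp (2 : R)) := by
        rw [← h6, Ideal.isCoprime_span_singleton_iff]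
        rw [Ideal.mem_span_singleton'] at h5
        obtain ⟨c, hc⟩ := h5
        exact ⟨1, -c, by linear_combination -hc⟩
      have hα0 : α ≠ 0 := by
        intro h8
        rw [h8] at h5
        rw [mul_zero, zero_sub, Ideal.mem_span_singleton'] at h5
        obtain ⟨c, hc⟩ := h5
        refine i_notdvd hR (-(1 - ii hR) * c) ?_
        linear_combination hc - c * ii_sq hR
      refine ⟨α, hα0, ?_, ?_, ?_⟩
      · rw [hα, add_sub_cancel_left, hD1]
        exact Ideal.mul_mem_right _ _ (Ideal.mem_span_singleton_self δ)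
      · rw [hsp, IsCoprime.mul_right_iff, cop_dd hQ]
        exact ⟨hc2, hcD⟩
      · rw [h6] at hβ
        rw [hβ, cx_mul hX, cx_per hX h7, cx_one hX, mul_one]
        have h8 : (cx x S (-ii hR) * (-I) ^ n) * (cx x S (ii hR) * I ^ n) = 1 := by
          have e1 : cx x S (-ii hR) * cx x S (ii hR) = 1 := by
            rw [← cx_mul hX]
            have : -ii hR * ii hR = 1 := by linear_combination -ii_sq hR
            rw [this, cx_one hX]
          have e2 : (-I) ^ n * I ^ n = 1 := by
            rw [← mul_pow]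
            have : -I * I = 1 := by linear_combination -Complex.I_sq
            rw [this, one_pow]
          calc (cx x S (-ii hR) * (-I) ^ n) * (cx x S (ii hR) * I ^ n) =
              (cx x S (-ii hR) * cx x S (ii hR)) * ((-I) ^ n * I ^ n) := by ring
            _ = 1 := by rw [e1, e2, one_mul]
        rw [hu] at h8
        push_cast
        rw [ii_coe, mul_pow]
        intro h9
        have h10 : (α : ℂ) ^ n = 0 := by
          linear_combination (1 / 2 : ℂ) * (-h9 - (α : ℂ) ^ n * h8)
        exact pow_ne_zero n (coe_ne hα0) h10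

end Pool.Agent.Helper26K9.QT
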