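import Pool.Agent.Helper26K9.QT.Rel
import Pool.Agent.Helper26K9.QT.Drop

/-!
# Quartic twists: the nonvanishing of the `L`-functions
-/

set_option autoImplicit false
set_option linter.unusedSectionVars false

open scoped PeriodPair

namespace Pool.Agent.Helper26K9.QT

open H667R3 Pool.Agent.TH936.CW Pool.Agent.Y690.NV Pool.Agent.Y690.AW Pool.Agent.W192.HK
open Pool.Agent.TH936.CM (IsLat out_sub)
open Pool.Agent.Helper26K9.XO
open Complex (I)

variable {R : Subring ℂ} (hR : ∀ z : ℂ, z ∈ R ↔ ∃ x y : ℤ, z = x + y * I) {x : R → R → ℂ}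

include hR in
lemma unit_cases {S : Finset R} (hu2 : cx x S (ii hR) ^ 2 = -1) (e : ℕ) :
    cx x S (ii hR) * I ^ (2 * e + 1) = 1 ∨ cx x S (ii hR) * I ^ (2 * e + 1) = -1 := by
  have h1 : (cx x S (ii hR) * I ^ (2 * e + 1)) ^ 2 = 1 := by
    rw [mul_pow, hu2, ← pow_mul, mul_comm (2 * e + 1) 2, pow_mul, Complex.I_sq]
    have : (-1 : ℂ) ^ (2 * e + 1) = -1 := Odd.neg_one_pow ⟨e, rfl⟩
    rw [this]
    norm_num
  have h2 : (cx x S (ii hR) * I ^ (2 * e + 1) - 1) * (cx x S (ii hR) * I ^ (2 * e + 1) + 1) = 0 := by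
    linear_combination h1
  rcases mul_eq_zero.mp h2 with h3 | h3
  · exact Or.inl (sub_eq_zero.mp h3)
  · exact Or.inr (eq_neg_of_add_eq_zero_left h3)

include hR in
open Classical in
theorem nv4 (sv : S_SV) (sm : S_SM) (kb : S_KB) (val : S_VAL) (nvg : S_NVG)
    (hbasic : H_BASIC) (hfp : H_FP) (hcnt : H_CNT) (hdec : H_DEC) (hafe : H_AFE) {e : ℕ}
    (he : e ≤ 1) {S : Finset R} (hS : ∀ p ∈ S, Prime p ∧ XC x p) (hd : Dst S) (hne : S.Nonempty)
    (htz : tz aa zn S = 1) (hu2 : cx x S (ii hR) ^ 2 = -1) : NVan e (tx hR (2 * e + 1) x S) := by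
  obtain ⟨L, Ω, q, hL, hCM, g2, hq, hT⟩ := exists_base (qr hR)
  have hX : ∀ p ∈ S, XC x p := fun p hp => (hS p hp).2
  have hsum := sum4 (x := xb x) hR hL hCM g2 hq hT sv sm kb val hbasic he
    (fun p hp => ⟨(hS p hp).1, (hX p hp).conj⟩) hd hne htz
  have hod := dd_od' hR hX
  have hD := hod.ne hR
  rcases unit_cases hR hu2 e with hu | hu
  · refine drop hR hbasic hX hu ?_
    refine nvg hbasic hfp hcnt hdec hafe R hR L Ω q hL hCM hq (dd S) e _ hD ?_
      (hc_ty hR hbasic hS hd hu) (relA hR hL hCM hq hbasic hS hne hu hsum)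
    intro h
    obtain ⟨p, hp⟩ := hne
    have h1 : (1 : R) ∈ sp (dd S) := by
      rw [h]
      exact Submodule.mem_top
    exact (hX p hp).max.ne_top ((Ideal.eq_top_iff_one _).mpr (mem_dd hp h1))
  · have h20 : (2 : R) ≠ 0 := by
      intro h
      have := congrArg Subtype.val h
      have h3 : ((2 : R) : ℂ) = 2 := rfl
      rw [h3] at this
      norm_num at this
    refine nvg hbasic hfp hcnt hdec hafe R hR L Ω q hL hCM hq (2 * dd S) e _
      (mul_ne_zero h20 hD) ?_ (hc_tx hR hbasic hS hd hu) (relB hR hL hCM hq hbasic hfp hS hd hu hsum)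
    intro h
    have h1 : (1 : R) ∈ sp (2 * dd S) := by
      rw [h]
      exact Submodule.mem_top
    obtain ⟨p, hp⟩ := hne
    exact (hX p hp).max.ne_top ((Ideal.eq_top_iff_one _).mpr (mem_dd hp (mem_sp_mul_right h1)))

end Pool.Agent.Helper26K9.QT
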