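import Pool.Agent.Helper26K9.QT.Base

/-!
# Quartic twists: the residues of the twisted sums
-/

set_option autoImplicit false
set_option linter.unusedSectionVars false
set_option linter.unusedSimpArgs false

namespace Pool.Agent.Helper26K9.QT

open Pool.Agent.Y690.NV Pool.Agent.Y690.AW Pool.Agent.W192.HK
open Pool.Agent.Helper26K9.XO
open Complex (I)

variable {R : Subring ℂ} {Γ : Type*} [LinearOrderedCommGroupWithZero Γ] {v : Valuation ℂ Γ}

lemma la_ne : (1 + I : ℂ) ≠ 0 := by
  intro h
  have := congrArg Complex.re h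
  simp at this

lemma v_la_pos : 0 < v (1 + I) := by
  rw [zero_lt_iff, Ne, map_eq_zero]
  exact la_ne

lemma v_la (h2 : v 2 < 1) : v (1 + I) < 1 := v_one_add_j h2 Complex.I_sq

lemma v_la_sq : v 2 = v (1 + I) ^ 2 := by
  have e : (2 : ℂ) = -I * (1 + I) ^ 2 := by
    linear_combination (I + 2) * Complex.I_sq
  have hI : v I = 1 := v_j Complex.I_sq
  rw [← map_pow]
  conv_lhs => rw [e]
  rw [map_mul, Valuation.map_neg, hI, one_mul]

/-- a fourth root of unity is determined modulo `2` by its square -/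
lemma root_par (h2 : v 2 < 1) {y : ℂ} (hy : y ^ 2 = 1 ∨ y ^ 2 = -1) :
    Pq v (1 + I) (1 - y) (if y ^ 2 = -1 then 1 else 0) := by
  have h1 := v_la (v := v) h2
  have hp := v_la_pos (v := v)
  rcases hy with h | h
  · rw [if_neg (by rw [h]; norm_num)]
    refine Pq.zero ?_
    have h3 : (y - 1) * (y + 1) = 0 := by linear_combination h
    rcases mul_eq_zero.mp h3 with h4 | h4
    · have : (1 : ℂ) - y = 0 := by linear_combination -h4
      rw [this, map_zero]
      exact hp
    · have : (1 : ℂ) - y = 2 := by linear_combination -h4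
      rw [this, v_la_sq, pow_two]
      calc v (1 + I) * v (1 + I) < 1 * v (1 + I) := mul_lt_mul_of_pos_right h1 hp
        _ = _ := one_mul _
  · rw [if_pos h]
    refine ⟨1, by simp, ?_⟩
    rw [Int.cast_one, mul_one]
    have h3 : (y - I) * (y + I) = 0 := by linear_combination h - Complex.I_sq
    have h4 : v (1 - y - (1 + I)) ≤ v (1 + I) ^ 2 := by
      rcases mul_eq_zero.mp h3 with h4 | h4
      · have : (1 : ℂ) - y - (1 + I) = -(2 * I) := by linear_combination -h4
        rw [this, Valuation.map_neg, map_mul, v_la_sq, v_j Complex.I_sq, mul_one]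
      · have : (1 : ℂ) - y - (1 + I) = 0 := by linear_combination -h4
        rw [this, map_zero]
        exact zero_le
    refine h4.trans_lt ?_
    rw [pow_two]
    calc v (1 + I) * v (1 + I) < 1 * v (1 + I) := mul_lt_mul_of_pos_right h1 hp
      _ = _ := one_mul _

variable {x : R → R → ℂ}

lemma XC.pm {p : R} (h : XC x p) {α : R} (hα : α ∉ sp p) :
    (x p α ^ 2 = 1 ∧ qs p α = 1) ∨ (x p α ^ 2 = -1 ∧ qs p α = -1) := by
  have h1 := h.sq α
  have h0 : x p α ≠ 0 := fun h0 => hα ((h.zero α).mp h0)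
  rcases qs_three p α with h2 | h2 | h2
  · rw [h2, Int.cast_zero] at h1
    exact absurd (pow_eq_zero_iff (two_ne_zero)|>.mp h1) h0
  · left
    rw [h2] at h1
    refine ⟨by simpa using h1, h2⟩
  · right
    rw [h2] at h1
    refine ⟨by simpa using h1, h2⟩

lemma cx_mul {V : Finset R} (h : ∀ p ∈ V, XC x p) (r s : R) :
    cx x V (r * s) = cx x V r * cx x V s := by
  unfold cx
  rw [← Finset.prod_mul_distrib]
  exact Finset.prod_congr rfl fun p hp => (h p hp).mul r s

lemma cx_per {V : Finset R} (h : ∀ p ∈ V, XC x p) {r s : R} (hrs : r - s ∈ sp (dd V)) :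
    cx x V r = cx x V s :=
  Finset.prod_congr rfl fun p hp => (h p hp).per r s (mem_dd hp hrs)

lemma cx_one {V : Finset R} (h : ∀ p ∈ V, XC x p) : cx x V 1 = 1 :=
  Finset.prod_eq_one fun p hp => (h p hp).one

lemma cx_empty (r : R) : cx x ∅ r = 1 := Finset.prod_empty

open Classical in
lemma cx_par (h2 : v 2 < 1) {V : Finset R} (h : ∀ p ∈ V, XC x p) {r : R}
    (hr : ∀ p ∈ V, r ∉ sp p) :
    Pq v (1 + I) (1 - cx x V r) (∑ l ∈ V, aa r l) ∧
      ((cx x V r ^ 2 = 1 ∧ ∑ l ∈ V, aa r l = 0) ∨ (cx x V r ^ 2 = -1 ∧ ∑ l ∈ V, aa r l = 1)) := by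
  have key : (cx x V r ^ 2 = 1 ∧ ∑ l ∈ V, aa r l = 0) ∨
      (cx x V r ^ 2 = -1 ∧ ∑ l ∈ V, aa r l = 1) := by
    induction V using Finset.induction_on with
    | empty =>
      left
      rw [cx_empty, Finset.sum_empty]
      exact ⟨one_pow _, rfl⟩
    | insert p V hp ih =>
      have ih' := ih (fun q hq => h q (Finset.mem_insert_of_mem hq))
        (fun q hq => hr q (Finset.mem_insert_of_mem hq))
      have h1 := (h p (Finset.mem_insert_self _ _)).pm (hr p (Finset.mem_insert_self _ _))
      have e1 : cx x (insert p V) r = x p r * cx x V r := by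
        unfold cx
        rw [Finset.prod_insert hp]
      rw [e1, Finset.sum_insert hp, mul_pow]
      have ha : ∀ s : ℤ, qs p r = s → aa r p = if s = -1 then 1 else 0 := by
        intro s hs
        unfold aa
        rw [hs]
      rcases h1 with ⟨h3, h4⟩ | ⟨h3, h4⟩
      · rw [ha 1 h4, if_neg (by norm_num), h3]
        rcases ih' with ⟨h5, h6⟩ | ⟨h5, h6⟩
        · left; rw [h5, h6]; exact ⟨by norm_num, by decide⟩
        · right; rw [h5, h6]; exact ⟨by norm_num, by decide⟩
      · rw [ha (-1) h4, if_pos rfl, h3]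
        rcases ih' with ⟨h5, h6⟩ | ⟨h5, h6⟩
        · right; rw [h5, h6]; exact ⟨by norm_num, by decide⟩
        · left; rw [h5, h6]; exact ⟨by norm_num, by decide⟩
  refine ⟨?_, key⟩
  have h3 := root_par (v := v) h2 (y := cx x V r) (key.elim (fun h => Or.inl h.1)
    (fun h => Or.inr h.1))
  rcases key with ⟨h5, h6⟩ | ⟨h5, h6⟩
  · rw [h6]
    rw [if_neg (by rw [h5]; norm_num)] at h3
    exact h3
  · rw [h6]
    rw [if_pos h5] at h3
    exact h3

section main

variable (h2 : v 2 < 1) {G : R → R → ℂ} {c : R → ℂ} (h : DS G c) {z : R → ZMod 2}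
  (hR : ∀ z : ℂ, z ∈ R ↔ ∃ x y : ℤ, z = x + y * I)

include h2 in
lemma fac4 {U V : Finset R} (hU : ∀ p ∈ U, XC x p) (hd : Dst U) (hV : V ⊆ U) {p : R}
    (hp : p ∈ U \ V) (hc : v (c p - 1) < v (1 + I)) :
    Pq v (1 + I) (c p - cx x V p) (∑ l ∈ V, aa p l) := by
  rw [Finset.mem_sdiff] at hp
  have h1 := (cx_par (v := v) h2 (fun l hl => hU l (hV hl)) (r := p) (fun l hl =>
    hd p hp.1 l (hV hl) fun hpl => hp.2 (hpl ▸ hl))).1
  have e : c p - cx x V p = (1 - cx x V p) + (c p - 1) := by ring
  rw [e]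
  have h3 := h1.add (Pq.zero hc)
  rwa [add_zero] at h3

include h2 in
lemma prod4 {U V : Finset R} (hU : ∀ p ∈ U, XC x p) (hd : Dst U) (hV : V ⊆ U)
    (hc : ∀ p ∈ U, v (c p - 1) < v (1 + I)) (W : Finset R) (hW : W ⊆ U \ V) :
    Pq v ((1 + I) ^ W.card) (∏ p ∈ W, (c p - cx x V p)) (∏ p ∈ W, ∑ l ∈ V, aa p l) := by
  classical
  induction W using Finset.induction_on with
  | empty =>
    rw [Finset.prod_empty, Finset.prod_empty, Finset.card_empty, pow_zero]
    exact Pq.of_N1 N1.one
  | insert i s hi ih =>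
    rw [Finset.prod_insert hi, Finset.prod_insert hi, Finset.card_insert_of_notMem hi, pow_succ']
    exact (fac4 h2 hU hd hV (hW (Finset.mem_insert_self _ _))
      (hc i (Finset.sdiff_subset (hW (Finset.mem_insert_self _ _))))).mul
      (ih fun j hj => hW (Finset.mem_insert_of_mem hj))

include h2 h hR in
open Classical in
/-- **the residues of the twisted sums** -/
theorem half4 (sv : S_SV) {U : Finset R} (hU : ∀ p ∈ U, XC x p) (hd : Dst U)
    (hc : ∀ p ∈ U, v (c p - 1) < v (1 + I))
    (h1 : ∀ p ∈ U, Pq v (1 + I) (Ts G (dd {p}) (kx x {p}) - (c p - 1) * TX x G ∅) (z p))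
    (hbig : ∀ W ⊆ U, 2 ≤ W.card →
      v (Ts G (dd W) (kx x W) - (∏ p ∈ W, (c p - 1)) * TX x G ∅) < v ((1 + I) ^ W.card)) :
    ∀ W ⊆ U, W.Nonempty → Pq v ((1 + I) ^ W.card) (TX x G W) (tz aa z W) := by
  intro W
  induction W using Finset.strongInduction with
  | _ W ih =>
    intro hW hne
    have hWQ : ∀ p ∈ W, XC x p := fun p hp => hU p (hW hp)
    have hWd : Dst W := fun p hp s hs => hd p (hW hp) s (hW hs)
    have hmem : W ∈ W.powerset := Finset.mem_powerset.mpr (Finset.Subset.refl W)
    have hall := sv R hR G c h x W hWQ hWd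
    have hem : (∅ : Finset R) ∈ W.powerset.erase W := by
      rw [Finset.mem_erase]
      exact ⟨hne.ne_empty.symm, Finset.empty_mem_powerset W⟩
    rw [← Finset.add_sum_erase _ _ hmem, ← Finset.add_sum_erase _ _ hem] at hall
    have e1 : (∏ p ∈ W \ W, (c p - cx x W p)) * TX x G W = TX x G W := by
      rw [Finset.sdiff_self, Finset.prod_empty, one_mul]
    have e2 : (∏ p ∈ W \ ∅, (c p - cx x ∅ p)) * TX x G ∅ = (∏ p ∈ W, (c p - 1)) * TX x G ∅ := by
      rw [Finset.sdiff_empty]
      simp only [cx_empty]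
    rw [e1, e2] at hall
    rcases lt_or_ge W.card 2 with hcard | hcard
    · obtain ⟨p, rfl⟩ : ∃ p, W = {p} := by
        rw [← Finset.card_eq_one]
        have := hne.card_pos
        omega
      have e3 : (({p} : Finset R).powerset.erase {p}).erase ∅ = ∅ := by
        ext V
        simp only [Finset.mem_erase, Finset.mem_powerset, Finset.subset_singleton_iff,
          Finset.notMem_empty, iff_false]
        tauto
      rw [e3, Finset.sum_empty, add_zero, Finset.prod_singleton] at hall
      have h3 := h1 p (hW (Finset.mem_singleton_self p))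
      rw [tz_single, Finset.card_singleton, pow_one]
      have e4 : TX x G {p} = Ts G (dd {p}) (kx x {p}) - (c p - 1) * TX x G ∅ := by
        rw [hall]
        ring
      rw [e4]
      exact h3
    · have h3 : Pq v ((1 + I) ^ W.card) (Ts G (dd W) (kx x W) -
          (∏ p ∈ W, (c p - 1)) * TX x G ∅) 0 := Pq.zero (hbig W hW hcard)
      have hβ' : (1 + I : ℂ) ^ W.card ≠ 0 := pow_ne_zero _ la_ne
      have h4 : Pq v ((1 + I) ^ W.card) (∑ V ∈ (W.powerset.erase W).erase ∅,
          (∏ p ∈ W \ V, (c p - cx x V p)) * TX x G V)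
          (∑ V ∈ (W.powerset.erase W).erase ∅, (∏ p ∈ W \ V, ∑ l ∈ V, aa p l) * tz aa z V) := by
        refine Pq.sum hβ' _ fun V hV => ?_
        rw [Finset.mem_erase, Finset.mem_erase, Finset.mem_powerset] at hV
        have hlt : V ⊂ W := ⟨hV.2.2, fun h6 => hV.2.1 (Finset.Subset.antisymm hV.2.2 h6)⟩
        have h5 := ih V hlt (hV.2.2.trans hW) (Finset.nonempty_iff_ne_empty.mpr hV.1)
        have h6 := prod4 h2 hWQ hWd hV.2.2 (fun p hp => hc p (hW hp)) (W \ V)
          (Finset.Subset.refl _)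
        have h7 := h6.mul h5
        have e5 : (1 + I : ℂ) ^ (W \ V).card * (1 + I) ^ V.card = (1 + I) ^ W.card := by
          rw [← pow_add, Finset.card_sdiff_add_card_eq_card hV.2.2]
        rw [e5] at h7
        exact h7
      have h5 := h3.sub h4
      rw [zero_add] at h5
      have e6 : Ts G (dd W) (kx x W) - (∏ p ∈ W, (c p - 1)) * TX x G ∅ -
          ∑ V ∈ (W.powerset.erase W).erase ∅, (∏ p ∈ W \ V, (c p - cx x V p)) *
            TX x G V = TX x G W := by
        rw [hall]
        ring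
      rw [e6] at h5
      have h6 := tz_rec aa z hcard
      rw [← Finset.add_sum_erase _ _ hmem, ← Finset.add_sum_erase _ _ hem, tz_empty, mul_zero,
        zero_add, Finset.sdiff_self, Finset.prod_empty, one_mul] at h6
      rw [CharTwo.add_eq_zero.mp h6]
      exact h5

end main

/-! ### sums over pairs -/

/-- sums over pairs -/
theorem pairs_lt {F : Type*} [AddGroup F] [Fintype F] (h : F → ℂ) {g : Γ} (hg0 : 0 < g)
    (h0 : ∀ w, -w = w → h w = 0) (hg : ∀ w, v (h w + h (-w)) < g) : v (∑ w, h w) < g := by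
  classical
  have key : ∀ s : Finset F, (∀ w ∈ s, -w ∈ s) → v (∑ w ∈ s, h w) < g := by
    intro s
    induction s using Finset.strongInduction with
    | _ s ih =>
      intro hs
      rcases s.eq_empty_or_nonempty with rfl | ⟨w, hw⟩
      · rw [Finset.sum_empty, map_zero]
        exact hg0
      · by_cases hww : -w = w
        · have h1 : v (∑ y ∈ s.erase w, h y) < g := by
            refine ih _ (Finset.erase_ssubset hw) fun y hy => ?_
            rw [Finset.mem_erase] at hy ⊢
            refine ⟨fun h3 => hy.1 ?_, hs y hy.2⟩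
            rw [← neg_neg y, h3, hww]
          rw [← Finset.add_sum_erase _ _ hw, h0 w hww, zero_add]
          exact h1
        · have hw2 : -w ∈ s.erase w := Finset.mem_erase.mpr ⟨hww, hs w hw⟩
          have h1 : v (∑ y ∈ (s.erase w).erase (-w), h y) < g := by
            refine ih _ ((Finset.erase_ssubset hw2).trans (Finset.erase_ssubset hw)) fun y hy => ?_
            rw [Finset.mem_erase, Finset.mem_erase] at hy ⊢
            refine ⟨fun h3 => hy.2.1 (neg_injective h3), fun h3 => hy.1 ?_, hs y hy.2.2⟩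
            rw [← h3, neg_neg]
          rw [← Finset.add_sum_erase _ _ hw, ← Finset.add_sum_erase _ _ hw2, ← add_assoc]
          exact (v.map_add _ _).trans_lt (max_lt (hg w) h1)
  exact key Finset.univ fun w _ => Finset.mem_univ _

end Pool.Agent.Helper26K9.QT
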