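import Pool.Agent.Helper26K9.QT.Par

/-!
# Quartic twists: the twisted sums do not vanish
-/

set_option autoImplicit false
set_option linter.unusedSectionVars false
set_option linter.unusedSimpArgs false

open scoped PeriodPair

namespace Pool.Agent.Helper26K9.QT

open H667R3 Pool.Agent.TH936.CW Pool.Agent.Y690.NV Pool.Agent.Y690.AW Pool.Agent.W192.HK
open Pool.Agent.TH936.CM (IsLat out_sub)
open Pool.Agent.Helper26K9.XO
open Complex (I)

variable {R : Subring ℂ} {Γ : Type} [hΓ : LinearOrderedCommGroupWithZero Γ] {v : Valuation ℂ Γ}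
  {x : R → R → ℂ} (hR : ∀ z : ℂ, z ∈ R ↔ ∃ x y : ℤ, z = x + y * I)

lemma kx_per {U : Finset R} (hU : ∀ p ∈ U, XC x p) {r s : R} (h : r - s ∈ sp (dd U)) :
    kx x U r = kx x U s :=
  Finset.prod_congr rfl fun p hp => by
    rw [(hU p hp).per r s (mem_dd hp h), cpI_per (mem_dd hp h)]

lemma kx_zero {U : Finset R} (hU : ∀ p ∈ U, XC x p) {p : R} (hp : p ∈ U) {r : R}
    (hr : r ∈ sp p) : kx x U r = 0 := by
  unfold kx
  refine Finset.prod_eq_zero hp ?_
  rw [((hU p hp).zero r).mpr hr]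
  unfold cpI
  rw [if_pos hr, add_zero]

lemma dd_od' (hR : ∀ z : ℂ, z ∈ R ↔ ∃ x y : ℤ, z = x + y * I) {V : Finset R}
    (h : ∀ p ∈ V, XC x p) : Pri (dd V) :=
  Pri.prod hR fun p hp => (h p hp).od

lemma TX_empty (hR : ∀ z : ℂ, z ∈ R ↔ ∃ x y : ℤ, z = x + y * I) {G : R → R → ℂ} {c : R → ℂ}
    (h : DS G c) {y : ℂ} (hG : ∀ D r : R, Pri D → r ∈ sp D → G D r = y) : TX x G ∅ = y := by
  have h1 := TT_empty hR h hG
  unfold TX
  unfold Pool.Agent.Helper26K9.XO.TT at h1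
  rw [← h1]
  congr 1
  funext r
  rw [cx_empty]
  unfold ch
  rw [Finset.prod_empty, Int.cast_one]

section rhs

variable {ρ : ℂ} (hρ : ρ ^ 4 = 2) (hr : v ρ < 1)

include hρ hr in
lemma v_rho_sq : v ρ ^ 2 = v (1 + I) := by
  have hN := N1_root (v := v) hρ hr
  have hρ0 := rho_ne hρ
  have h3 := hN.val
  rw [map_div₀, div_eq_one_iff_eq] at h3
  · rw [h3, map_pow]
  · rw [Ne, map_eq_zero]
    exact pow_ne_zero _ hρ0

include hρ hr in
lemma scale_la : v (ρ ^ 2 - (1 + I)) < v (ρ ^ 2) := by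
  have hN := N1_root (v := v) hρ hr
  have hρ0 := rho_ne hρ
  have e : ρ ^ 2 - (1 + I) = -(ρ ^ 2) * ((1 + I) / ρ ^ 2 - 1) := by
    field_simp
    ring
  rw [e, map_mul, Valuation.map_neg]
  calc v (ρ ^ 2) * v ((1 + I) / ρ ^ 2 - 1) < v (ρ ^ 2) * 1 := by
        refine mul_lt_mul_of_pos_left hN ?_
        rw [zero_lt_iff, Ne, map_eq_zero]
        exact pow_ne_zero _ hρ0
    _ = _ := mul_one _

include hR hρ hr in
theorem rhs4 (sm : S_SM) (kb : S_KB) (hbasic : H_BASIC) {G : R → R → ℂ} {c : R → ℂ} (h : DS G c)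
    (hG0 : ∀ D r : R, Pri D → r ∈ sp D → G D r = 1 / 2)
    (hG1 : ∀ D r : R, Pri D → v (ρ ^ 2 * (G D r - 1 / 2)) < 1 ∧ v (G D r + G D (-r) - 1) < 1)
    {U : Finset R} (hU : ∀ p ∈ U, Prime p ∧ XC x p) (hd : Dst U) (hne : U.Nonempty) :
    v (Ts G (dd U) (kx x U)) < v ((1 + I) ^ U.card) := by
  have h2 := two_lt hρ hr
  have hp := rho_pos (v := v) hρ
  have hXC : ∀ p ∈ U, XC x p := fun p hp => (hU p hp).2
  have hod := dd_od' hR hXC
  have := h.fin _ hod
  have := Fintype.ofFinite (R ⧸ sp (dd U))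
  have hla := v_rho_sq (v := v) hρ hr
  have hvg : v ((1 + I) ^ U.card) = v ρ ^ (2 * U.card) := by
    rw [map_pow, ← hla, ← pow_mul]
  have hcard : 1 ≤ U.card := hne.card_pos
  have e1 : Ts G (dd U) (kx x U) = 1 / 2 * rs (dd U) (kx x U) +
      ∑ w : R ⧸ sp (dd U), kx x U w.out * (G (dd U) w.out - 1 / 2) := by
    unfold Ts
    rw [rs_eq, rs_eq, Finset.mul_sum, ← Finset.sum_add_distrib]
    refine Finset.sum_congr rfl fun w _ => ?_
    ring
  rw [e1]
  refine v_add_lt ?_ ?_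
  · rw [sm R hR hbasic x U hU hd, map_mul, map_prod, hvg, map_div₀, map_one, v_two hρ]
    have h3 : ∏ p ∈ U, v ((Nat.card (R ⧸ sp p) : ℂ) - 1) ≤ v ρ ^ (8 * U.card) := by
      calc ∏ p ∈ U, v ((Nat.card (R ⧸ sp p) : ℂ) - 1) ≤ ∏ _p ∈ U, v ρ ^ 8 := by
            refine Finset.prod_le_prod' fun p hpW => ?_
            have h3 := (card_par (v := v) hR hbasic (hXC p hpW).od).le
            rwa [map_mul, v_two hρ, ← pow_add] at h3
        _ = v ρ ^ (8 * U.card) := by rw [Finset.prod_const, ← pow_mul]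
    have h4 : v ρ ^ (8 * U.card) = v ρ ^ 4 * v ρ ^ (8 * U.card - 4) := by
      rw [← pow_add]
      congr 1
      omega
    calc 1 / v ρ ^ 4 * ∏ p ∈ U, v ((Nat.card (R ⧸ sp p) : ℂ) - 1)
        ≤ 1 / v ρ ^ 4 * v ρ ^ (8 * U.card) := mul_le_mul_right h3 _
      _ = v ρ ^ (8 * U.card - 4) := by
          rw [h4, one_div, ← mul_assoc, inv_mul_cancel₀ (pow_pos hp 4).ne', one_mul]
      _ < v ρ ^ (2 * U.card) := lt_pow hρ hr (by omega)
  · have hG : ∀ w : R ⧸ sp (dd U), kx x U (-w).out * (G (dd U) (-w).out - 1 / 2) =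
        kx x U (-w.out) * (G (dd U) (-w.out) - 1 / 2) := by
      intro w
      rw [kx_per hXC (neg_out w), h.per _ _ _ hod (neg_out w)]
    refine pairs_lt (v := v) (fun w : R ⧸ sp (dd U) => kx x U w.out * (G (dd U) w.out - 1 / 2))
      (by rw [hvg]; exact pow_pos hp _) (fun w hw => ?_) (fun w => ?_)
    · obtain ⟨p, hp⟩ := hne
      have h3 : w.out ∈ sp (dd U) := by
        rw [Pri.two_cancel hR hod w hw]
        exact zero_out
      rw [kx_zero hXC hp (mem_dd hp h3), zero_mul]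
    · rw [hG]
      obtain ⟨k1, k2⟩ := kb R x U hXC Γ hΓ v h2 w.out
      obtain ⟨k3, -⟩ := kb R x U hXC Γ hΓ v h2 (-w.out)
      obtain ⟨g1, g2⟩ := hG1 (dd U) w.out hod
      have e2 : kx x U w.out * (G (dd U) w.out - 1 / 2) +
          kx x U (-w.out) * (G (dd U) (-w.out) - 1 / 2) =
          (kx x U w.out - kx x U (-w.out)) * (G (dd U) w.out - 1 / 2) +
          kx x U (-w.out) * (G (dd U) w.out + G (dd U) (-w.out) - 1) := by ring
      rw [e2, map_pow]
      have hpos : 0 < v (1 + I) ^ U.card := pow_pos v_la_pos _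
      refine v_add_lt ?_ ?_
      · rw [map_mul]
        calc v (kx x U w.out - kx x U (-w.out)) * v (G (dd U) w.out - 1 / 2)
            ≤ v (1 + I) ^ (U.card + 1) * v (G (dd U) w.out - 1 / 2) := mul_le_mul_left k2 _
          _ = v (1 + I) ^ U.card * v (ρ ^ 2 * (G (dd U) w.out - 1 / 2)) := by
              rw [pow_succ, map_mul v (ρ ^ 2), map_pow v ρ, hla, mul_assoc]
          _ < v (1 + I) ^ U.card * 1 := mul_lt_mul_of_pos_left g1 hpos
          _ = _ := mul_one _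
      · rw [map_mul]
        calc v (kx x U (-w.out)) * v (G (dd U) w.out + G (dd U) (-w.out) - 1)
            ≤ v (1 + I) ^ U.card * v (G (dd U) w.out + G (dd U) (-w.out) - 1) :=
              mul_le_mul_left k3 _
          _ < v (1 + I) ^ U.card * 1 := mul_lt_mul_of_pos_left g2 hpos
          _ = _ := mul_one _

end rhs

section main

variable {L : PeriodPair} {q Ω : ℂ} (hL : IsLat L R Ω) (hCM : H667R3.CM L) (g2 : L.g₂ = -1)
  (hq : ∀ l ∈ L.lattice, eta L l = 0 * l + q * (starRingEnd ℂ) l)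
  (hT : TP L q 1 (Ω / (2 + 2 * I)))

include hR hL hCM hq hT in
theorem ds_G4 (hbasic : H_BASIC) (e : ℕ) :
    DS (fun D r : R => G4 L q Ω e D r) (fun p => gm e (p : ℂ)) := by
  have h1 := ds_ek hR hL hCM hq hbasic e hT (fix_T hR hL)
  have h2 := DS_lin h1 h1 (2 ^ e * (e.factorial : ℂ)) 0
  have e1 : (fun D r : R => G4 L q Ω e D r) = fun D r : R => 2 ^ e * (e.factorial : ℂ) *
      ek L 0 q e (Ω / (2 + 2 * I) + Ω * r / D) + 0 * ek L 0 q e (Ω / (2 + 2 * I) + Ω * r / D) := by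
    funext D r
    unfold G4
    ring
  rw [e1]
  exact h2

include hR hL hCM g2 hq hT in
open Classical in
/-- **the residues of the twisted sums** -/
theorem res4 {ρ : ℂ} (hρ : ρ ^ 4 = 2) (hr : v ρ < 1) (sv : S_SV) (sm : S_SM) (kb : S_KB)
    (val : S_VAL) (hbasic : H_BASIC) {e : ℕ} (he : e ≤ 1) {S : Finset R}
    (hS : ∀ p ∈ S, Prime p ∧ XC x p) (hd : Dst S) : ∀ W ⊆ S, W.Nonempty →
      Pq v ((1 + I) ^ W.card) (TX x (fun D r : R => G4 L q Ω e D r) W) (tz aa zn W) := by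
  have h2 := two_lt hρ hr
  have hp := rho_pos (v := v) hρ
  have hla := v_rho_sq (v := v) hρ hr
  obtain ⟨v0, v1⟩ := val R hR L q Ω hL hCM g2 hq hT e he
  have hDS := ds_G4 hR hL hCM hq hT hbasic e
  have hem : TX x (fun D r : R => G4 L q Ω e D r) ∅ = 1 / 2 := TX_empty hR hDS v0
  have hrhs : ∀ W ⊆ S, W.Nonempty → v (Ts (fun D r : R => G4 L q Ω e D r) (dd W) (kx x W)) <
      v ((1 + I) ^ W.card) := fun W hW hne =>
    rhs4 hR hρ hr sm kb hbasic hDS v0 (fun D r hD => v1 Γ hΓ v ρ hρ hr D r hD)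
      (fun p hp => hS p (hW hp)) (fun p hp s hs => hd p (hW hp) s (hW hs)) hne
  have hhalf : Pq v (1 / 2) (1 / 2 : ℂ) 1 := Pq.self (by norm_num)
  have hgm : ∀ p ∈ S, Pq v (ρ ^ 2) ((gm e (p : ℂ) - 1) * (1 / 2)) (zn p) := by
    intro p hp
    have h3 := (gm_par (v := v) hR hρ hr hbasic (hS p hp).2.od e).mul hhalf
    rw [mul_one] at h3
    have e1 : (2 : ℂ) * ρ ^ 2 * (1 / 2) = ρ ^ 2 := by ring
    rwa [e1] at h3
  refine half4 h2 hDS hR sv (fun p hp => (hS p hp).2) hd (fun p hp => ?_) (fun p hp => ?_)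
    (fun W hW hcard => ?_)
  · refine (gm_one hR hρ hr (hS p hp).2.od e).trans_le ?_
    rw [v_la_sq, pow_two]
    exact mul_le_of_le_one_left' (v_la h2).le
  · rw [hem]
    have h3 := (hgm p hp).scale (scale_la hρ hr)
    have h4 := Pq.zero (hrhs {p} (Finset.singleton_subset_iff.mpr hp)
      (Finset.singleton_nonempty p))
    rw [Finset.card_singleton, pow_one] at h4
    have h5 := h4.sub h3
    rwa [zero_add] at h5
  · rw [hem]
    refine lt_of_le_of_lt (v.map_sub _ _) (max_lt (hrhs W hW (Finset.card_pos.mp (by omega))) ?_)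
    rw [map_mul, map_div₀, map_one, v_two hρ, map_prod, map_pow, ← hla, ← pow_mul]
    have h6 : ∏ p ∈ W, v (gm e (p : ℂ) - 1) ≤ v ρ ^ (6 * W.card) := by
      calc ∏ p ∈ W, v (gm e (p : ℂ) - 1) ≤ ∏ _p ∈ W, v ρ ^ 6 := by
            refine Finset.prod_le_prod' fun p hpW => ?_
            have h3 := (gm_par (v := v) hR hρ hr hbasic (hS p (hW hpW)).2.od e).le
            rwa [map_mul, v_two hρ, map_pow, ← pow_add] at h3
        _ = v ρ ^ (6 * W.card) := by rw [Finset.prod_const, ← pow_mul]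
    have h7 : v ρ ^ (6 * W.card) = v ρ ^ (6 * W.card - 4) * v ρ ^ 4 := by
      rw [← pow_add]
      congr 1
      omega
    calc (∏ p ∈ W, v (gm e (p : ℂ) - 1)) * (1 / v ρ ^ 4) ≤ v ρ ^ (6 * W.card) * (1 / v ρ ^ 4) :=
          mul_le_mul_left h6 _
      _ = v ρ ^ (6 * W.card - 4) := by
          rw [h7, one_div, mul_assoc, mul_inv_cancel₀ (pow_pos hp 4).ne', mul_one]
      _ < v ρ ^ (2 * W.card) := lt_pow hρ hr (by omega)

include hR hL hCM g2 hq hT in
open Classical in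
/-- the character sum is not zero -/
theorem sum4 (sv : S_SV) (sm : S_SM) (kb : S_KB) (val : S_VAL) (hbasic : H_BASIC) {e : ℕ}
    (he : e ≤ 1) {S : Finset R} (hS : ∀ p ∈ S, Prime p ∧ XC x p) (hd : Dst S) (hne : S.Nonempty)
    (htz : tz aa zn S = 1) :
    rs (dd S) (fun r => cx x S r * ek L 0 q e (Ω / (2 + 2 * I) + Ω * r / dd S)) ≠ 0 := by
  obtain ⟨V, hV⟩ := exists_V
  obtain ⟨ρ, hρ, hr⟩ := exists_rho hV
  have h1 := res4 (x := x) hR hL hCM g2 hq hT hρ hr sv sm kb val hbasic he hS hd S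
    (Finset.Subset.refl S) hne
  rw [htz] at h1
  have h3 := h1.ne_zero hV
  intro h4
  apply h3
  have hod := dd_od' hR (fun p hp => (hS p hp).2)
  obtain ⟨b1, -⟩ := hbasic R I (qr hR)
  have := b1 (sp (dd S)) (by rw [Ne, Ideal.span_singleton_eq_bot]; exact hod.ne hR)
  have := Fintype.ofFinite (R ⧸ sp (dd S))
  unfold TX Ts
  rw [rs_eq] at h4 ⊢
  have e : ∑ w : R ⧸ sp (dd S), cx x S w.out * G4 L q Ω e (dd S) w.out =
      2 ^ e * (e.factorial : ℂ) * ∑ w : R ⧸ sp (dd S), cx x S w.out *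
        ek L 0 q e (Ω / (2 + 2 * I) + Ω * w.out / dd S) := by
    rw [Finset.mul_sum]
    refine Finset.sum_congr rfl fun w _ => ?_
    unfold G4
    ring
  beta_reduce
  rw [e, h4, mul_zero]

end main

end Pool.Agent.Helper26K9.QT
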