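import Pool.Agent.Helper26K9.QT.Hcq
import Pool.Agent.Helper26K9.QT.Res

/-!
# Quartic twists: the relation between the sums for the conductors `(2 + 2 i) D`, `2 D` and `D`
-/

set_option autoImplicit false
set_option linter.unusedSectionVars false

open scoped PeriodPair

namespace Pool.Agent.Helper26K9.QT

open H667R3 Pool.Agent.TH936.CW Pool.Agent.Y690.NV Pool.Agent.Y690.AW Pool.Agent.W192.HK
open Pool.Agent.TH936.CM (IsLat out_sub)
open Pool.Agent.Helper26K9.XO
open Complex (I)

variable {R : Subring ℂ} (hR : ∀ z : ℂ, z ∈ R ↔ ∃ x y : ℤ, z = x + y * I) {x : R → R → ℂ}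

/-- the complex conjugate family -/
noncomputable def xb (x : R → R → ℂ) (p r : R) : ℂ := (starRingEnd ℂ) (x p r)

lemma XC.conj {p : R} (h : XC x p) : XC (xb x) p := by
  refine ⟨h.od, h.max, fun α β => ?_, ?_, fun α β hαβ => ?_, fun α => ?_, fun α => ?_⟩
  · unfold xb
    rw [h.mul, map_mul]
  · unfold xb
    rw [h.one, map_one]
  · unfold xb
    rw [h.per α β hαβ]
  · unfold xb
    rw [map_eq_zero, h.zero]
  · unfold xb
    rw [← map_pow, h.sq, map_intCast]

lemma cx_xb (S : Finset R) (r : R) : cx (xb x) S r = (starRingEnd ℂ) (cx x S r) := by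
  unfold cx xb
  rw [map_prod]

section lat

variable {L : PeriodPair} {q Ω : ℂ} (hL : IsLat L R Ω) (hCM : H667R3.CM L)
  (hq : ∀ l ∈ L.lattice, eta L l = 0 * l + q * (starRingEnd ℂ) l)

include hR in
lemma fin_of (hbasic : H_BASIC) {μ : R} (hμ : μ ≠ 0) : Finite (R ⧸ sp μ) := by
  obtain ⟨b1, -⟩ := hbasic R I (qr hR)
  exact b1 _ (by rwa [Ne, Ideal.span_singleton_eq_bot])

include hL hq in
lemma per_of {μ : R} (hμ : μ ≠ 0) (e : ℕ) {c : R → ℂ} (hc : ∀ r s : R, r - s ∈ sp μ → c r = c s)
    (hc0 : ∀ r ∈ sp μ, c r = 0) (r s : R) (hrs : r - s ∈ sp μ) :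
    c r * ek L 0 q e (Ω * r / μ) = c s * ek L 0 q e (Ω * s / μ) := by
  by_cases hs : s ∈ sp μ
  · have hr : r ∈ sp μ := by
      have := (sp μ).add_mem hrs hs
      rwa [sub_add_cancel] at this
    rw [hc0 r hr, hc0 s hs, zero_mul, zero_mul]
  · rw [hc r s hrs]
    congr 1
    have hz : Ω * s / μ ∉ L.lattice := fun h => hs ((lat_dm_iff hL μ hμ _).1 h)
    refine ek_per hq e hz ?_
    have := (lat_dm_iff hL μ hμ (r - s)).2 hrs
    convert this using 1
    push_cast
    ring

include hR in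
open Classical in
lemma rs_mul' (hbasic : H_BASIC) {D p : R} (hD : D ≠ 0) (hp : p ≠ 0) (h : R → ℂ)
    (hper : ∀ r s : R, r - s ∈ sp (D * p) → h r = h s) :
    rs (D * p) (fun x => if x ∈ sp p then h x else 0) = rs D (fun w => h (p * w)) := by
  have := fin_of hR hbasic hD
  have := fin_of hR hbasic (mul_ne_zero hD hp)
  have := Fintype.ofFinite (R ⧸ sp D)
  have := Fintype.ofFinite (R ⧸ sp (D * p))
  rw [rs_eq, rs_eq]
  exact rs_mul hp h hper

include hR hL hCM hq in
/-- the change of the modulus -/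
theorem lfib (hbasic : H_BASIC) (e : ℕ) {D p : R} (hD : D ≠ 0) (hp : p ≠ 0) {c : R → ℂ}
    (hc : ∀ r s : R, r - s ∈ sp D → c r = c s) (hc0 : ∀ r ∈ sp D, c r = 0) :
    rs (D * p) (fun x => c x * ek L 0 q e (Ω * x / ((D * p : R) : ℂ))) =
      gm e (p : ℂ) * rs D (fun w => c w * ek L 0 q e (Ω * w / D)) := by
  have hDp : D * p ≠ 0 := mul_ne_zero hD hp
  have := fin_of hR hbasic hD
  have := fin_of hR hbasic hp
  have := fin_of hR hbasic hDp
  have := Fintype.ofFinite (R ⧸ sp D)
  have := Fintype.ofFinite (R ⧸ sp p)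
  have := Fintype.ofFinite (R ⧸ sp (D * p))
  have hDC := coe_ne hD
  have hpC := coe_ne hp
  rw [rs_eq, rs_eq, rs_fib hD _ (per_of hL hq hDp e (fun r s hrs => hc r s (mem_sp_mul_left hrs))
    (fun r hr => hc0 r (mem_sp_mul_left hr))), Finset.mul_sum]
  refine Finset.sum_congr rfl fun w _ => ?_
  have h3 : ∀ y : R ⧸ sp p, c (w.out + D * y.out) = c w.out := by
    intro y
    refine hc _ _ ?_
    rw [add_sub_cancel_left]
    exact (sp D).mul_mem_right _ (Ideal.mem_span_singleton_self D)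
  simp only [h3]
  rw [← Finset.mul_sum]
  by_cases hw : w.out ∈ sp D
  · rw [hc0 _ hw, zero_mul, zero_mul, mul_zero]
  · have hpz : (p : ℂ) * (Ω * w.out / ((D * p : R) : ℂ)) = Ω * w.out / D := by
      push_cast
      field_simp
    have hz : (p : ℂ) * (Ω * w.out / ((D * p : R) : ℂ)) ∉ L.lattice := by
      rw [hpz]
      exact fun h => hw ((lat_dm_iff hL D hD _).1 h)
    obtain ⟨m, hm, hmμ⟩ : ∃ m : ℕ, 0 < m ∧ (m : R) ∈ sp (D * p) := by
      refine ⟨Nat.card (R ⧸ sp (D * p)), Nat.card_pos, ?_⟩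
      rw [← Ideal.Quotient.eq_zero_iff_mem, map_natCast, Nat.card_eq_fintype_card]
      have h1 := card_nsmul_eq_zero' (G := R ⧸ sp (D * p)) (x := 1)
      rwa [Nat.card_eq_fintype_card, nsmul_one] at h1
    have hmz : (m : ℂ) * (Ω * w.out / ((D * p : R) : ℂ)) ∈ L.lattice := by
      have h1 := (lat_dm_iff hL (D * p) hDp _).2 ((sp (D * p)).mul_mem_right w.out hmμ)
      convert h1 using 1
      push_cast
      ring
    have key := ek_dist hCM hq hL e p hp hz hm hmz
    rw [hpz] at key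
    have e1 : ∀ y : R ⧸ sp p, ek L 0 q e (Ω * ((w.out + D * y.out : R) : ℂ) / ((D * p : R) : ℂ)) =
        ek L 0 q e (Ω * w.out / ((D * p : R) : ℂ) + Ω * y.out / p) := by
      intro y
      congr 1
      push_cast
      field_simp
    simp only [e1]
    rw [key]
    ring

include hR hL hCM hq in
/-- the sum over the classes prime to `1 + i` -/
theorem rel_sum (hbasic : H_BASIC) (e : ℕ) {S : Finset R} (hX : ∀ p ∈ S, XC x p) {c : R → ℂ}
    (hc : ∀ r s : R, r - s ∈ sp (ff hR * dd S) → c r = c s) (hc0 : ∀ r ∈ sp (ff hR), c r = 0)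
    (hcop : ∀ r : R, ¬ IsCoprime (sp r) (sp (ff hR)) → c r = 0)
    (hii : ∀ r : R, c (ii hR * r) * (-I) ^ (2 * e + 1) = c r)
    (h1 : ∀ r : R, r - 1 ∈ sp (ff hR) → c r = cx x S r) :
    rs (ff hR * dd S) (fun r => c r * ek L 0 q e (Ω * r / ((ff hR * dd S : R) : ℂ))) =
      4 * (cx x S (ff hR) * rs (dd S) (fun r => cx x S r *
        ek L 0 q e (Ω / (2 + 2 * I) + Ω * r / dd S))) := by
  have hod := dd_od' hR hX
  have hD := hod.ne hR
  have hfD : ff hR * dd S ≠ 0 := mul_ne_zero (ffn hR) hD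
  have := fin_of hR hbasic hD
  have := fin_of hR hbasic hfD
  have := Fintype.ofFinite (R ⧸ sp (dd S))
  have := Fintype.ofFinite (R ⧸ sp (ff hR * dd S))
  have hc0' : ∀ r ∈ sp (ff hR * dd S), c r = 0 := fun r hr => hc0 r (mem_sp_mul_left hr)
  rw [rs_eq, rs_eq, sum_four hR hD (hod.ff hR) _ (per_of hL hq hfD e hc hc0') ?_ ?_]
  · congr 1
    rw [Finset.mul_sum]
    refine Finset.sum_congr rfl fun w _ => ?_
    have h2 : dd S + ff hR * w.out - 1 ∈ sp (ff hR) := by
      have := (sp (ff hR)).add_mem (hod.ff hR) ((sp (ff hR)).mul_mem_right w.out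
        (Ideal.mem_span_singleton_self _))
      convert this using 1
      ring
    have h3 : cx x S (dd S + ff hR * w.out) = cx x S (ff hR) * cx x S w.out := by
      rw [← cx_mul hX]
      refine cx_per hX ?_
      rw [add_sub_cancel_right]
      exact Ideal.mem_span_singleton_self _
    have h9 : Ω * ((dd S + ff hR * w.out : R) : ℂ) / ((ff hR * dd S : R) : ℂ) =
        Ω / (2 + 2 * I) + Ω * w.out / dd S := by
      have e5 : ∀ f p w : ℂ, f ≠ 0 → p ≠ 0 → Ω * (p + f * w) / (f * p) =
          Ω / f + Ω * w / p := by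
        intro f p w hf hp
        field_simp
      push_cast
      rw [ff_coe, e5 _ _ _ one_ne (coe_ne hD)]
    rw [h1 _ h2, h3, h9]
    ring
  · intro r
    by_cases hr : r ∈ sp (ff hR * dd S)
    · rw [hc0' r hr, hc0' _ ((sp _).mul_mem_left _ hr), zero_mul, zero_mul]
    · have hz : Ω * r / ((ff hR * dd S : R) : ℂ) ∉ L.lattice :=
        fun h => hr ((lat_dm_iff hL _ hfD _).1 h)
      have e1 : Ω * ((ii hR * r : R) : ℂ) / ((ff hR * dd S : R) : ℂ) =
          I * (Ω * r / ((ff hR * dd S : R) : ℂ)) := by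
        push_cast
        rw [ii_coe]
        ring
      rw [e1, ek_I hCM e hz, ← hii r]
      ring
  · intro r hr
    rw [hcop r hr, zero_mul]

end lat

/-! ### the two cases -/

section cases

variable {L : PeriodPair} {q Ω : ℂ} (hL : IsLat L R Ω) (hCM : H667R3.CM L)
  (hq : ∀ l ∈ L.lattice, eta L l = 0 * l + q * (starRingEnd ℂ) l)

include hR in
lemma not_cop_ff {r : R} (h : r ∈ sp (ff hR)) : ¬ IsCoprime (sp r) (sp (ff hR)) := by
  intro h1
  have h2 : sp r ≤ sp (ff hR) := (Ideal.span_singleton_le_iff_mem _).mpr h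
  have h3 := Ideal.isCoprime_iff_sup_eq.mp h1
  rw [sup_eq_right.mpr h2] at h3
  exact one_notMem hR (by rw [h3]; exact Submodule.mem_top)

include hR in
lemma cx_ff_ne {S : Finset R} (hX : ∀ p ∈ S, XC x p) : cx x S (ff hR) ≠ 0 := by
  intro h
  rw [cx_zero hX] at h
  obtain ⟨p, hp, h⟩ := h
  obtain ⟨a, b, hab⟩ := cop_ff_pri hR (hX p hp).od
  apply (hX p hp).max.ne_top
  rw [Ideal.eq_top_iff_one, ← hab]
  exact (sp p).add_mem ((sp p).mul_mem_left a (Ideal.mem_span_singleton_self p))
    ((sp p).mul_mem_left b h)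

include hR hL hCM hq in
/-- conductor `2 D` -/
theorem relB (hbasic : H_BASIC) (hfp : H_FP) {e : ℕ} {S : Finset R}
    (hS : ∀ p ∈ S, Prime p ∧ XC x p) (hd : Dst S) (hu : cx x S (ii hR) * I ^ (2 * e + 1) = -1)
    (hne : rs (dd S) (fun r => cx (xb x) S r * ek L 0 q e (Ω / (2 + 2 * I) + Ω * r / dd S)) ≠ 0) :
    rs (2 * dd S) (fun r => (starRingEnd ℂ) (tx hR (2 * e + 1) x S (sp r) / (r : ℂ) ^ (2 * e + 1)) *
      ek L 0 q e (Ω * r / ((2 * dd S : R) : ℂ))) ≠ 0 := by
  have hX : ∀ p ∈ S, XC x p := fun p hp => (hS p hp).2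
  have hX' : ∀ p ∈ S, XC (xb x) p := fun p hp => (hX p hp).conj
  have hod := dd_od' hR hX
  have hD := hod.ne hR
  have hHC := hc_tx hR hbasic (n := 2 * e + 1) hS hd hu
  have h20 : (2 : R) ≠ 0 := by
    intro h
    have := congrArg Subtype.val h
    have h3 : ((2 : R) : ℂ) = 2 := rfl
    rw [h3] at this
    norm_num at this
  have h1i : (1 + ii hR) ≠ 0 := by
    intro h4
    apply ffn hR
    rw [ff_eq, h4, zero_mul]
  have hqt : sp (2 * dd S) ≠ ⊤ := by
    intro h
    have h1 : (2 * dd S : R) ∣ 1 := by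
      rw [← Ideal.mem_span_singleton]
      show (1 : R) ∈ sp (2 * dd S)
      rw [h]
      exact Submodule.mem_top
    obtain ⟨c, hc⟩ := h1
    refine i_notdvd hR ((1 - ii hR) * dd S * c) ?_
    linear_combination hc + (dd S * c) * ii_sq hR
  obtain ⟨f1, f2, f3, f4, f5⟩ := hfp R I (qr hR) (2 * e + 1) _ _ hHC hqt
  set c : R → ℂ := fun r => (starRingEnd ℂ) (fp (2 * e + 1) (tx hR (2 * e + 1) x S) r) with hc
  have hsp : sp (2 * dd S) = sp (2 : R) * sp (dd S) :=
    (Ideal.span_singleton_mul_span_singleton _ _).symm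
  have hcper : ∀ r s : R, r - s ∈ sp (2 * dd S) → c r = c s := by
    intro r s h
    simp only [hc]
    rw [f5 r s h]
  have hczero : ∀ r : R, ¬ IsCoprime (sp r) (sp (2 * dd S)) → c r = 0 := by
    intro r h
    simp only [hc]
    rw [(f3 r).mpr h, map_zero]
  have hc0 : ∀ r ∈ sp (2 * dd S), c r = 0 := by
    intro r hr
    refine hczero r fun h => hqt ?_
    have h1 : sp r ≤ sp (2 * dd S) := (Ideal.span_singleton_le_iff_mem _).mpr hr
    have h2 := Ideal.isCoprime_iff_sup_eq.mp h
    rwa [sup_eq_right.mpr h1] at h2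
  have hcop : ∀ r : R, ¬ IsCoprime (sp r) (sp (ff hR)) → c r = 0 := by
    intro r h
    refine hczero r fun h1 => h ?_
    rw [hsp, IsCoprime.mul_right_iff, cop_two hR] at h1
    exact h1.1
  have hff2 : (ff hR * dd S : R) = (2 * dd S) * (1 + ii hR) := by unfold ff; ring
  have h1 := rel_sum (x := xb x) hR hL hCM hq hbasic e hX' (c := c) (fun r s h => hcper r s (by
    rw [hff2] at h
    exact mem_sp_mul_left h)) (fun r hr => hcop r (not_cop_ff hR hr)) hcop (fun r => ?_)
    (fun r hr => ?_)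
  · intro hzero
    rw [hff2, lfib hR hL hCM hq hbasic e (mul_ne_zero h20 hD) h1i hcper hc0] at h1
    have h2 : rs (2 * dd S) (fun w => c w * ek L 0 q e (Ω * w / ((2 * dd S : R) : ℂ))) = 0 := hzero
    rw [h2, mul_zero] at h1
    have h3 := (mul_eq_zero.mp h1.symm).resolve_left (by norm_num)
    exact hne ((mul_eq_zero.mp h3).resolve_left (cx_ff_ne hR hX'))
  · simp only [hc]
    rw [f2, map_mul]
    have e2 : tx hR (2 * e + 1) x S (sp (ii hR)) = 1 := by
      have h1 : sp (ii hR) = sp (1 : R) := by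
        have := sp_ii hR 1 (1 : R)
        rwa [pow_one, mul_one] at this
      rw [h1, tx_gen hR _ S (by rw [sub_self]; exact (sp _).zero_mem), cx_one hX]
      push_cast
      rw [one_pow, one_mul]
    have e3 : (starRingEnd ℂ) (fp (2 * e + 1) (tx hR (2 * e + 1) x S) (ii hR)) *
        (-I) ^ (2 * e + 1) = 1 := by
      unfold fp
      rw [e2, ii_coe, map_div₀, map_one, map_pow, Complex.conj_I, one_div]
      exact inv_mul_cancel₀ (pow_ne_zero _ (neg_ne_zero.mpr Complex.I_ne_zero))
    linear_combination ((starRingEnd ℂ) (fp (2 * e + 1) (tx hR (2 * e + 1) x S) r)) * e3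
  · simp only [hc]
    unfold fp
    rw [tx_gen hR _ S hr, mul_div_cancel_right₀ _ (pow_ne_zero _ (coe_ne
      (((pri_iff hR r).mp hr).ne hR))), cx_xb]

open Classical in
include hR hL hCM hq in
/-- conductor `D` -/
theorem relA (hbasic : H_BASIC) {e : ℕ} {S : Finset R}
    (hS : ∀ p ∈ S, Prime p ∧ XC x p) (hne0 : S.Nonempty)
    (hu : cx x S (ii hR) * I ^ (2 * e + 1) = 1)
    (hne : rs (dd S) (fun r => cx (xb x) S r * ek L 0 q e (Ω / (2 + 2 * I) + Ω * r / dd S)) ≠ 0) :
    rs (dd S) (fun r => (starRingEnd ℂ) (ty (2 * e + 1) x S (sp r) / (r : ℂ) ^ (2 * e + 1)) *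
      ek L 0 q e (Ω * r / ((dd S : R) : ℂ))) ≠ 0 := by
  have hX : ∀ p ∈ S, XC x p := fun p hp => (hS p hp).2
  have hX' : ∀ p ∈ S, XC (xb x) p := fun p hp => (hX p hp).conj
  have hod := dd_od' hR hX
  have hD := hod.ne hR
  have h20 : (2 : R) ≠ 0 := by
    intro h
    have := congrArg Subtype.val h
    have h3 : ((2 : R) : ℂ) = 2 := rfl
    rw [h3] at this
    norm_num at this
  have h1i : (1 + ii hR) ≠ 0 := by
    intro h4
    apply ffn hR
    rw [ff_eq, h4, zero_mul]
  have hx0 : ∀ r ∈ sp (dd S), cx (xb x) S r = 0 := by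
    intro r hr
    obtain ⟨p, hp⟩ := hne0
    exact (cx_zero hX' r).mpr ⟨p, hp, mem_dd hp hr⟩
  have hxp : ∀ r s : R, r - s ∈ sp (dd S) → cx (xb x) S r = cx (xb x) S s := fun r s h =>
    cx_per hX' h
  have hfp : ∀ r : R, (starRingEnd ℂ) (ty (2 * e + 1) x S (sp r) / (r : ℂ) ^ (2 * e + 1)) =
      cx (xb x) S r := by
    intro r
    by_cases hr : r = 0
    · rw [hr]
      have : sp (0 : R) = ⊥ := Ideal.span_singleton_eq_bot.mpr rfl
      rw [this, ty_bot, zero_div, map_zero, hx0 0 (sp _).zero_mem]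
    · rw [ty_gen hR hX hu hr, mul_div_cancel_right₀ _ (pow_ne_zero _ (coe_ne hr)), cx_xb]
  simp only [hfp]
  intro hzero
  set c : R → ℂ := fun r => if IsCoprime (sp r) (sp (ff hR)) then cx (xb x) S r else 0 with hc
  have hcopper : ∀ r s : R, r - s ∈ sp (ff hR) → IsCoprime (sp r) (sp (ff hR)) →
      IsCoprime (sp s) (sp (ff hR)) := by
    intro r s h1 h2
    rw [Ideal.isCoprime_span_singleton_iff] at h2 ⊢
    rw [Ideal.mem_span_singleton'] at h1
    obtain ⟨d, hd⟩ := h1
    obtain ⟨a, b, hab⟩ := h2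
    exact ⟨a, b + a * d, by linear_combination hab + a * hd⟩
  have hcper : ∀ r s : R, r - s ∈ sp (ff hR * dd S) → c r = c s := by
    intro r s h
    have h1 := mem_sp_mul_left h
    have h2 : IsCoprime (sp r) (sp (ff hR)) ↔ IsCoprime (sp s) (sp (ff hR)) :=
      ⟨hcopper r s h1, hcopper s r (by
        have := (sp (ff hR)).neg_mem h1
        rwa [neg_sub] at this)⟩
    simp only [hc]
    by_cases h3 : IsCoprime (sp s) (sp (ff hR))
    · rw [if_pos h3, if_pos (h2.mpr h3), hxp r s (mem_sp_mul_right h)]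
    · rw [if_neg h3, if_neg (fun h4 => h3 (h2.mp h4))]
  have hcop : ∀ r : R, ¬ IsCoprime (sp r) (sp (ff hR)) → c r = 0 := by
    intro r h
    simp only [hc]
    rw [if_neg h]
  have hcpri : ∀ r : R, r - 1 ∈ sp (ff hR) → IsCoprime (sp r) (sp (ff hR)) := by
    intro r hr
    rw [Ideal.isCoprime_span_singleton_iff]
    exact cop_ff_pri hR ((pri_iff hR r).mp hr)
  have hu' : cx (xb x) S (ii hR) * (-I) ^ (2 * e + 1) = 1 := by
    have := congrArg (starRingEnd ℂ) hu
    rwa [map_mul, map_pow, Complex.conj_I, map_one, ← cx_xb] at this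
  have h1 := rel_sum (x := xb x) hR hL hCM hq hbasic e hX' (c := c) hcper
    (fun r hr => hcop r (not_cop_ff hR hr)) hcop (fun r => ?_) (fun r hr => ?_)
  · -- the sum over all classes minus the sum over the even classes
    have hfD : ff hR * dd S ≠ 0 := mul_ne_zero (ffn hR) hD
    have h2D : dd S * 2 ≠ 0 := mul_ne_zero hD h20
    have hff2 : (dd S * 2 : R) * (1 + ii hR) = ff hR * dd S := by unfold ff; ring
    have hff3 : (dd S * ff hR : R) = ff hR * dd S := mul_comm _ _
    have a1 := lfib hR hL hCM hq hbasic e hD (ffn hR) hxp hx0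
    rw [hzero, mul_zero, hff3] at a1
    have a2 := lfib hR hL hCM hq hbasic e hD h20 hxp hx0
    rw [hzero, mul_zero] at a2
    have := fin_of hR hbasic hfD
    have := Fintype.ofFinite (R ⧸ sp (ff hR * dd S))
    have hper := per_of hL hq hfD e (c := cx (xb x) S)
      (fun r s h => hxp r s (mem_sp_mul_right h)) (fun r h => hx0 r (mem_sp_mul_right h))
    have a3 : ∑ y : R ⧸ sp (ff hR * dd S), (if y.out ∈ sp (1 + ii hR) then
        cx (xb x) S y.out * ek L 0 q e (Ω * y.out / ((ff hR * dd S : R) : ℂ)) else 0) = 0 := by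
      have h9 := rs_mul' hR hbasic (D := dd S * 2) (p := 1 + ii hR) h2D h1i
        (fun r => cx (xb x) S r * ek L 0 q e (Ω * r / ((ff hR * dd S : R) : ℂ)))
        (fun r s h => hper r s (by rwa [hff2] at h))
      rw [hff2] at h9
      rw [rs_eq (D := ff hR * dd S)] at h9
      rw [h9]
      have e3 : ∀ w : R, cx (xb x) S ((1 + ii hR) * w) *
          ek L 0 q e (Ω * (((1 + ii hR) * w : R) : ℂ) / ((ff hR * dd S : R) : ℂ)) =
          cx (xb x) S (1 + ii hR) * (cx (xb x) S w *
            ek L 0 q e (Ω * w / ((dd S * 2 : R) : ℂ))) := by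
        intro w
        rw [cx_mul hX']
        have e4 : Ω * (((1 + ii hR) * w : R) : ℂ) / ((ff hR * dd S : R) : ℂ) =
            Ω * w / ((dd S * 2 : R) : ℂ) := by
          rw [← hff2]
          have e5 := coe_ne h1i
          have e6 := coe_ne h2D
          rw [Subring.coe_mul R (dd S * 2) (1 + ii hR), Subring.coe_mul]
          field_simp
        rw [e4]
        ring
      simp only [e3]
      have h2D' := fin_of hR hbasic h2D
      have := Fintype.ofFinite (R ⧸ sp (dd S * 2))
      rw [rs_eq] at a2 ⊢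
      rw [← Finset.mul_sum, a2, mul_zero]
    have a4 : rs (ff hR * dd S) (fun r => c r * ek L 0 q e (Ω * r / ((ff hR * dd S : R) : ℂ))) =
        0 := by
      rw [rs_eq] at a1 ⊢
      have a5 : ∀ y : R ⧸ sp (ff hR * dd S), c y.out *
          ek L 0 q e (Ω * y.out / ((ff hR * dd S : R) : ℂ)) =
          cx (xb x) S y.out * ek L 0 q e (Ω * y.out / ((ff hR * dd S : R) : ℂ)) -
          (if y.out ∈ sp (1 + ii hR) then
            cx (xb x) S y.out * ek L 0 q e (Ω * y.out / ((ff hR * dd S : R) : ℂ)) else 0) := by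
        intro y
        have h9 : IsCoprime (sp (y.out : R)) (sp (ff hR)) ↔ y.out ∉ sp (1 + ii hR) := by
          constructor
          · intro h8 h7
            have h6 : IsCoprime (sp (y.out : R)) (sp (1 + ii hR)) := by
              have h5 : sp (ff hR) = sp (1 + ii hR) * sp (2 : R) := by
                rw [ff_eq]
                exact (Ideal.span_singleton_mul_span_singleton _ _).symm
              rw [h5] at h8
              exact (IsCoprime.mul_right_iff.mp h8).1
            rw [Ideal.isCoprime_span_singleton_iff] at h6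
            obtain ⟨a, b, hab⟩ := h6
            rw [Ideal.mem_span_singleton'] at h7
            obtain ⟨d, hd⟩ := h7
            refine i_notdvd hR (a * d + b) ?_
            linear_combination -hab - a * hd
          · intro h8
            rcases even_or hR y.out with ⟨a, b, hab, hmk⟩ | ⟨z, hz⟩
            · obtain ⟨j, -, hj⟩ := odd_unit hR a b hab
              rw [← hmk] at hj
              have h7 := hcpri _ hj
              rwa [sp_ii] at h7
            · exact absurd (by
                rw [hz]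
                exact (sp _).mul_mem_right _ (Ideal.mem_span_singleton_self _)) h8
        simp only [hc]
        by_cases h8 : y.out ∈ sp (1 + ii hR)
        · rw [if_neg (fun h7 => (h9.mp h7) h8), if_pos h8, zero_mul, sub_self]
        · rw [if_pos (h9.mpr h8), if_neg h8, sub_zero]
      rw [Finset.sum_congr rfl (fun y _ => a5 y), Finset.sum_sub_distrib, a1, a3, sub_zero]
    rw [a4] at h1
    have h3 := (mul_eq_zero.mp h1.symm).resolve_left (by norm_num)
    exact hne ((mul_eq_zero.mp h3).resolve_left (cx_ff_ne hR hX'))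
  · simp only [hc]
    have h2 : sp (ii hR * r) = sp r := by
      have := sp_ii hR 1 r
      rwa [pow_one] at this
    rw [h2, cx_mul hX']
    by_cases h3 : IsCoprime (sp r) (sp (ff hR))
    · rw [if_pos h3, if_pos h3]
      linear_combination (cx (xb x) S r) * hu'
    · rw [if_neg h3, if_neg h3, zero_mul]
  · simp only [hc]
    rw [if_pos (hcpri r hr)]

end cases

end Pool.Agent.Helper26K9.QT
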