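import Pool.Agent.Helper26K9.DN.Last

/-!
# Quartic twists: the counting statement
-/

set_option autoImplicit false

open Finset Filter

namespace Pool.Agent.Helper26K9.QT

open Pool.Agent.Y690.PP Pool.Agent.Y690.PP.Fn Pool.Agent.Helper26K9.DN

/-- the squarefree Gaussian integers congruent to `3 + 2 i` modulo `4`, of norm at most `X` -/
def TwC (X : ℝ) : Set G := {D | Squarefree D ∧ (4 : G) ∣ D - ⟨3, 2⟩ ∧ ((D.norm : ℤ) : ℝ) ≤ X}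

/-- CNT: `TwC X` is the set of the `PA A`, `A ∈ FF gN X` with `ch A = -1`; `density_D t_ASYM` and the
first part of `t_ASYM : SASYM` give the density. -/
def S_CNT : Prop := (∀ X : ℝ, (TwC X).Finite) ∧
  (∃ c : ℝ, 0 < c ∧ ∃ X₁ : ℝ, ∀ X : ℝ, X₁ ≤ X → c * X ≤ ((TwC X).ncard : ℝ)) ∧
  ∀ Q : G → Prop, (∀ A : Finset Pr, XX gs (fun _ => (1 : ℝ)) A = 2 → ch A = -1 → Q (PA A)) →
    ∀ ε : ℝ, 0 < ε → ∃ X₀ : ℝ, ∀ X : ℝ, X₀ ≤ X →
      (al - ε) * ((TwC X).ncard : ℝ) ≤ ({D ∈ TwC X | Q D}.ncard : ℝ)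

end Pool.Agent.Helper26K9.QT
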